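import Pool.Agent.LibCSF44.Main
import Pool.Agent.LibCS15.NearEA
import Pool.Agent.LibCS15.DependentB
set_option autoImplicit false
namespace Pool.Agent.LibCSF44
open Topology Filter
open Pool.Agent.LibCS15
open scoped Matrix.Norms.L2Operator

private theorem RankOne_pow {H : Type} [Group H] {b : H → ℝ} (hb : ∀ g h, b (g * h) = b g + b h)
    (g : H) (n : ℕ) : b (g ^ n) = n * b g := by
  induction n with
  | zero => rw [pow_zero, add_one hb]; simp
  | succ n ih => rw [pow_succ, hb, ih]; push_cast; ring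

/-- homomorphisms to `ℝ` of a finite index subgroup are proportional on every subgroup `N` whose almost trivial elements commute
in the finite dimensional unitary representations of `G` -/
theorem rank_one_fd {G : Type} [Group G] [Countable G] (hG : CStarStable G) (H : Subgroup G)
    [H.FiniteIndex] (N : Subgroup G)
    (hN : ∀ (d : ℕ) (σ : G →* unitary (Matrix (Fin d) (Fin d) ℂ)) (x y : G), x ∈ N → y ∈ N →
      ‖((σ x : unitary (Matrix (Fin d) (Fin d) ℂ)) : Matrix (Fin d) (Fin d) ℂ) - 1‖ < 1 / 4 →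
      ‖((σ y : unitary (Matrix (Fin d) (Fin d) ℂ)) : Matrix (Fin d) (Fin d) ℂ) - 1‖ < 1 / 4 →
      σ x * σ y = σ y * σ x)
    (b₁ b₂ : H → ℝ) (hb₁ : ∀ g h, b₁ (g * h) = b₁ g + b₁ h)
    (hb₂ : ∀ g h, b₂ (g * h) = b₂ g + b₂ h) (x y : H) (hx : (x : G) ∈ N) (hy : (y : G) ∈ N) :
    b₁ x * b₂ y = b₁ y * b₂ x := by
  by_contra hne
  have hd : b₁ x * b₂ y - b₁ y * b₂ x ≠ 0 := sub_ne_zero.2 hne
  obtain ⟨p, hp, -, hpc⟩ := Subgroup.exists_pow_mem_of_index_ne_zero
    (H := H.normalCore) Subgroup.FiniteIndex.index_ne_zero (x : G)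
  obtain ⟨q, hq, -, hqc⟩ := Subgroup.exists_pow_mem_of_index_ne_zero
    (H := H.normalCore) Subgroup.FiniteIndex.index_ne_zero (y : G)
  have hp' : (p : ℝ) ≠ 0 := by exact_mod_cast hp.ne'
  have hq' : (q : ℝ) ≠ 0 := by exact_mod_cast hq.ne'
  let inc : H.normalCore →* H := Subgroup.inclusion (Subgroup.normalCore_le H)
  let x' : H.normalCore := ⟨(x : G) ^ p, hpc⟩
  let y' : H.normalCore := ⟨(y : G) ^ q, hqc⟩
  have hix : inc x' = x ^ p := Subtype.ext rfl
  have hiy : inc y' = y ^ q := Subtype.ext rfl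
  refine main_contraF hG H.normalCore x' y' ?_
    (fun h => (b₂ (y ^ q) * b₁ (inc h) - b₁ (y ^ q) * b₂ (inc h)) /
      (p * q * (b₁ x * b₂ y - b₁ y * b₂ x)))
    (fun h => (b₁ (x ^ p) * b₂ (inc h) - b₂ (x ^ p) * b₁ (inc h)) /
      (p * q * (b₁ x * b₂ y - b₁ y * b₂ x))) ?_ ?_ ?_ ?_ ?_ ?_
  · intro d σ h1 h2
    exact hN d σ _ _ (N.pow_mem hx p) (N.pow_mem hy q) h1 h2
  · intro g h
    simp only [map_mul, hb₁, hb₂]
    ring
  · intro g h
    simp only [map_mul, hb₁, hb₂]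
    ring
  · simp only [hix, RankOne_pow hb₁, RankOne_pow hb₂]
    rw [div_eq_one_iff_eq (mul_ne_zero (mul_ne_zero hp' hq') hd)]
    ring
  · simp only [hix, RankOne_pow hb₁, RankOne_pow hb₂]
    rw [div_eq_zero_iff]
    left
    ring
  · simp only [hiy, RankOne_pow hb₁, RankOne_pow hb₂]
    rw [div_eq_zero_iff]
    left
    ring
  · simp only [hiy, RankOne_pow hb₁, RankOne_pow hb₂]
    rw [div_eq_one_iff_eq (mul_ne_zero (mul_ne_zero hp' hq') hd)]
    ring

/-- unitary matrices: almost trivial elements of a subgroup with elementary amenable image commute -/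
theorem near_commute_of_ea {G : Type} [Group G] (N : Subgroup G) (d : ℕ)
    (σ : G →* unitary (Matrix (Fin d) (Fin d) ℂ)) (hN : ElementaryAmenable (N.map σ)) (x y : G)
    (hx : x ∈ N) (hy : y ∈ N)
    (hx1 : ‖((σ x : unitary (Matrix (Fin d) (Fin d) ℂ)) : Matrix (Fin d) (Fin d) ℂ) - 1‖ < 1 / 4)
    (hy1 : ‖((σ y : unitary (Matrix (Fin d) (Fin d) ℂ)) : Matrix (Fin d) (Fin d) ℂ) - 1‖ < 1 / 4) :
    σ x * σ y = σ y * σ x := by
  let φ : Matrix (Fin d) (Fin d) ℂ →⋆ₐ[ℂ] (EuclideanSpace ℂ (Fin d) →L[ℂ] EuclideanSpace ℂ (Fin d)) :=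
    ((Matrix.toEuclideanCLM (n := Fin d) (𝕜 := ℂ)) : _ →⋆ₐ[ℂ] _)
  have hφ : ∀ A, ‖φ A‖ = ‖A‖ := fun A => rfl
  have hinj : Function.Injective φ := (Matrix.toEuclideanCLM (n := Fin d) (𝕜 := ℂ)).injective
  let π := mapRep φ σ
  let f : N →* N.map σ := (σ.comp N.subtype).codRestrict (N.map σ) (fun x => ⟨x, x.2, rfl⟩)
  have hone : ∀ A : Matrix (Fin d) (Fin d) ℂ, ‖φ A - 1‖ = ‖A - 1‖ := by
    intro A
    rw [← map_one φ, ← map_sub, hφ]
  have h := nc_ea (N.map σ) hN N f (π.comp N.subtype) (by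
    intro a ha b hb _ _
    have h1 : σ a = 1 := congrArg Subtype.val (show f a = 1 from ha)
    have h2 : π a = 1 := by
      apply Subtype.ext
      show φ (σ a : Matrix (Fin d) (Fin d) ℂ) = 1
      rw [h1]
      exact map_one φ
    show π a * π b = π b * π a
    rw [h2, one_mul, mul_one]) ⟨x, hx⟩ trivial ⟨y, hy⟩ trivial (by
      show ‖φ (σ x : Matrix (Fin d) (Fin d) ℂ) - 1‖ < 1 / 4
      rw [hone]; exact hx1) (by
      show ‖φ (σ y : Matrix (Fin d) (Fin d) ℂ) - 1‖ < 1 / 4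
      rw [hone]; exact hy1)
  apply Subtype.ext
  apply hinj
  have h3 : φ (σ x : Matrix (Fin d) (Fin d) ℂ) * φ (σ y : Matrix (Fin d) (Fin d) ℂ) =
      φ (σ y : Matrix (Fin d) (Fin d) ℂ) * φ (σ x : Matrix (Fin d) (Fin d) ℂ) := congrArg Subtype.val h
  rw [← map_mul, ← map_mul] at h3
  exact h3

/-- homomorphisms to `ℝ` of a finite index subgroup are proportional on every subgroup `N` whose images under the finite
dimensional unitary representations of `G` are elementary amenable -/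
theorem rank_one_ea_image {G : Type} [Group G] [Countable G] (hG : CStarStable G) (H : Subgroup G)
    [H.FiniteIndex] (N : Subgroup G)
    (hN : ∀ (d : ℕ) (σ : G →* unitary (Matrix (Fin d) (Fin d) ℂ)), ElementaryAmenable (N.map σ))
    (b₁ b₂ : H → ℝ) (hb₁ : ∀ g h, b₁ (g * h) = b₁ g + b₁ h)
    (hb₂ : ∀ g h, b₂ (g * h) = b₂ g + b₂ h) (x y : H) (hx : (x : G) ∈ N) (hy : (y : G) ∈ N) :
    b₁ x * b₂ y = b₁ y * b₂ x :=
  rank_one_fd hG H N (fun d σ x y hx hy h1 h2 => near_commute_of_ea N d σ (hN d σ) x y hx hy h1 h2)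
    b₁ b₂ hb₁ hb₂ x y hx hy

end Pool.Agent.LibCSF44
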