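import Pool.Agent.LibCSF44.NormalGen
import Pool.Agent.LibCS15.FinQuot
set_option autoImplicit false
namespace Pool.Agent.LibCSF44
open Topology Filter
open selfAdjoint

/-! The abelianization of a `C*`-stable group is finitely generated. -/

theorem prod_exp {A : Type} [CStarAlgebra A] (hA : ∀ x y : A, x * y = y * x)
    (l : List (selfAdjoint A)) : (l.map expUnitary).prod = expUnitary l.sum := by
  induction l with
  | nil => simp
  | cons a l ih =>
    rw [List.map_cons, List.prod_cons, List.sum_cons, ih]
    exact (Commute.expUnitary_add (hA _ _)).symm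

/-- bounded continuous functions on the line -/
abbrev CbR : Type := BoundedContinuousFunction ℝ ℂ

/-- evaluation -/
noncomputable def evR (s : ℝ) : CbR →⋆ₐ[ℂ] ℂ where
  toFun f := f s
  map_one' := rfl
  map_mul' _ _ := rfl
  map_zero' := rfl
  map_add' _ _ := rfl
  commutes' _ := rfl
  map_star' _ := rfl

theorem continuous_evR (s : ℝ) : Continuous (evR s) :=
  (BoundedContinuousFunction.evalCLM ℂ s : CbR →L[ℂ] ℂ).continuous

instance : Nontrivial CbR := ⟨0, 1, fun h => by
  have h1 := congrArg (fun f : CbR => f 0) h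
  exact zero_ne_one (α := ℂ) h1⟩

theorem exp_evR (a : selfAdjoint CbR) (s : ℝ) :
    ((expUnitary a : unitary CbR) : CbR) s =
      Complex.exp (Complex.I * (((a : CbR) s).re : ℂ)) := by
  let _ : NormedAlgebra ℚ CbR := NormedAlgebra.restrictScalars ℚ ℂ _
  have h1 : evR s (NormedSpace.exp (Complex.I • (a : CbR))) =
      NormedSpace.exp (evR s (Complex.I • (a : CbR))) := by
    have h := NormedSpace.map_exp (evR s) (continuous_evR s) (Complex.I • (a : CbR))
    exact h
  have h2 : evR s (Complex.I • (a : CbR)) = Complex.I * ((a : CbR) s) := rfl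
  have h3 : (((a : CbR) s).re : ℂ) = (a : CbR) s := by
    have h4 : star ((a : CbR) s) = (a : CbR) s := by
      have := congrArg (fun f : CbR => f s) (selfAdjoint.mem_iff.1 a.2)
      exact this
    exact Complex.conj_eq_iff_re.1 h4
  rw [h3, selfAdjoint.expUnitary_coe]
  show evR s (NormedSpace.exp (Complex.I • (a : CbR))) = _
  rw [h1, h2, Complex.exp_eq_exp_ℂ]

/-- the one parameter family of characters `exp (i s b(g))` -/
noncomputable def oneParam {G : Type} [Group G] (b : G → ℝ) (hb : ∀ g h, b (g * h) = b g + b h) :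
    G →* unitary CbR where
  toFun g := ⟨BoundedContinuousFunction.ofNormedAddCommGroup
      (fun s : ℝ => Complex.exp (Complex.I * ((s * b g : ℝ) : ℂ))) (by fun_prop) 1 (fun s => by
        rw [mul_comm, Complex.norm_exp_ofReal_mul_I]), by
    rw [Unitary.mem_iff]
    constructor
    · ext s
      show star (Complex.exp (Complex.I * ((s * b g : ℝ) : ℂ))) *
        Complex.exp (Complex.I * ((s * b g : ℝ) : ℂ)) = 1
      rw [Complex.star_def, ← Complex.exp_conj, ← Complex.exp_add, map_mul, Complex.conj_I,
        Complex.conj_ofReal]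
      rw [show -Complex.I * ((s * b g : ℝ) : ℂ) + Complex.I * ((s * b g : ℝ) : ℂ) = 0 by ring,
        Complex.exp_zero]
    · ext s
      show Complex.exp (Complex.I * ((s * b g : ℝ) : ℂ)) *
        star (Complex.exp (Complex.I * ((s * b g : ℝ) : ℂ))) = 1
      rw [Complex.star_def, ← Complex.exp_conj, ← Complex.exp_add, map_mul, Complex.conj_I,
        Complex.conj_ofReal]
      rw [show Complex.I * ((s * b g : ℝ) : ℂ) + -Complex.I * ((s * b g : ℝ) : ℂ) = 0 by ring,
        Complex.exp_zero]⟩
  map_one' := by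
    apply Subtype.ext
    ext s
    show Complex.exp (Complex.I * ((s * b 1 : ℝ) : ℂ)) = 1
    have h1 : b 1 = 0 := by
      have := hb 1 1
      rw [mul_one] at this
      linarith
    rw [h1]
    simp
  map_mul' g h := by
    apply Subtype.ext
    ext s
    show Complex.exp (Complex.I * ((s * b (g * h) : ℝ) : ℂ)) =
      Complex.exp (Complex.I * ((s * b g : ℝ) : ℂ)) * Complex.exp (Complex.I * ((s * b h : ℝ) : ℂ))
    rw [← Complex.exp_add, hb]
    congr 1
    push_cast
    ring

theorem oneParam_apply {G : Type} [Group G] (b : G → ℝ) (hb : ∀ g h, b (g * h) = b g + b h)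
    (g : G) (s : ℝ) :
    ((oneParam b hb g : CbR)) s = Complex.exp (Complex.I * ((s * b g : ℝ) : ℂ)) := rfl

/-- homomorphisms to `ℝ` which vanish on `F` vanish -/
theorem add_eq_zero {G : Type} [Group G] {F : Finset G} {δ : ℝ} (hδ : 0 < δ) {F₀ : Finset G}
    {ε₀ : ℝ} (hF : Homot G F δ F₀ ε₀) (b : G → ℝ) (hb : ∀ g h, b (g * h) = b g + b h)
    (hbF : ∀ g ∈ F, b g = 0) (g : G) : b g = 0 := by
  obtain ⟨R, hR, -⟩ := hF CbR 1 (oneParam b hb) (by
    intro g hg
    have h1 : (oneParam b hb g : CbR) = 1 := by
      ext s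
      rw [oneParam_apply, hbF g hg]
      simp
    rw [h1, MonoidHom.one_apply]
    show ‖(1 : CbR) - 1‖ < δ
    rw [sub_self, norm_zero]
    exact hδ)
  have hpath : oneParam b hb g ∈ pathComponent (1 : unitary CbR) := by
    refine ⟨⟨⟨fun t => evPath R t g, ?_⟩, ?_, ?_⟩⟩
    · exact Continuous.subtype_mk (continuous_evPath R g) _
    · apply Subtype.ext
      show (evPath R 0 g : CbR) = 1
      rw [evPath_apply, (hR g).1]
      rfl
    · apply Subtype.ext
      show (evPath R 1 g : CbR) = oneParam b hb g
      rw [evPath_apply, (hR g).2]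
  obtain ⟨l, hl⟩ := Unitary.mem_pathComponentOne_iff.1 hpath
  rw [prod_exp (fun x y => mul_comm x y)] at hl
  set a := l.sum with ha
  have h1 : ∀ s : ℝ, ∃ n : ℤ, s * b g = ((a : CbR) s).re + n * (2 * Real.pi) := by
    intro s
    have h2 := congrArg (fun u : unitary CbR => (u : CbR) s) hl
    simp only [exp_evR, oneParam_apply] at h2
    rw [Complex.exp_eq_exp_iff_exists_int] at h2
    obtain ⟨n, hn⟩ := h2
    refine ⟨-n, ?_⟩
    have h3 := congrArg Complex.im hn
    simp at h3
    push_cast
    linarith
  choose n hn using h1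
  have hcont : Continuous n := by
    have h2 : Continuous (fun s : ℝ => ((n s : ℤ) : ℝ)) := by
      have h3 : (fun s : ℝ => ((n s : ℤ) : ℝ)) =
          fun s : ℝ => (s * b g - ((a : CbR) s).re) / (2 * Real.pi) := by
        funext s
        rw [hn s]
        field_simp
        ring
      rw [h3]
      have h4 : Continuous fun s : ℝ => ((a : CbR) s).re :=
        Complex.continuous_re.comp (a : CbR).continuous
      fun_prop
    exact Int.isClosedEmbedding_coe_real.continuous_iff.2 h2
  have hconst : ∀ s, n s = n 0 := fun s => PreconnectedSpace.constant inferInstance hcont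
  by_contra hne
  have hbd : ∀ s : ℝ, |s * b g| ≤ ‖(a : CbR)‖ + |n 0 * (2 * Real.pi)| := by
    intro s
    rw [hn s, hconst s]
    refine (abs_add_le _ _).trans (add_le_add ?_ le_rfl)
    exact (Complex.abs_re_le_norm _).trans ((a : CbR).norm_coe_le_norm s)
  have h5 := hbd ((‖(a : CbR)‖ + |n 0 * (2 * Real.pi)| + 1) / b g)
  rw [div_mul_cancel₀ _ hne, abs_of_pos (by positivity)] at h5
  linarith

end Pool.Agent.LibCSF44
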