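import Pool.Agent.LibCSF44.Abel
set_option autoImplicit false
namespace Pool.Agent.LibCSF44
open Topology Filter
open Pool.Agent.LibCS15 (exists_char_ne)

/-- unitary complex numbers as elements of the circle -/
noncomputable def toC (u : unitary ℂ) : Circle :=
  ⟨(u : ℂ), mem_sphere_zero_iff_norm.2 (CStarRing.norm_coe_unitary u)⟩

theorem coe_toC (u : unitary ℂ) : (toC u : ℂ) = u := rfl

/-- the path of the element `g` in the circle -/
noncomputable def pathC {G : Type} [Group G] (R : G →* unitary C(unitInterval, ℂ)) (g : G) :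
    C(unitInterval, Circle) :=
  ⟨fun t => toC (evPath R t g), Continuous.subtype_mk (continuous_evPath R g) _⟩

theorem pathC_apply {G : Type} [Group G] (R : G →* unitary C(unitInterval, ℂ)) (g : G)
    (t : unitInterval) : (pathC R g t : ℂ) = (R g : C(unitInterval, ℂ)) t := rfl

theorem exists_lift {G : Type} [Group G] (R : G →* unitary C(unitInterval, ℂ))
    (h0 : ∀ g, (R g : C(unitInterval, ℂ)) 0 = 1) :
    ∃ f : G → C(unitInterval, ℝ), (∀ g h t, f (g * h) t = f g t + f h t) ∧ (∀ g, f g 0 = 0) ∧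
      ∀ g t, (R g : C(unitInterval, ℂ)) t = Complex.exp (f g t * Complex.I) := by
  have h00 : ∀ g, pathC R g 0 = Circle.exp 0 := by
    intro g
    apply Circle.ext
    rw [pathC_apply, h0]
    simp
  let f : G → C(unitInterval, ℝ) := fun g =>
    Circle.isCoveringMap_exp.liftPath (pathC R g) 0 (h00 g)
  have hf0 : ∀ g, f g 0 = 0 := fun g => Circle.isCoveringMap_exp.liftPath_zero _ _ _
  have hfl : ∀ g t, Circle.exp (f g t) = pathC R g t := fun g t =>
    congr_fun (Circle.isCoveringMap_exp.liftPath_lifts (pathC R g) 0 (h00 g)) t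
  refine ⟨f, ?_, hf0, ?_⟩
  · intro g h t
    have h1 : f g + f h = f (g * h) := by
      refine (Circle.isCoveringMap_exp.eq_liftPath_iff' (h00 (g * h))).2 ⟨?_, ?_⟩
      · funext t
        show Circle.exp (f g t + f h t) = pathC R (g * h) t
        rw [Circle.exp_add, hfl, hfl]
        apply Circle.ext
        rw [pathC_apply, map_mul]
        rfl
      · show f g 0 + f h 0 = 0
        rw [hf0, hf0, add_zero]
    rw [← h1]
    rfl
  · intro g t
    rw [← pathC_apply, ← hfl]
    rfl

/-- characters which are trivial on `F₁ ∪ F₂` are trivial -/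
theorem char_trivial {G : Type} [Group G] {F₁ F₂ F₀ : Finset G} {δ₁ δ₂ ε₀ : ℝ} (hδ₁ : 0 < δ₁)
    (hδ₂ : 0 < δ₂) (h1 : Homot G F₁ δ₁ F₀ ε₀) (h2 : Homot G F₂ δ₂ F₁ 1) (χ : G →* unitary ℂ)
    (hχ1 : ∀ g ∈ F₁, χ g = 1) (hχ2 : ∀ g ∈ F₂, χ g = 1) (g : G) : χ g = 1 := by
  obtain ⟨R, hR, hR'⟩ := h2 ℂ 1 χ (by
    intro g hg
    rw [hχ2 g hg, MonoidHom.one_apply, sub_self, norm_zero]
    exact hδ₂)
  obtain ⟨f, hadd, hf0, hfR⟩ := exists_lift R (fun g => by rw [(hR g).1]; rfl)
  have hF₁ : ∀ g ∈ F₁, f g 1 = 0 := by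
    intro g hg
    have e1 := hfR g 1
    rw [(hR g).2, hχ1 g hg] at e1
    have e2 : Complex.exp (f g 1 * Complex.I) = Complex.exp 0 := by
      rw [Complex.exp_zero]
      exact e1.symm
    rw [Complex.exp_eq_exp_iff_exists_int] at e2
    obtain ⟨n, hn⟩ := e2
    have e3 : f g 1 = n * (2 * Real.pi) := by
      have := congrArg Complex.im hn
      simpa using this
    have hno : ∀ t, f g t ≠ Real.pi ∧ f g t ≠ -Real.pi := by
      intro t
      have e4 := hR' g hg t
      rw [hfR g t] at e4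
      constructor
      · intro h
        rw [h, Complex.exp_pi_mul_I, MonoidHom.one_apply] at e4
        have : ‖(-1 : ℂ) - ((1 : unitary ℂ) : ℂ)‖ = 2 := by
          rw [OneMemClass.coe_one]
          norm_num
        linarith
      · intro h
        rw [h, Complex.ofReal_neg, neg_mul, Complex.exp_neg, Complex.exp_pi_mul_I,
          MonoidHom.one_apply] at e4
        have : ‖(-1 : ℂ)⁻¹ - ((1 : unitary ℂ) : ℂ)‖ = 2 := by
          rw [OneMemClass.coe_one]
          norm_num
        linarith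
    have hpi := Real.pi_pos
    rcases lt_trichotomy n 0 with hlt | heq | hgt
    · exfalso
      have e5 : (n : ℝ) ≤ -1 := by exact_mod_cast Int.le_sub_one_of_lt hlt
      have e6 : f g 1 ≤ -Real.pi := by rw [e3]; nlinarith
      obtain ⟨t, ht⟩ := intermediate_value_univ (1 : unitInterval) 0 (f g).continuous
        (show -Real.pi ∈ Set.Icc (f g 1) (f g 0) from ⟨e6, by rw [hf0]; linarith⟩)
      exact (hno t).2 ht
    · rw [e3, heq]
      simp
    · exfalso
      have e5 : (1 : ℝ) ≤ n := by exact_mod_cast hgt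
      have e6 : Real.pi ≤ f g 1 := by rw [e3]; nlinarith
      obtain ⟨t, ht⟩ := intermediate_value_univ (0 : unitInterval) 1 (f g).continuous
        (show Real.pi ∈ Set.Icc (f g 0) (f g 1) from ⟨by rw [hf0]; linarith, e6⟩)
      exact (hno t).1 ht
  have hzero := add_eq_zero hδ₁ h1 (fun g => f g 1) (fun g h => hadd g h 1) hF₁ g
  apply Subtype.ext
  have e7 := hfR g 1
  rw [(hR g).2] at e7
  rw [e7, show f g 1 = 0 from hzero]
  simp

/-- `F₁ ∪ F₂` generates `G` modulo its commutator subgroup -/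
theorem closure_sup_commutator {G : Type} [Group G] {F₁ F₂ F₀ : Finset G} {δ₁ δ₂ ε₀ : ℝ}
    (hδ₁ : 0 < δ₁) (hδ₂ : 0 < δ₂) (h1 : Homot G F₁ δ₁ F₀ ε₀) (h2 : Homot G F₂ δ₂ F₁ 1) :
    Subgroup.closure ((F₁ : Set G) ∪ (F₂ : Set G)) ⊔ commutator G = ⊤ := by
  set K := Subgroup.closure ((F₁ : Set G) ∪ (F₂ : Set G)) with hK
  set B : Subgroup (Abelianization G) := K.map Abelianization.of with hB
  have hB' : ∀ a : Abelianization G, a ∈ B := by
    intro a
    by_contra hne
    have h3 : ((a : Abelianization G) : Abelianization G ⧸ B) ≠ 1 := fun h =>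
      hne ((QuotientGroup.eq_one_iff a).1 h)
    obtain ⟨χ, hχ⟩ := exists_char_ne h3
    obtain ⟨g, rfl⟩ : ∃ g, Abelianization.of g = a := QuotientGroup.mk'_surjective _ a
    apply hχ
    have h4 : ∀ x ∈ (F₁ : Set G) ∪ (F₂ : Set G),
        (χ.comp ((QuotientGroup.mk' B).comp Abelianization.of)) x = 1 := by
      intro x hx
      have : (QuotientGroup.mk' B) (Abelianization.of x) = 1 :=
        (QuotientGroup.eq_one_iff _).2 (Subgroup.mem_map_of_mem _ (Subgroup.subset_closure hx))
      rw [MonoidHom.comp_apply, MonoidHom.comp_apply, this, map_one]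
    exact char_trivial hδ₁ hδ₂ h1 h2 (χ.comp ((QuotientGroup.mk' B).comp Abelianization.of))
      (fun x hx => h4 x (Or.inl hx)) (fun x hx => h4 x (Or.inr hx)) g
  rw [eq_top_iff]
  intro g _
  obtain ⟨k, hk, hk'⟩ := Subgroup.mem_map.1 (hB' (Abelianization.of g))
  have h5 : k⁻¹ * g ∈ commutator G := by
    have : Abelianization.of (k⁻¹ * g) = 1 := by
      rw [map_mul, map_inv, hk', inv_mul_cancel]
    exact (QuotientGroup.eq_one_iff _).1 this
  have h6 : g = k * (k⁻¹ * g) := by group
  rw [h6]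
  exact Subgroup.mul_mem_sup hk h5

end Pool.Agent.LibCSF44
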