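import Pool.Agent.LibCSF44.PathG
set_option autoImplicit false
namespace Pool.Agent.LibCSF44
open Topology Filter
open Pool.Agent.LibCS15 (IsClosedIdeal CStarStable)
open Pool.Agent.LibCS44 (lifting_var)

/-! Almost invariant projections are moved to invariant ones. -/

section
variable {B : Type} [CStarAlgebra B]

/-- the commutant of `p` -/
noncomputable def cq (p : B) : StarSubalgebra ℂ B := StarSubalgebra.centralizer ℂ {p}

theorem mem_cq {p : B} (hp : star p = p) {T : B} : T ∈ cq p ↔ p * T = T * p := by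
  unfold cq
  rw [StarSubalgebra.mem_centralizer_iff]
  constructor
  · intro h
    exact (h p rfl).1
  · rintro h g rfl
    exact ⟨h, by rw [hp]; exact h⟩

instance isClosed_cq (p : B) : IsClosed (cq p : Set B) := by
  have : (cq p : Set B) = ({p} ∪ star {p} : Set B).centralizer := rfl
  rw [this]
  exact Set.isClosed_centralizer _

theorem norm_proj_le {p : B} (hp : star p = p) (hpp : p * p = p) : ‖p‖ ≤ 1 := by
  have h1 : ‖p‖ * ‖p‖ = ‖p‖ := by
    rw [← CStarRing.norm_star_mul_self, hp, hpp]
  nlinarith [norm_nonneg p]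

end

theorem compress_seq {G : Type} [Group G] [Countable G] (hG : CStarStable G) (B : ℕ → Type)
    [∀ m, CStarAlgebra (B m)] [∀ m, Nontrivial (B m)] (p : ∀ m, B m)
    (hp : ∀ m, star (p m) = p m) (hpp : ∀ m, p m * p m = p m) (ρ : ∀ m, G →* unitary (B m))
    (h : ∀ g, Tendsto (fun m => ‖(ρ m g : B m) * p m - p m‖) atTop (𝓝 0)) :
    ∃ μ : ∀ m, G →* unitary (B m), (∀ m g, (μ m g : B m) * p m = p m) ∧
      ∀ g, Tendsto (fun m => ‖(ρ m g : B m) - (μ m g : B m)‖) atTop (𝓝 0) := by
  classical
  let q : ∀ m, B m := fun m => 1 - p m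
  have hq : ∀ m, star (q m) = q m := fun m => by
    show star (1 - p m) = 1 - p m
    rw [star_sub, star_one, hp]
  have hqq : ∀ m, q m * q m = q m := fun m => by
    show (1 - p m) * (1 - p m) = 1 - p m
    rw [mul_sub, mul_one, sub_mul, one_mul, hpp, sub_self, sub_zero]
  have hpq : ∀ m, p m * q m = 0 := fun m => by
    show p m * (1 - p m) = 0
    rw [mul_sub, mul_one, hpp, sub_self]
  have hqp : ∀ m, q m * p m = 0 := fun m => by
    show (1 - p m) * p m = 0
    rw [sub_mul, one_mul, hpp, sub_self]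
  have hpaq : ∀ m, p m + q m = 1 := fun m => by
    show p m + (1 - p m) = 1
    abel
  have np : ∀ m, ‖p m‖ ≤ 1 := fun m => norm_proj_le (hp m) (hpp m)
  have nq : ∀ m, ‖q m‖ ≤ 1 := fun m => norm_proj_le (hq m) (hqq m)
  have nρ : ∀ m g, ‖(ρ m g : B m)‖ = 1 := fun m g => CStarRing.norm_coe_unitary _
  have hmem : ∀ m g, p m + q m * (ρ m g : B m) * q m ∈ cq (p m) := by
    intro m g
    rw [mem_cq (hp m), mul_add, add_mul, hpp, mul_assoc (q m), ← mul_assoc (p m), hpq, zero_mul,
      mul_assoc (q m), mul_assoc (ρ m g : B m), hqp, mul_zero, mul_zero]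
  let v : ∀ m, G → cq (p m) := fun m g => ⟨p m + q m * (ρ m g : B m) * q m, hmem m g⟩
  have hv : ∀ m g, (v m g : B m) = p m + q m * (ρ m g : B m) * q m := fun _ _ => rfl
  have hnt : ∀ m, Nontrivial (cq (p m)) := fun m => ⟨0, 1, fun h0 => zero_ne_one (α := B m)
    (congrArg Subtype.val h0)⟩
  have hρmul : ∀ m g h, (ρ m (g * h) : B m) = (ρ m g : B m) * (ρ m h : B m) := by
    intro m g h
    rw [map_mul]
    rfl
  have hv1 : ∀ m, v m 1 = 1 := by
    intro m
    apply Subtype.ext
    rw [hv, map_one]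
    show p m + q m * 1 * q m = 1
    rw [mul_one, hqq, hpaq]
  have hvs : ∀ m g, v m g⁻¹ = star (v m g) := by
    intro m g
    apply Subtype.ext
    show p m + q m * (ρ m g⁻¹ : B m) * q m = star (p m + q m * (ρ m g : B m) * q m)
    rw [star_add, star_mul, star_mul, hp, hq, map_inv, ← Unitary.star_eq_inv, Unitary.coe_star,
      mul_assoc]
  have hvm : ∀ m g h, ‖v m (g * h) - v m g * v m h‖ ≤ ‖(ρ m g : B m) * p m - p m‖ := by
    intro m g h
    have e1 : ((v m (g * h) - v m g * v m h : cq (p m)) : B m) =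
        q m * ((ρ m g : B m) * p m - p m) * ((ρ m h : B m) * q m) := by
      show (v m (g * h) : B m) - (v m g : B m) * (v m h : B m) = _
      rw [hv, hv, hv, hρmul]
      have e2 : (p m + q m * (ρ m g : B m) * q m) * (p m + q m * (ρ m h : B m) * q m) =
          p m + q m * (ρ m g : B m) * q m * (ρ m h : B m) * q m := by
        have t1 : p m * (q m * (ρ m h : B m) * q m) = 0 := by
          rw [mul_assoc, ← mul_assoc (p m), hpq, zero_mul]
        have t2 : q m * (ρ m g : B m) * q m * p m = 0 := by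
          rw [mul_assoc, hqp, mul_zero]
        have t3 : q m * (ρ m g : B m) * q m * (q m * (ρ m h : B m) * q m) =
            q m * (ρ m g : B m) * q m * (ρ m h : B m) * q m := by
          rw [← mul_assoc, ← mul_assoc, mul_assoc (q m * (ρ m g : B m)) (q m) (q m), hqq]
        rw [add_mul, mul_add, mul_add, hpp, t1, t2, t3, add_zero, zero_add]
      rw [e2]
      have e3 : q m * ((ρ m g : B m) * p m - p m) * ((ρ m h : B m) * q m) =
          q m * (ρ m g : B m) * p m * (ρ m h : B m) * q m := by
        rw [mul_sub, hqp, sub_zero]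
        simp only [mul_assoc]
      rw [e3]
      have e4 : q m * ((ρ m g : B m) * (ρ m h : B m)) * q m =
          q m * (ρ m g : B m) * (p m + q m) * (ρ m h : B m) * q m := by
        rw [hpaq]
        simp only [mul_assoc, one_mul]
      rw [e4, mul_add, add_mul, add_mul]
      abel
    show ‖((v m (g * h) - v m g * v m h : cq (p m)) : B m)‖ ≤ _
    rw [e1]
    calc ‖q m * ((ρ m g : B m) * p m - p m) * ((ρ m h : B m) * q m)‖
        ≤ (‖q m‖ * ‖(ρ m g : B m) * p m - p m‖) * (‖(ρ m h : B m)‖ * ‖q m‖) :=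
          (norm_mul_le _ _).trans (mul_le_mul (norm_mul_le _ _) (norm_mul_le _ _)
            (norm_nonneg _) (by positivity))
      _ ≤ (1 * ‖(ρ m g : B m) * p m - p m‖) * (1 * 1) := by
          rw [nρ]
          have := nq m
          gcongr
      _ = ‖(ρ m g : B m) * p m - p m‖ := by ring
  obtain ⟨m₀, π, -, hπ⟩ := lifting_var hG (fun m => cq (p m)) (fun m => Set.univ)
    (fun m => ⟨isClosed_univ, trivial, fun _ _ _ _ => trivial,
      fun _ _ _ => trivial, fun _ _ _ => trivial, fun _ _ _ => trivial, fun _ _ => trivial⟩) v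
    (fun g => ⟨2, fun m => by
      show ‖(v m g : B m)‖ ≤ 2
      rw [hv]
      refine (norm_add_le _ _).trans ?_
      have e1 : ‖q m * (ρ m g : B m) * q m‖ ≤ 1 := by
        refine (norm_mul_le _ _).trans ?_
        have e2 : ‖q m * (ρ m g : B m)‖ ≤ 1 := by
          refine (norm_mul_le _ _).trans ?_
          rw [nρ, mul_one]
          exact nq m
        calc ‖q m * (ρ m g : B m)‖ * ‖q m‖ ≤ 1 * 1 :=
              mul_le_mul e2 (nq m) (norm_nonneg _) zero_le_one
          _ = 1 := one_mul 1
      linarith [np m]⟩)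
    (fun m => trivial)
    (by
      simp only [hv1, sub_self, norm_zero]
      exact tendsto_const_nhds)
    (fun m g h => trivial)
    (fun g h' => squeeze_zero (fun m => norm_nonneg _) (fun m => hvm m g h') (h g))
    (fun m g => trivial)
    (fun g => by
      simp only [hvs, sub_self, norm_zero]
      exact tendsto_const_nhds)
  -- the representations fixing `p`
  have hπp : ∀ m g, p m * ((π m g : cq (p m)) : B m) = ((π m g : cq (p m)) : B m) * p m :=
    fun m g => (mem_cq (hp m)).1 (π m g : cq (p m)).2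
  have hπq : ∀ m g, q m * ((π m g : cq (p m)) : B m) = ((π m g : cq (p m)) : B m) * q m := by
    intro m g
    show (1 - p m) * _ = _ * (1 - p m)
    rw [sub_mul, mul_sub, one_mul, mul_one, hπp]
  have hπs : ∀ m g, star ((π m g : cq (p m)) : B m) * ((π m g : cq (p m)) : B m) = 1 := fun m g =>
    congrArg Subtype.val (Unitary.coe_star_mul_self (π m g))
  have hπs' : ∀ m g, ((π m g : cq (p m)) : B m) * star ((π m g : cq (p m)) : B m) = 1 := fun m g =>
    congrArg Subtype.val (Unitary.coe_mul_star_self (π m g))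
  have hμstar : ∀ m g, star (p m + ((π m g : cq (p m)) : B m) * q m) =
      p m + star ((π m g : cq (p m)) : B m) * q m := by
    intro m g
    rw [star_add, star_mul, hp, hq]
    congr 1
    have := congrArg star (hπq m g)
    rw [star_mul, star_mul, hq] at this
    exact this.symm
  have hprod : ∀ m (a b : B m), p m * a = a * p m → p m * b = b * p m →
      (p m + a * q m) * (p m + b * q m) = p m + (a * b) * q m := by
    intro m a b ha hb
    have hqb : q m * b = b * q m := by
      show (1 - p m) * b = b * (1 - p m)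
      rw [sub_mul, mul_sub, one_mul, mul_one, hb]
    have t1 : p m * (b * q m) = 0 := by rw [← mul_assoc, hb, mul_assoc, hpq, mul_zero]
    have t2 : a * q m * p m = 0 := by rw [mul_assoc, hqp, mul_zero]
    have t3 : a * q m * (b * q m) = a * b * q m := by
      rw [mul_assoc, ← mul_assoc (q m), hqb, mul_assoc b, hqq, ← mul_assoc]
    rw [add_mul, mul_add, mul_add, hpp, t1, t2, t3, add_zero, zero_add]
  have hstarp : ∀ m g, p m * star ((π m g : cq (p m)) : B m) =
      star ((π m g : cq (p m)) : B m) * p m := by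
    intro m g
    have := congrArg star (hπp m g)
    rw [star_mul, star_mul, hp] at this
    exact this.symm
  let μ : ∀ m, G →* unitary (B m) := fun m =>
    { toFun := fun g => ⟨p m + ((π m g : cq (p m)) : B m) * q m, by
        rw [Unitary.mem_iff, hμstar, hprod m _ _ (hstarp m g) (hπp m g),
          hprod m _ _ (hπp m g) (hstarp m g), hπs, hπs', one_mul, hpaq]
        exact ⟨rfl, rfl⟩⟩
      map_one' := by
        apply Subtype.ext
        show p m + ((π m 1 : cq (p m)) : B m) * q m = 1
        rw [map_one]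
        show p m + 1 * q m = 1
        rw [one_mul, hpaq]
      map_mul' := fun g h => by
        apply Subtype.ext
        show p m + ((π m (g * h) : cq (p m)) : B m) * q m =
          (p m + ((π m g : cq (p m)) : B m) * q m) * (p m + ((π m h : cq (p m)) : B m) * q m)
        rw [hprod m _ _ (hπp m g) (hπp m h), map_mul]
        rfl }
  have hμ : ∀ m g, (μ m g : B m) = p m + ((π m g : cq (p m)) : B m) * q m := fun _ _ => rfl
  refine ⟨μ, fun m g => ?_, fun g => ?_⟩
  · rw [hμ, add_mul, hpp, mul_assoc, hqp, mul_zero, add_zero]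
  · have t1 := ((h g).add (h g⁻¹)).add (hπ g)
    simp only [add_zero] at t1
    refine squeeze_zero (fun m => norm_nonneg _) (fun m => ?_) t1
    have e0 : (ρ m g : B m) * (ρ m g⁻¹ : B m) = 1 := by
      rw [← hρmul, mul_inv_cancel, map_one]
      rfl
    -- decomposition
    have e1 : (ρ m g : B m) - (μ m g : B m) = ((ρ m g : B m) * p m - p m) +
        (p m * (ρ m g : B m) - p m) * q m -
        (((π m g : cq (p m)) : B m) - (v m g : B m)) * q m := by
      rw [hμ, hv]
      have t3 : (p m + q m * (ρ m g : B m) * q m) * q m = q m * (ρ m g : B m) * q m := by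
        rw [add_mul, hpq, zero_add, mul_assoc, hqq]
      rw [sub_mul (((π m g : cq (p m)) : B m)), t3, sub_mul (p m * (ρ m g : B m)), hpq, sub_zero]
      have t4 : (ρ m g : B m) * p m + p m * (ρ m g : B m) * q m + q m * (ρ m g : B m) * q m =
          (ρ m g : B m) := by
        have t5 : p m * (ρ m g : B m) * q m + q m * (ρ m g : B m) * q m =
            (ρ m g : B m) * q m := by
          rw [← add_mul, ← add_mul, hpaq, one_mul]
        rw [add_assoc, t5, ← mul_add, hpaq, mul_one]
      have t6 : (ρ m g : B m) - (p m + ((π m g : cq (p m)) : B m) * q m) =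
          ((ρ m g : B m) * p m + p m * (ρ m g : B m) * q m + q m * (ρ m g : B m) * q m) -
            (p m + ((π m g : cq (p m)) : B m) * q m) := by rw [t4]
      rw [t6]
      abel
    rw [e1]
    have n1 : ‖(p m * (ρ m g : B m) - p m) * q m‖ ≤ ‖(ρ m g⁻¹ : B m) * p m - p m‖ := by
      refine (norm_mul_le _ _).trans ?_
      refine (mul_le_of_le_one_right (norm_nonneg _) (nq m)).trans ?_
      have : p m * (ρ m g : B m) - p m = star ((ρ m g⁻¹ : B m) * p m - p m) := by
        rw [star_sub, star_mul, hp, map_inv, ← Unitary.star_eq_inv, Unitary.coe_star, star_star]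
      rw [this, norm_star]
    have n2 : ‖(((π m g : cq (p m)) : B m) - (v m g : B m)) * q m‖ ≤
        ‖(π m g : cq (p m)) - v m g‖ := by
      refine (norm_mul_le _ _).trans ?_
      exact mul_le_of_le_one_right (norm_nonneg _) (nq m)
    refine (norm_sub_le _ _).trans (add_le_add ?_ n2)
    exact (norm_add_le _ _).trans (add_le_add le_rfl n1)

/-- uniform version -/
theorem uniform_compress {G : Type} [Group G] [Countable G] (hG : CStarStable G) (F : Finset G)
    (δ : ℝ) (hδ : 0 < δ) :
    ∃ (S : Finset G) (ε : ℝ), 0 < ε ∧ ∀ (B : Type) [CStarAlgebra B] [Nontrivial B]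
      (p : B) (ρ : G →* unitary B), star p = p → p * p = p →
      (∀ s ∈ S, ‖(ρ s : B) * p - p‖ < ε) →
      ∃ μ : G →* unitary B, (∀ g, (μ g : B) * p = p) ∧ ∀ g ∈ F, ‖(ρ g : B) - (μ g : B)‖ < δ := by
  classical
  by_contra hcon
  push Not at hcon
  obtain ⟨f, hf⟩ := exists_surjective_nat G
  have h1 : ∀ m : ℕ, ∃ (B : Type) (_ : CStarAlgebra B) (_ : Nontrivial B) (p : B)
      (ρ : G →* unitary B), star p = p ∧ p * p = p ∧
      (∀ s ∈ (Finset.range (m + 1)).image f, ‖(ρ s : B) * p - p‖ < 1 / ((m : ℝ) + 1)) ∧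
      ∀ μ : G →* unitary B, (∀ g, (μ g : B) * p = p) → ∃ g ∈ F, δ ≤ ‖(ρ g : B) - (μ g : B)‖ := by
    intro m
    obtain ⟨B, i1, i2, p, ρ, a1, a2, a3, a4⟩ := hcon ((Finset.range (m + 1)).image f)
      (1 / ((m : ℝ) + 1)) (by positivity)
    exact ⟨B, i1, i2, p, ρ, a1, a2, a3, a4⟩
  choose B i1 i2 p ρ a1 a2 a3 a4 using h1
  have h4 : ∀ g, Tendsto (fun m => ‖(ρ m g : B m) * p m - p m‖) atTop (𝓝 0) := by
    intro g
    obtain ⟨k, rfl⟩ := hf g
    refine squeeze_zero' (Eventually.of_forall fun m => norm_nonneg _) ?_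
      tendsto_one_div_add_atTop_nhds_zero_nat
    filter_upwards [eventually_ge_atTop k] with m hm
    exact (a3 m (f k) (Finset.mem_image_of_mem _ (Finset.mem_range.2 (by omega)))).le
  obtain ⟨μ, hμ, hμ'⟩ := compress_seq hG B p a1 a2 ρ h4
  have h5 : ∀ᶠ m in atTop, ∀ g ∈ F, ‖(ρ m g : B m) - (μ m g : B m)‖ < δ := by
    rw [Filter.eventually_all_finset]
    intro g _
    exact (hμ' g).eventually (gt_mem_nhds hδ)
  obtain ⟨m, hm⟩ := h5.exists
  obtain ⟨g, hg, h6⟩ := a4 m (μ m) (hμ m)
  exact absurd (hm g hg) (not_lt.2 h6)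

end Pool.Agent.LibCSF44
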