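import Pool.Agent.LibCS15.MainB
set_option autoImplicit false
namespace Pool.Agent.LibCSF44
open Topology Filter
open Pool.Agent.LibCS15

/-- the index contradiction: no commuting unitaries `π m x`, `π m y` -/
theorem contra_core {G : Type} [Group G] (H : Subgroup G) [H.Normal] [Fintype (G ⧸ H)] (x y : H)
    (b₁ b₂ : H → ℝ)
    (hb₁ : ∀ g h, b₁ (g * h) = b₁ g + b₁ h) (hb₂ : ∀ g h, b₂ (g * h) = b₂ g + b₂ h)
    (h1 : b₁ x = 1) (h2 : b₂ x = 0) (h3 : b₁ y = 0) (h4 : b₂ y = 1)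
    (ι : G ⧸ H → (E2 →L[ℂ] E2)) (S : E2 →L[ℂ] E2) (hι : IsFrame ι) (hS : star S * S = 1)
    (hS' : S * star S ≠ 1) (s₁ s₂ : ℝ)
    (hgen : ∀ a : G ⧸ H,
      (Real.sin ((b₁ (cnj H a x) * s₁ + b₂ (cnj H a x) * s₂) - s₁) ≠ 0 ∨
        Real.sin ((b₁ (cnj H a y) * s₁ + b₂ (cnj H a y) * s₂) - s₂) ≠ 0) ∨
      ((b₁ (cnj H a x) = 1 ∧ b₂ (cnj H a x) = 0) ∧ (b₁ (cnj H a y) = 0 ∧ b₂ (cnj H a y) = 1)))
    (v : ℕ → H → (E2 →L[ℂ] E2))
    (hvl : ∀ h, Tendsto (fun m => v m h) atTop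
        (𝓝 (Complex.exp (Complex.I * ((b₁ h * s₁ + b₂ h * s₂ : ℝ) : ℂ)) • (1 : E2 →L[ℂ] E2))))
    (hvS : ∀ x y, b₁ x = 1 → b₂ x = 0 → b₁ y = 0 → b₂ y = 1 →
        Tendsto (fun m : ℕ => ((m : ℂ) + 1) • (imp (Complex.exp (Complex.I * (s₁ : ℂ))) (v m x) +
          Complex.I • imp (Complex.exp (Complex.I * (s₂ : ℂ))) (v m y))) atTop (𝓝 S))
    (m₀ : ℕ) (π : ℕ → G →* unitary (E2 →L[ℂ] E2))
    (hπK : ∀ m, m₀ ≤ m → ∀ g, IsCompactOperator (((π m g : unitary (E2 →L[ℂ] E2)) : E2 →L[ℂ] E2) -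
      ind H ι (v m) g : E2 →L[ℂ] E2))
    (hcomm : ∀ᶠ m in atTop, π m (x : G) * π m (y : G) = π m (y : G) * π m (x : G)) : False := by
  classical
  have hI := isClosedIdeal_compact (E := E2)
  -- the unitaries
  set u₁ : ℂ := Complex.exp (Complex.I * (s₁ : ℂ)) with hu₁
  set u₂ : ℂ := Complex.exp (Complex.I * (s₂ : ℂ)) with hu₂
  set f : ℕ → G ⧸ H → (E2 →L[ℂ] E2) := fun m a =>
    imp u₁ (v m (cnj H a x)) + Complex.I • imp u₂ (v m (cnj H a y)) with hf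
  have hblk : ∀ m (h : H), ind H ι (v m) (h : G) = blk ι (fun a => v m (cnj H a h)) :=
    fun m h => ind_normal H ι (v m) h
  -- the blocks
  have hshift : ∀ a, (b₁ (cnj H a x) = 1 ∧ b₂ (cnj H a x) = 0) ∧
      (b₁ (cnj H a y) = 0 ∧ b₂ (cnj H a y) = 1) →
      ∀ᶠ m in atTop, ∃ c : ℂ, c ≠ 0 ∧ ‖c • f m a - S‖ < 1 := by
    intro a ha
    have e1 := hvS (cnj H a x) (cnj H a y) ha.1.1 ha.1.2 ha.2.1 ha.2.2
    have e2 := (Metric.tendsto_nhds.1 e1) 1 one_pos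
    filter_upwards [e2] with m hm
    refine ⟨(m : ℂ) + 1, ?_, ?_⟩
    · exact_mod_cast Nat.succ_ne_zero m
    · rw [← dist_eq_norm]; exact hm
  have hblocks : ∀ a, ∀ᶠ m in atTop,
      (IsUnit (f m a) ∨ ∃ c : ℂ, c ≠ 0 ∧ ‖c • f m a - S‖ < 1) := by
    intro a
    rcases (hgen a).symm with ha | ha
    · filter_upwards [hshift a ha] with m hm
      exact Or.inr hm
    · have e1 : Tendsto (fun m => f m a) atTop
          (𝓝 ((((Real.sin ((b₁ (cnj H a x) * s₁ + b₂ (cnj H a x) * s₂) - s₁) : ℝ) : ℂ) +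
            Complex.I * ((Real.sin ((b₁ (cnj H a y) * s₁ + b₂ (cnj H a y) * s₂) - s₂) : ℝ) : ℂ)) •
            (1 : E2 →L[ℂ] E2))) := by
        have e2 := ((continuous_imp u₁).tendsto _).comp (hvl (cnj H a x))
        have e3 := ((continuous_imp u₂).tendsto _).comp (hvl (cnj H a y))
        rw [imp_exp_smul_one] at e2 e3
        have e4 := e2.add (e3.const_smul Complex.I)
        rw [smul_smul, ← add_smul] at e4
        exact e4
      have e5 : (((Real.sin ((b₁ (cnj H a x) * s₁ + b₂ (cnj H a x) * s₂) - s₁) : ℝ) : ℂ) +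
            Complex.I * ((Real.sin ((b₁ (cnj H a y) * s₁ + b₂ (cnj H a y) * s₂) - s₂) : ℝ) : ℂ)) ≠ 0 := by
        intro h0
        have hre := congrArg Complex.re h0
        have him := congrArg Complex.im h0
        simp only [Complex.add_re, Complex.ofReal_re, Complex.mul_re, Complex.I_re, zero_mul,
          Complex.I_im, Complex.ofReal_im, mul_zero, sub_self, add_zero, Complex.zero_re,
          Complex.add_im, Complex.mul_im, one_mul, zero_add, Complex.zero_im] at hre him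
        rcases ha with ha | ha
        · exact ha hre
        · exact ha him
      filter_upwards [isOpen_unit_tendsto e5 e1] with m hm
      exact Or.inl hm
  have hbase := hshift ((1 : G) : G ⧸ H) ⟨⟨by rw [cnj_base H hb₁, h1], by rw [cnj_base H hb₂, h2]⟩,
    ⟨by rw [cnj_base H hb₁, h3], by rw [cnj_base H hb₂, h4]⟩⟩
  have hall : ∀ᶠ m in atTop, ∀ a, (IsUnit (f m a) ∨ ∃ c : ℂ, c ≠ 0 ∧ ‖c • f m a - S‖ < 1) :=
    Filter.eventually_all.2 hblocks
  obtain ⟨m, hm, hmb, hm0, hmc⟩ := (hall.and (hbase.and ((eventually_ge_atTop m₀).and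
    hcomm))).exists
  obtain ⟨V, W, hV, hW, hW', hVW⟩ := blk_factor hι hS hS' hm ((1 : G) : G ⧸ H) hmb
  have hρ : ∀ g : H, IsCompactOperator (((π m (g : G) : unitary (E2 →L[ℂ] E2)) : E2 →L[ℂ] E2) -
      blk ι (fun a => v m (cnj H a g)) : E2 →L[ℂ] E2) := by
    intro g
    rw [← hblk]
    exact hπK m hm0 _
  refine normal_contra hW hW' hV
    (K := imp u₁ (((π m (x : G) : unitary (E2 →L[ℂ] E2)) : E2 →L[ℂ] E2) - blk ι (fun a => v m (cnj H a x))) +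
      Complex.I • imp u₂ (((π m (y : G) : unitary (E2 →L[ℂ] E2)) : E2 →L[ℂ] E2) -
        blk ι (fun a => v m (cnj H a y))))
    (T := imp u₁ ((π m (x : G) : unitary (E2 →L[ℂ] E2)) : E2 →L[ℂ] E2) +
      Complex.I • imp u₂ ((π m (y : G) : unitary (E2 →L[ℂ] E2)) : E2 →L[ℂ] E2)) ?_ ?_
    (normal_imp u₁ u₂ _ _ hmc)
  · exact hI.add_mem _ (compact_imp (hρ _) _) _ (hI.smul_mem _ _ (compact_imp (hρ _) _))
  · rw [← hVW]
    have e1 : blk ι (f m) = imp u₁ (blk ι (fun a => v m (cnj H a x))) +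
        Complex.I • imp u₂ (blk ι (fun a => v m (cnj H a y))) := by
      rw [imp_blk, imp_blk, blk_smul hι, blk_add hι]
    rw [e1]
    have e2 := imp_add u₁ (blk ι (fun a => v m (cnj H a x)))
      (((π m (x : G) : unitary (E2 →L[ℂ] E2)) : E2 →L[ℂ] E2) - blk ι (fun a => v m (cnj H a x)))
    have e3 := imp_add u₂ (blk ι (fun a => v m (cnj H a y)))
      (((π m (y : G) : unitary (E2 →L[ℂ] E2)) : E2 →L[ℂ] E2) - blk ι (fun a => v m (cnj H a y)))
    rw [add_sub_cancel] at e2 e3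
    rw [e2, e3, smul_add]
    abel

end Pool.Agent.LibCSF44
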