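import Pool.Agent.LibCSF44.Seq
import Pool.Agent.LibCS15.Ind
set_option autoImplicit false
namespace Pool.Agent.LibCSF44
open Topology Filter
open Pool.Agent.LibCS15

variable {E : Type} [NormedAddCommGroup E] [InnerProductSpace ℂ E] [CompleteSpace E]
variable {n : Type} [Fintype n]

/-- constant sequences -/
noncomputable def cst (T : E →L[ℂ] E) : Sq E := BoundedContinuousFunction.const ℕ T

theorem cst_apply (T : E →L[ℂ] E) (m : ℕ) : cst T m = T := rfl

theorem isFrame_cst {ι : n → (E →L[ℂ] E)} (hι : IsFrame ι) : IsFrame (fun a => cst (ι a)) where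
  same a := by
    ext1 m
    exact hι.same a
  diff a b h := by
    ext1 m
    exact hι.diff a b h
  sum := by
    ext1 m
    have h1 : (∑ a, cst (ι a) * star (cst (ι a)) : Sq E) m = ∑ a, ι a * star (ι a) := by
      have h2 := map_sum (evalAt (D := E →L[ℂ] E) m) (fun a => cst (ι a) * star (cst (ι a)))
        Finset.univ
      exact h2
    rw [h1]
    exact hι.sum

theorem star_mul_blk {D : Type} [CStarAlgebra D] {ι : n → D} (hι : IsFrame ι) (g : n → D) (a : n) :
    star (ι a) * blk ι g = g a * star (ι a) := by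
  unfold blk
  rw [Finset.mul_sum, Finset.sum_eq_single a]
  · rw [← mul_assoc, ← mul_assoc, hι.same, one_mul]
  · intro b _ hb
    rw [← mul_assoc, ← mul_assoc, hι.diff a b (Ne.symm hb), zero_mul, zero_mul]
  · intro h
    exact absurd (Finset.mem_univ _) h

theorem blk_mul_iota {D : Type} [CStarAlgebra D] {ι : n → D} (hι : IsFrame ι) (g : n → D) (a : n) :
    blk ι g * ι a = ι a * g a := by
  unfold blk
  rw [Finset.sum_mul, Finset.sum_eq_single a]
  · rw [mul_assoc, hι.same, mul_one]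
  · intro b _ hb
    rw [mul_assoc, hι.diff b a hb, mul_zero]
  · intro h
    exact absurd (Finset.mem_univ _) h

/-- the projections of the induced algebra -/
noncomputable def bP (ι : n → (E →L[ℂ] E)) (P : ℕ → E →L[ℂ] E) (N : ℕ) : E →L[ℂ] E :=
  blk ι (fun _ => P N)

theorem emb_mem {ι : n → (E →L[ℂ] E)} (hι : IsFrame ι) {P : ℕ → E →L[ℂ] E} {f : Sq E}
    (hf : f ∈ strongAlg P) (a b : n) :
    cst (ι b) * f * star (cst (ι a)) ∈ strongAlg (bP ι P) := by
  have key : ∀ (T p : E →L[ℂ] E) (a b : n), T * p = p * T →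
      (ι b * T * star (ι a)) * blk ι (fun _ => p) = blk ι (fun _ => p) * (ι b * T * star (ι a)) := by
    intro T p a b h
    calc (ι b * T * star (ι a)) * blk ι (fun _ => p)
        = ι b * T * (star (ι a) * blk ι (fun _ => p)) := by rw [mul_assoc]
      _ = ι b * (T * p) * star (ι a) := by rw [star_mul_blk hι]; simp only [mul_assoc]
      _ = ι b * p * (T * star (ι a)) := by rw [h]; simp only [mul_assoc]
      _ = blk ι (fun _ => p) * (ι b * T * star (ι a)) := by
          rw [← blk_mul_iota hι (fun _ => p) b]; simp only [mul_assoc]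
  obtain ⟨h1, h2⟩ := mem_strongAlg.1 hf
  rw [mem_strongAlg]
  refine ⟨fun N => ⟨key _ _ a b (h1 N).1, ?_⟩, fun ξ => ⟨?_, ?_⟩⟩
  · have h3 := key _ _ b a (h1 N).2
    have h4 : star ((cst (ι b) * f * star (cst (ι a)) : Sq E) (N + 1)) =
        ι a * star (f (N + 1)) * star (ι b) := by
      show star (ι b * f (N + 1) * star (ι a)) = _
      rw [star_mul, star_mul, star_star, mul_assoc]
    rw [h4]
    exact h3
  · have h3 := ((ι b).continuous.tendsto _).comp (h2 ((star (ι a)) ξ)).1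
    exact h3
  · have h3 := ((ι a).continuous.tendsto _).comp (h2 ((star (ι b)) ξ)).2
    have h4 : ∀ m, star ((cst (ι b) * f * star (cst (ι a)) : Sq E) m) =
        ι a * star (f m) * star (ι b) := by
      intro m
      show star (ι b * f m * star (ι a)) = _
      rw [star_mul, star_mul, star_star, mul_assoc]
    simp only [h4]
    exact h3

/-- the corner embeddings -/
noncomputable def emb {ι : n → (E →L[ℂ] E)} (hι : IsFrame ι) (P : ℕ → E →L[ℂ] E) (a b : n)
    (f : strongAlg P) : strongAlg (bP ι P) :=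
  ⟨cst (ι b) * (f : Sq E) * star (cst (ι a)), emb_mem hι f.2 a b⟩

theorem emb_ideal {ι : n → (E →L[ℂ] E)} (hι : IsFrame ι) {P : ℕ → E →L[ℂ] E} (a b : n)
    {f : strongAlg P} (hf : f ∈ strongIdeal P) : emb hι P a b f ∈ strongIdeal (bP ι P) := by
  have hI := isClosedIdeal_compact (E := E)
  refine ⟨?_, ?_⟩
  · exact hI.mul_mem_right _ _ (hI.mul_mem_left _ _ hf.1)
  · have h1 := (hf.2.const_mul (ι b)).mul_const (star (ι a))
    rw [mul_zero, zero_mul] at h1
    refine h1.congr fun N => ?_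
    show ι b * ((f : Sq E) (N + 1) - (f : Sq E) 0) * star (ι a) =
      ι b * (f : Sq E) (N + 1) * star (ι a) - ι b * (f : Sq E) 0 * star (ι a)
    rw [mul_sub, sub_mul]

theorem emb_sub {ι : n → (E →L[ℂ] E)} (hι : IsFrame ι) (P : ℕ → E →L[ℂ] E) (a b : n)
    (f g : strongAlg P) : emb hι P a b (f - g) = emb hι P a b f - emb hι P a b g := by
  apply Subtype.ext
  show cst (ι b) * ((f : Sq E) - (g : Sq E)) * star (cst (ι a)) = _
  rw [mul_sub, sub_mul]
  rfl

theorem continuous_emb {ι : n → (E →L[ℂ] E)} (hι : IsFrame ι) (P : ℕ → E →L[ℂ] E) (a b : n) :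
    Continuous (emb hι P a b) := by
  refine Continuous.subtype_mk ?_ _
  exact (continuous_const.mul continuous_subtype_val).mul continuous_const

section ind
variable {G : Type} [Group G] (H : Subgroup G) [Fintype (G ⧸ H)]

/-- the induced function with values in the algebra -/
noncomputable def indA {ι : G ⧸ H → (E →L[ℂ] E)} (hι : IsFrame ι) (P : ℕ → E →L[ℂ] E)
    (v : H → strongAlg P) (g : G) : strongAlg (bP ι P) :=
  ∑ a : G ⧸ H, emb hι P a (g • a) (v (cocy H g a))

theorem coe_indA {ι : G ⧸ H → (E →L[ℂ] E)} (hι : IsFrame ι) (P : ℕ → E →L[ℂ] E)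
    (v : H → strongAlg P) (g : G) :
    ((indA H hι P v g : strongAlg (bP ι P)) : Sq E) =
      ind H (fun a => cst (ι a)) (fun h => ((v h : strongAlg P) : Sq E)) g := by
  unfold indA ind
  have h := map_sum ((strongAlg (bP ι P)).subtype)
    (fun a : G ⧸ H => emb hι P a (g • a) (v (cocy H g a))) Finset.univ
  exact h

theorem indA_apply {ι : G ⧸ H → (E →L[ℂ] E)} (hι : IsFrame ι) (P : ℕ → E →L[ℂ] E)
    (v : H → strongAlg P) (g : G) (m : ℕ) :
    ((indA H hι P v g : strongAlg (bP ι P)) : Sq E) m =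
      ind H ι (fun h => ((v h : strongAlg P) : Sq E) m) g := by
  rw [coe_indA]
  unfold ind
  have h := map_sum (evalAt (D := E →L[ℂ] E) m)
    (fun a : G ⧸ H => cst (ι (g • a)) * ((v (cocy H g a) : strongAlg P) : Sq E) *
      star (cst (ι a))) Finset.univ
  exact h

theorem indA_one {ι : G ⧸ H → (E →L[ℂ] E)} (hι : IsFrame ι) (P : ℕ → E →L[ℂ] E)
    {v : H → strongAlg P} (hv : v 1 = 1) : indA H hι P v 1 = 1 := by
  apply Subtype.ext
  rw [coe_indA]
  refine ind_one H (isFrame_cst hι) ?_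
  show ((v 1 : strongAlg P) : Sq E) = 1
  rw [hv]
  rfl

theorem indA_star {ι : G ⧸ H → (E →L[ℂ] E)} (hι : IsFrame ι) (P : ℕ → E →L[ℂ] E)
    {v : H → strongAlg P} (hv : ∀ h, v h⁻¹ = star (v h)) (g : G) :
    indA H hι P v g⁻¹ = star (indA H hι P v g) := by
  apply Subtype.ext
  show ((indA H hι P v g⁻¹ : strongAlg (bP ι P)) : Sq E) =
    star ((indA H hι P v g : strongAlg (bP ι P)) : Sq E)
  rw [coe_indA, coe_indA]
  refine ind_star H _ (fun h => ?_) g
  rw [hv]
  rfl

theorem indA_defect {ι : G ⧸ H → (E →L[ℂ] E)} (hι : IsFrame ι) (P : ℕ → E →L[ℂ] E)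
    (v : H → strongAlg P) (g h : G) :
    indA H hι P v (g * h) - indA H hι P v g * indA H hι P v h =
      ∑ a : G ⧸ H, emb hι P a (g • h • a) (v (cocy H g (h • a) * cocy H h a) -
        v (cocy H g (h • a)) * v (cocy H h a)) := by
  apply Subtype.ext
  have h1 := ind_defect H (isFrame_cst hι) (fun h => ((v h : strongAlg P) : Sq E)) g h
  rw [← coe_indA H hι, ← coe_indA H hι, ← coe_indA H hι] at h1
  have h2 := map_sum ((strongAlg (bP ι P)).subtype)
    (fun a : G ⧸ H => emb hι P a (g • h • a) (v (cocy H g (h • a) * cocy H h a) -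
        v (cocy H g (h • a)) * v (cocy H h a))) Finset.univ
  exact h1.trans h2.symm

theorem norm_indA_le {ι : G ⧸ H → (E →L[ℂ] E)} (hι : IsFrame ι) (P : ℕ → E →L[ℂ] E)
    {v : H → strongAlg P} (hb : ∀ h, ‖v h‖ ≤ 1) (g : G) :
    ‖indA H hι P v g‖ ≤ ∑ _a : G ⧸ H, (1 : ℝ) := by
  have hιn : ∀ a, ‖cst (ι a)‖ ≤ 1 := fun a =>
    norm_le_one_of_star_mul (D := Sq E) ((isFrame_cst hι).same a)
  refine (norm_sum_le _ _).trans (Finset.sum_le_sum fun a _ => ?_)
  have e1 : ‖star (cst (ι a))‖ ≤ 1 := by rw [norm_star]; exact hιn a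
  have hb' : ‖((v (cocy H g a) : strongAlg P) : Sq E)‖ ≤ 1 := hb _
  show ‖cst (ι (g • a)) * ((v (cocy H g a) : strongAlg P) : Sq E) * star (cst (ι a))‖ ≤ 1
  calc ‖cst (ι (g • a)) * ((v (cocy H g a) : strongAlg P) : Sq E) * star (cst (ι a))‖
      ≤ ‖cst (ι (g • a))‖ * ‖((v (cocy H g a) : strongAlg P) : Sq E)‖ * ‖star (cst (ι a))‖ :=
        norm_mul₃_le
    _ ≤ 1 * 1 * 1 := by
        gcongr
        exact hιn _
    _ = 1 := by norm_num

end ind

end Pool.Agent.LibCSF44
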