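import Pool.Agent.LibCS15.Toeplitz
set_option autoImplicit false
namespace Pool.Agent.LibCSF44
open Topology Filter
open Pool.Agent.LibCS15

/-- `toeplitz_family` in an arbitrary `C*`-algebra, for an element which is normal modulo the ideal -/
theorem toeplitz_family_gen {D : Type} [CStarAlgebra D] {K : Set D} (hK : IsClosedIdeal K) {S : D}
    (hS : star S * S - S * star S ∈ K) {H : Type} [Group H]
    (b₁ b₂ : H → ℝ) (hb₁ : ∀ g h, b₁ (g * h) = b₁ g + b₁ h)
    (hb₂ : ∀ g h, b₂ (g * h) = b₂ g + b₂ h) (s₁ s₂ : ℝ) :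
    ∃ v : ℕ → H → D,
      (∀ m h, star (v m h) * v m h = 1 ∧ v m h * star (v m h) = 1) ∧
      (∀ m h, b₁ h = 0 → b₂ h = 0 → v m h = 1) ∧ (∀ m h, v m h⁻¹ = star (v m h)) ∧
      (∀ m g h, v m (g * h) - v m g * v m h ∈ K) ∧
      (∀ h, Tendsto (fun m => v m h) atTop
        (𝓝 (Complex.exp (Complex.I * ((b₁ h * s₁ + b₂ h * s₂ : ℝ) : ℂ)) • (1 : D)))) ∧
      (∀ x y, b₁ x = 1 → b₂ x = 0 → b₁ y = 0 → b₂ y = 1 →
        Tendsto (fun m : ℕ => ((m : ℂ) + 1) • (imp (Complex.exp (Complex.I * (s₁ : ℂ))) (v m x) +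
          Complex.I • imp (Complex.exp (Complex.I * (s₂ : ℂ))) (v m y))) atTop (𝓝 S)) := by
  set A : D := (1 / 2 : ℂ) • (S + star S) with hAdef
  set B : D := (1 / (2 * Complex.I) : ℂ) • (S - star S) with hBdef
  have hA : star A = A := by
    rw [hAdef, star_smul, star_add, star_star]
    have h1 : star (1 / 2 : ℂ) = 1 / 2 := by simp
    rw [h1, add_comm]
  have hB : star B = B := by
    rw [hBdef, star_smul, star_sub, star_star]
    have h1 : star (1 / (2 * Complex.I) : ℂ) = -(1 / (2 * Complex.I)) := by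
      simp
    rw [h1, neg_smul, ← smul_neg, neg_sub]
  have hsum : A + Complex.I • B = S := by
    rw [hAdef, hBdef, smul_smul]
    have h1 : Complex.I * (1 / (2 * Complex.I)) = (1 / 2 : ℂ) := by
      field_simp
    rw [h1, ← smul_add]
    have h2 : S + star S + (S - star S) = (2 : ℂ) • S := by
      rw [two_smul]; abel
    rw [h2, smul_smul]
    norm_num
  have hAB : A * B - B * A = ((1 / (2 * Complex.I)) : ℂ) • (star S * S - S * star S) := by
    rw [hAdef, hBdef]
    simp only [smul_mul_smul_comm]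
    have h1 : (1 / (2 * Complex.I) * (1 / 2) : ℂ) = 1 / 2 * (1 / (2 * Complex.I)) := by ring
    rw [h1, ← smul_sub]
    have h2 : (S + star S) * (S - star S) - (S - star S) * (S + star S)
        = (2 : ℂ) • (star S * S - S * star S) := by
      rw [two_smul]
      noncomm_ring
    rw [h2, smul_smul]
    congr 1
    ring
  have hmem : A * B - B * A ∈ K := by
    rw [hAB]
    exact hK.smul_mem _ _ hS
  obtain ⟨v, h1, h2, h3, h4, h5, h6, h7⟩ := exp_family hK hA hB hmem b₁ b₂ hb₁ hb₂ s₁ s₂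
  refine ⟨v, h1, h2, h3, h4, h5, ?_⟩
  intro x y hx1 hx2 hy1 hy2
  have hx := h6 x hx1 hx2
  have hy := h7 y hy1 hy2
  have t1 := imp_exp_tendsto hA s₁
  have t2 := (imp_exp_tendsto hB s₂).const_smul Complex.I
  have t3 := t1.add t2
  rw [hsum] at t3
  refine t3.congr (fun m => ?_)
  rw [hx m, hy m, smul_add, smul_comm Complex.I]

end Pool.Agent.LibCSF44
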