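import Pool.Agent.LibCSF44.Graph
set_option autoImplicit false
namespace Pool.Agent.LibCSF44

/-- unitary representations -/
structure IsUnitaryRep {P E : Type} [Group P] [NormedAddCommGroup E] [InnerProductSpace ℂ E]
    (ρ : P → E → E) : Prop where
  one : ∀ x, ρ 1 x = x
  mul : ∀ g h x, ρ (g * h) x = ρ g (ρ h x)
  add : ∀ g x y, ρ g (x + y) = ρ g x + ρ g y
  smul : ∀ g (c : ℂ) x, ρ g (c • x) = c • ρ g x
  norm : ∀ g x, ‖ρ g x‖ = ‖x‖

/-- Kazhdan's property (T) -/
def KazhdanT (P : Type) [Group P] : Prop :=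
  ∃ (S : Finset P) (κ : ℝ), 0 < κ ∧ ∀ (E : Type) [NormedAddCommGroup E] [InnerProductSpace ℂ E]
    [CompleteSpace E] (ρ : P → E → E), IsUnitaryRep ρ → ∀ ξ : E, ‖ξ‖ = 1 →
    (∀ s ∈ S, ‖ρ s ξ - ξ‖ < κ) → ∃ η : E, η ≠ 0 ∧ ∀ g, ρ g η = η

/-- unitary representations in a `C*`-algebra -/
structure IsUnitaryHom {G D : Type} [Group G] [CStarAlgebra D] (u : G → D) : Prop where
  one : u 1 = 1
  mul : ∀ g h, u (g * h) = u g * u h
  star : ∀ g, star (u g) = u g⁻¹

/-- bounded traces -/
def IsTrace {D : Type} [CStarAlgebra D] (τ : D → ℂ) : Prop :=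
  Continuous τ ∧ (∀ x y, τ (x + y) = τ x + τ y) ∧ (∀ (c : ℂ) (x : D), τ (c • x) = c * τ x) ∧
    ∀ x y, τ (x * y) = τ (y * x)

/-- every finitely generated subgroup `P` of `G` with finite abelianization is contained in the normal closure of `⟨⟨P⟩⟩ ∩ H` -/
def ControlsFiniteAb {G : Type} [Group G] (H : Subgroup G) : Prop :=
  ∀ P : Subgroup G, P.FG → Finite (Abelianization P) →
    P ≤ Subgroup.normalClosure ((Subgroup.normalClosure (P : Set G) ⊓ H : Subgroup G) : Set G)

/-- for every subgroup `P` of `G` with property (T) there is `g` such that `P ∩ g H g⁻¹` has finite index in `P` -/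
def ControlsKazhdan {G : Type} [Group G] (H : Subgroup G) : Prop :=
  ∀ P : Subgroup G, KazhdanT P → ∃ g : G, (H.map (MulAut.conj g).toMonoidHom).relIndex P ≠ 0

/-- bounded traces of elements of finite order in unitary representations of `G` in `C*`-algebras depend only on the restriction of the representation to `H` -/
def ControlsTraces {G : Type} [Group G] (H : Subgroup G) : Prop :=
  ∀ (D : Type) [CStarAlgebra D] (β μ : G → D), IsUnitaryHom β → IsUnitaryHom μ →
    (∀ g ∈ H, β g = μ g) → ∀ τ : D → ℂ, IsTrace τ → ∀ a : G, IsOfFinOrder a → τ (β a) = τ (μ a)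

/-- the subgroups `K i` are finitely generated, they generate `G`, and for every finite set `S` of indices there is an endomorphism of `G` which is the
identity on `K i` for `i ∈ S` and trivial on `K i` for `i ∉ S` -/
def ProductLike {G : Type} [Group G] {ι : Type} (K : ι → Subgroup G) : Prop :=
  (∀ i, (K i).FG) ∧ ⨆ i, K i = ⊤ ∧
    ∀ S : Finset ι, ∃ r : G →* G, (∀ i ∈ S, ∀ x ∈ K i, r x = x) ∧ ∀ i, i ∉ S → ∀ x ∈ K i, r x = 1

theorem propertyT_of_kazhdanT {P : Type} [Group P] (h : KazhdanT P) : PropertyT P := by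
  obtain ⟨S, κ, hκ, hS⟩ := h
  refine ⟨S, κ, hκ, ?_⟩
  intro E _ _ _ ρ ξ hξ hs
  refine hS E (fun g x => (ρ g : E →L[ℂ] E) x) ⟨fun x => ?_, fun g h x => ?_, fun g x y => ?_,
    fun g c x => ?_, fun g x => ?_⟩ ξ hξ hs
  · simp
  · simp
  · exact map_add _ _ _
  · exact map_smul _ _ _
  · exact (Unitary.linearIsometryEquiv (ρ g)).norm_map x

/-- a unitary representation in a `C*`-algebra as a homomorphism -/
def toHom {G D : Type} [Group G] [CStarAlgebra D] (u : G → D) (hu : IsUnitaryHom u) :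
    G →* unitary D where
  toFun g := ⟨u g, by
    rw [Unitary.mem_iff, hu.star, ← hu.mul, ← hu.mul, inv_mul_cancel, mul_inv_cancel, hu.one]
    exact ⟨rfl, rfl⟩⟩
  map_one' := Subtype.ext hu.one
  map_mul' g h := Subtype.ext (hu.mul g h)

theorem controlsTraces_of {G : Type} [Group G] {H : Subgroup G}
    (h : ∀ (D : Type) [CStarAlgebra D] (τ : D →L[ℂ] ℂ), (∀ x y, τ (x * y) = τ (y * x)) →
        ∀ β μ : G →* unitary D, (∀ g ∈ H, β g = μ g) → ∀ a : G, IsOfFinOrder a →
          τ (β a) = τ (μ a)) : ControlsTraces H := by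
  intro D _ β μ hβ hμ hβμ τ hτ a ha
  obtain ⟨h1, h2, h3, h4⟩ := hτ
  let T : D →L[ℂ] ℂ :=
    { toFun := τ
      map_add' := h2
      map_smul' := fun c x => by rw [h3]; rfl
      cont := h1 }
  exact h D T h4 (toHom β hβ) (toHom μ hμ) (fun g hg => Subtype.ext (hβμ g hg)) a ha

end Pool.Agent.LibCSF44
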