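import Pool.Agent.LibCSF44.NormalGen
import Pool.Agent.LibCSF44.Compress
set_option autoImplicit false
namespace Pool.Agent.LibCSF44
open Topology Filter
open Pool.Agent.LibCS15 (CStarStable)

/-- Kazhdan's property (T) -/
def PropertyT (P : Type) [Group P] : Prop :=
  ∃ (S : Finset P) (κ : ℝ), 0 < κ ∧ ∀ (E : Type) [NormedAddCommGroup E] [InnerProductSpace ℂ E]
    [CompleteSpace E] (ρ : P →* unitary (E →L[ℂ] E)) (ξ : E), ‖ξ‖ = 1 →
    (∀ s ∈ S, ‖(ρ s : E →L[ℂ] E) ξ - ξ‖ < κ) →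
    ∃ η : E, η ≠ 0 ∧ ∀ g, (ρ g : E →L[ℂ] E) η = η

section
variable {G E : Type} [Group G] [NormedAddCommGroup E] [InnerProductSpace ℂ E] [CompleteSpace E]

/-- the existence of nonzero vectors fixed by a subgroup with property (T) is invariant along paths of representations -/
theorem fixed_path (R : G →* unitary C(unitInterval, E →L[ℂ] E)) (P : Subgroup G)
    (hP : PropertyT P)
    (h1 : ∃ η : E, η ≠ 0 ∧ ∀ g ∈ P, (evPath R 1 g : E →L[ℂ] E) η = η) :
    ∃ η : E, η ≠ 0 ∧ ∀ g ∈ P, (evPath R 0 g : E →L[ℂ] E) η = η := by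
  obtain ⟨S, κ, hκ, hS⟩ := hP
  let T : Set unitInterval := {t | ∃ η : E, η ≠ 0 ∧ ∀ g ∈ P, (evPath R t g : E →L[ℂ] E) η = η}
  let V : unitInterval → Set unitInterval := fun t =>
    {s | ∀ g ∈ S, ‖(evPath R s (g : G) : E →L[ℂ] E) - (evPath R t (g : G) : E →L[ℂ] E)‖ < κ}
  have hVo : ∀ t, IsOpen (V t) := by
    intro t
    have e1 : V t = ⋂ g ∈ S, {s | ‖(evPath R s (g : G) : E →L[ℂ] E) -
        (evPath R t (g : G) : E →L[ℂ] E)‖ < κ} := by
      ext s
      simp [V]
    rw [e1]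
    exact isOpen_biInter_finset fun g _ =>
      isOpen_lt ((continuous_evPath R _).sub continuous_const).norm continuous_const
  have hVm : ∀ t, t ∈ V t := fun t g _ => by
    rw [sub_self, norm_zero]
    exact hκ
  have hVs : ∀ s t, s ∈ V t → t ∈ V s := fun s t h g hg => by
    rw [norm_sub_rev]
    exact h g hg
  have key : ∀ s t, t ∈ T → s ∈ V t → s ∈ T := by
    rintro s t ⟨η, hη, hfix⟩ hst
    set ξ : E := ((‖η‖⁻¹ : ℝ) : ℂ) • η with hξ
    have hn : ‖ξ‖ = 1 := by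
      rw [hξ, norm_smul, Complex.norm_real, norm_inv, norm_norm,
        inv_mul_cancel₀ (norm_ne_zero_iff.2 hη)]
    have hfix' : ∀ g ∈ P, (evPath R t g : E →L[ℂ] E) ξ = ξ := by
      intro g hg
      rw [hξ, map_smul, hfix g hg]
    obtain ⟨ζ, hζ, hζ'⟩ := hS E ((evPath R s).comp P.subtype) ξ hn (by
      intro g hg
      show ‖(evPath R s (g : G) : E →L[ℂ] E) ξ - ξ‖ < κ
      have e1 : (evPath R s (g : G) : E →L[ℂ] E) ξ - ξ =
          ((evPath R s (g : G) : E →L[ℂ] E) - (evPath R t (g : G) : E →L[ℂ] E)) ξ := by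
        rw [ContinuousLinearMap.sub_apply, hfix' g g.2]
      rw [e1]
      refine lt_of_le_of_lt (ContinuousLinearMap.le_opNorm _ _) ?_
      rw [hn, mul_one]
      exact hst g hg)
    exact ⟨ζ, hζ, fun g hg => hζ' ⟨g, hg⟩⟩
  have hopen : IsOpen T := by
    rw [isOpen_iff_mem_nhds]
    intro t ht
    exact Filter.mem_of_superset ((hVo t).mem_nhds (hVm t)) fun s hs => key s t ht hs
  have hclosed : IsClosed T := by
    rw [← isOpen_compl_iff, isOpen_iff_mem_nhds]
    intro t ht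
    refine Filter.mem_of_superset ((hVo t).mem_nhds (hVm t)) fun s hs hsT => ht ?_
    exact key t s hsT (hVs s t hs)
  have huniv : T = Set.univ := IsClopen.eq_univ ⟨hclosed, hopen⟩ ⟨1, h1⟩
  have h0 : (0 : unitInterval) ∈ T := by
    rw [huniv]
    trivial
  exact h0

/-- the orthogonal projection onto the line spanned by a unit vector -/
noncomputable def lineProj (ξ : E) : E →L[ℂ] E := (innerSL ℂ ξ).smulRight ξ

theorem lineProj_apply (ξ x : E) : lineProj ξ x = (inner ℂ ξ x : ℂ) • ξ := rfl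

theorem lineProj_self {ξ : E} (hξ : ‖ξ‖ = 1) : lineProj ξ ξ = ξ := by
  rw [lineProj_apply, inner_self_eq_norm_sq_to_K, hξ]
  simp

theorem star_lineProj (ξ : E) : star (lineProj ξ) = lineProj ξ := by
  rw [ContinuousLinearMap.star_eq_adjoint]
  refine (ContinuousLinearMap.eq_adjoint_iff _ _).2 (fun x y => ?_) |>.symm
  rw [lineProj_apply, lineProj_apply, inner_smul_left, inner_smul_right, inner_conj_symm]
  ring

theorem lineProj_mul {ξ : E} (hξ : ‖ξ‖ = 1) : lineProj ξ * lineProj ξ = lineProj ξ := by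
  ext x
  show lineProj ξ (lineProj ξ x) = lineProj ξ x
  rw [lineProj_apply ξ x, map_smul, lineProj_self hξ]

theorem norm_mul_lineProj {ξ : E} (hξ : ‖ξ‖ = 1) (T : E →L[ℂ] E) :
    ‖T * lineProj ξ - lineProj ξ‖ ≤ ‖T ξ - ξ‖ := by
  refine ContinuousLinearMap.opNorm_le_bound _ (norm_nonneg _) fun x => ?_
  have e1 : (T * lineProj ξ - lineProj ξ) x = (inner ℂ ξ x : ℂ) • (T ξ - ξ) := by
    show T (lineProj ξ x) - lineProj ξ x = _
    rw [lineProj_apply, map_smul, smul_sub]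
  rw [e1, norm_smul, mul_comm]
  refine mul_le_mul_of_nonneg_left ?_ (norm_nonneg _)
  have := norm_inner_le_norm (𝕜 := ℂ) ξ x
  rwa [hξ, one_mul] at this

end

/-- **Uniform gap**: for a `C*`-stable group `G` almost invariant vectors of unitary representations of `G` produce vectors fixed by any given subgroup with
property (T), and the finite set and the constant do not depend on the subgroup -/
theorem gapT {G : Type} [Group G] [Countable G] (hG : CStarStable G) :
    ∃ (S : Finset G) (ε : ℝ), 0 < ε ∧ ∀ (E : Type) [NormedAddCommGroup E] [InnerProductSpace ℂ E]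
      [CompleteSpace E] (ρ : G →* unitary (E →L[ℂ] E)) (ξ : E), ‖ξ‖ = 1 →
      (∀ s ∈ S, ‖(ρ s : E →L[ℂ] E) ξ - ξ‖ < ε) → ∀ P : Subgroup G, PropertyT P →
      ∃ η : E, η ≠ 0 ∧ ∀ g ∈ P, (ρ g : E →L[ℂ] E) η = η := by
  obtain ⟨F, δ, hδ, hF⟩ := uniform_path hG ∅ 1 one_pos
  obtain ⟨S, ε, hε, hS⟩ := uniform_compress hG F δ hδ
  refine ⟨S, ε, hε, ?_⟩
  intro E _ _ _ ρ ξ hξ hinv P hP
  have hnt : Nontrivial E := ⟨ξ, 0, fun h => by rw [h, norm_zero] at hξ; exact zero_ne_one hξ⟩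
  obtain ⟨μ, hμ, hμ'⟩ := hS (E →L[ℂ] E) (lineProj ξ) ρ (star_lineProj ξ) (lineProj_mul hξ)
    (fun s hs => lt_of_le_of_lt (norm_mul_lineProj hξ _) (hinv s hs))
  obtain ⟨R, hR, -⟩ := hF (E →L[ℂ] E) ρ μ hμ'
  have hfix : ∀ g, (μ g : E →L[ℂ] E) ξ = ξ := by
    intro g
    have h1 := congrArg (fun T : E →L[ℂ] E => T ξ) (hμ g)
    have h2 : (μ g : E →L[ℂ] E) (lineProj ξ ξ) = lineProj ξ ξ := h1
    rwa [lineProj_self hξ] at h2
  obtain ⟨η, hη, hη'⟩ := fixed_path R P hP ⟨ξ, by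
    intro h
    rw [h, norm_zero] at hξ
    exact zero_ne_one hξ, fun g _ => by
      rw [evPath_apply, (hR g).2]
      exact hfix g⟩
  refine ⟨η, hη, fun g hg => ?_⟩
  have h3 := hη' g hg
  rwa [evPath_apply, (hR g).1] at h3

/-- a subgroup fixing a nonzero vector of `ℓ²(G / H)` is virtually conjugate into `H` -/
theorem conj_of_fixed {G : Type} [Group G] (H P : Subgroup G)
    (h : ∃ η : lp (fun _ : G ⧸ H => ℂ) 2, η ≠ 0 ∧ ∀ g ∈ P,
      (permRep G (G ⧸ H) g : lp (fun _ : G ⧸ H => ℂ) 2 →L[ℂ] lp (fun _ : G ⧸ H => ℂ) 2) η = η) :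
    ∃ g : G, (H.map (MulAut.conj g).toMonoidHom).relIndex P ≠ 0 := by
  obtain ⟨η, hη, hfix⟩ := h
  have hex : ∃ x, η x ≠ 0 := by
    by_contra hcon
    push Not at hcon
    apply hη
    ext x
    rw [hcon x]
    rfl
  obtain ⟨x, hx⟩ := hex
  have hconst : ∀ y ∈ MulAction.orbit P x, η y = η x := by
    rintro _ ⟨g, rfl⟩
    have h1 := hfix (g : G) g.2
    have h2 := congrArg (fun f : lp (fun _ : G ⧸ H => ℂ) 2 => f ((g : G) • x)) h1
    simp only [permRep_apply, inv_smul_smul] at h2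
    exact h2.symm
  have hfin : (MulAction.orbit P x).Finite := by
    have h1 := (memℓp_gen_iff (p := 2) (by norm_num)).1 (lp.memℓp η)
    have h2 := h1.tendsto_cofinite_zero
    have hpos : 0 < ‖η x‖ ^ (2 : ENNReal).toReal := by
      have := norm_pos_iff.2 hx
      positivity
    have h3 := h2.eventually (gt_mem_nhds hpos)
    rw [Filter.eventually_cofinite] at h3
    refine h3.subset fun y hy => ?_
    rw [Set.mem_setOf_eq, hconst y hy]
    exact lt_irrefl _
  obtain ⟨g, rfl⟩ := QuotientGroup.mk_surjective x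
  refine ⟨g, ?_⟩
  have hst : MulAction.stabilizer G (g : G ⧸ H) = H.map (MulAut.conj g).toMonoidHom := by
    have h1 := MulAction.stabilizer_smul_eq_stabilizer_map_conj g (((1 : G) : G ⧸ H))
    rw [MulAction.stabilizer_quotient] at h1
    rw [← h1]
    congr 1
    show ((g : G) : G ⧸ H) = ((g * 1 : G) : G ⧸ H)
    rw [mul_one]
  rw [← hst]
  have e2 : (MulAction.stabilizer G (g : G ⧸ H)).subgroupOf P =
      MulAction.stabilizer P (g : G ⧸ H) := by
    ext k
    rfl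
  rw [Subgroup.relIndex, e2, MulAction.index_stabilizer]
  have : Finite (MulAction.orbit P (g : G ⧸ H)) := hfin
  have hne : Nonempty (MulAction.orbit P (g : G ⧸ H)) := ⟨⟨_, MulAction.mem_orbit_self _⟩⟩
  rw [Set.ncard]
  exact (Nat.card_pos).ne'

end Pool.Agent.LibCSF44
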