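import Pool.Agent.LibCSF44.NormalGen
set_option autoImplicit false
namespace Pool.Agent.LibCSF44
open Topology Filter

/-- close unitaries of the same finite order have the same trace -/
theorem trace_eq_of_near {D : Type} [CStarAlgebra D] (τ : D →L[ℂ] ℂ)
    (hτ : ∀ x y, τ (x * y) = τ (y * x)) {n : ℕ} (hn : 0 < n) (x y : unitary D) (hx : x ^ n = 1)
    (hy : y ^ n = 1) (hxy : ‖(x : D) - (y : D)‖ < 1 / n) : τ x = τ y := by
  rcases subsingleton_or_nontrivial D with hD | hD
  · rw [Subsingleton.elim (x : D) (y : D)]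
  have hnC : ((n : ℝ) : ℂ) ≠ 0 := by exact_mod_cast hn.ne'
  let f : ℕ → D := fun i => ((x ^ i * (y ^ i)⁻¹ : unitary D) : D)
  have hf0 : f 0 = 1 := by
    show ((x ^ 0 * (y ^ 0)⁻¹ : unitary D) : D) = 1
    simp
  have hfn : f n = 1 := by
    show ((x ^ n * (y ^ n)⁻¹ : unitary D) : D) = 1
    rw [hx, hy]
    simp
  have hstep : ∀ i, (x : D) * f i = f (i + 1) * (y : D) := by
    intro i
    have h1 : x * (x ^ i * (y ^ i)⁻¹) = (x ^ (i + 1) * (y ^ (i + 1))⁻¹) * y := by
      rw [pow_succ' x, pow_succ y]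
      group
    exact congrArg Subtype.val h1
  have hnear : ∀ i, ‖f i - 1‖ ≤ i * ‖(x : D) - (y : D)‖ := by
    intro i
    induction i with
    | zero => rw [hf0]; simp
    | succ i ih =>
      have h1 : f (i + 1) = ((x : D) * f i) * (y⁻¹ : unitary D) := by
        rw [hstep, mul_assoc]
        have : (y : D) * ((y⁻¹ : unitary D) : D) = 1 :=
          congrArg Subtype.val (mul_inv_cancel y)
        rw [this, mul_one]
      have h2 : f (i + 1) - 1 = (x : D) * (f i - 1) * (y⁻¹ : unitary D) +
          ((x : D) - (y : D)) * (y⁻¹ : unitary D) := by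
        have : (y : D) * ((y⁻¹ : unitary D) : D) = 1 :=
          congrArg Subtype.val (mul_inv_cancel y)
        rw [h1, sub_mul, this]
        noncomm_ring
      rw [h2]
      refine (norm_add_le _ _).trans ?_
      have h3 : ‖(x : D) * (f i - 1) * ((y⁻¹ : unitary D) : D)‖ ≤ ‖f i - 1‖ := by
        rw [CStarRing.norm_mul_coe_unitary, CStarRing.norm_coe_unitary_mul]
      have h4 : ‖((x : D) - (y : D)) * ((y⁻¹ : unitary D) : D)‖ ≤ ‖(x : D) - (y : D)‖ := by
        rw [CStarRing.norm_mul_coe_unitary]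
      push_cast
      linarith
  set s : D := ((n : ℝ) : ℂ)⁻¹ • ∑ i ∈ Finset.range n, f i with hs
  have hcyc : ∑ i ∈ Finset.range n, f (i + 1) = ∑ i ∈ Finset.range n, f i := by
    have h1 := Finset.sum_range_succ' f n
    have h2 := Finset.sum_range_succ f n
    rw [h2, hf0, hfn] at h1
    exact (add_right_cancel h1).symm
  have hint : (x : D) * s = s * (y : D) := by
    rw [hs, mul_smul_comm, smul_mul_assoc, Finset.mul_sum, Finset.sum_mul]
    congr 1
    rw [Finset.sum_congr rfl fun i _ => hstep i, ← Finset.sum_mul, ← Finset.sum_mul, hcyc]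
  have hsn : ‖s - 1‖ < 1 := by
    have h1 : s - 1 = ((n : ℝ) : ℂ)⁻¹ • ∑ i ∈ Finset.range n, (f i - 1) := by
      rw [Finset.sum_sub_distrib, smul_sub, ← hs, Finset.sum_const, Finset.card_range]
      congr 1
      rw [← Nat.cast_smul_eq_nsmul ℂ, smul_smul, Complex.ofReal_natCast,
        inv_mul_cancel₀ (by exact_mod_cast hn.ne'), one_smul]
    rw [h1, norm_smul, norm_inv, Complex.norm_real, Real.norm_natCast]
    have h2 : ‖∑ i ∈ Finset.range n, (f i - 1)‖ ≤ n * (n * ‖(x : D) - (y : D)‖) := by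
      refine (norm_sum_le _ _).trans ?_
      refine (Finset.sum_le_card_nsmul _ _ (n * ‖(x : D) - (y : D)‖) fun i hi => ?_).trans ?_
      · refine (hnear i).trans (mul_le_mul_of_nonneg_right ?_ (norm_nonneg _))
        exact_mod_cast (Finset.mem_range.1 hi).le
      · rw [Finset.card_range, nsmul_eq_mul]
    have hnpos : (0 : ℝ) < n := by exact_mod_cast hn
    have h3 : (n : ℝ) * ‖(x : D) - (y : D)‖ < 1 := by
      have := (lt_div_iff₀ hnpos).1 hxy
      linarith
    calc (n : ℝ)⁻¹ * ‖∑ i ∈ Finset.range n, (f i - 1)‖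
        ≤ (n : ℝ)⁻¹ * (n * (n * ‖(x : D) - (y : D)‖)) :=
          mul_le_mul_of_nonneg_left h2 (by positivity)
      _ = n * ‖(x : D) - (y : D)‖ := by field_simp
      _ < 1 := h3
  have hunit : IsUnit s := by
    have h1 : ‖1 - s‖ < 1 := by rwa [norm_sub_rev]
    have h2 := (Units.oneSub (1 - s) h1).isUnit
    have h3 : ((Units.oneSub (1 - s) h1 : Dˣ) : D) = s := by
      show 1 - (1 - s) = s
      abel
    rwa [h3] at h2
  obtain ⟨v, hv⟩ := hunit
  have h5 : (x : D) = s * ((y : D) * (v⁻¹ : Dˣ)) := by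
    rw [← mul_assoc, ← hint, mul_assoc, ← hv, Units.mul_inv, mul_one]
  have h6 : (y : D) * ((v⁻¹ : Dˣ) : D) * s = y := by
    rw [mul_assoc, ← hv, Units.inv_mul, mul_one]
  rw [h5, hτ, h6]

/-- the trace of an element of finite order is constant along paths of representations -/
theorem trace_path {G D : Type} [Group G] [CStarAlgebra D] (τ : D →L[ℂ] ℂ)
    (hτ : ∀ x y, τ (x * y) = τ (y * x)) (R : G →* unitary C(unitInterval, D)) (a : G)
    (ha : IsOfFinOrder a) : τ (evPath R 0 a) = τ (evPath R 1 a) := by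
  obtain ⟨n, hn, han⟩ := isOfFinOrder_iff_pow_eq_one.1 ha
  have hpow : ∀ t, (evPath R t a) ^ n = 1 := fun t => by rw [← map_pow, han, map_one]
  have hn' : (0 : ℝ) < 1 / n := by
    have : (0 : ℝ) < n := by exact_mod_cast hn
    positivity
  have hcont : Continuous fun t => (evPath R t a : D) := continuous_evPath R a
  have hclopen : IsClopen {t : unitInterval | τ (evPath R t a) = τ (evPath R 0 a)} := by
    constructor
    · exact isClosed_eq (τ.continuous.comp hcont) continuous_const
    · rw [isOpen_iff_mem_nhds]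
      intro t ht
      have h1 : {s : unitInterval | ‖(evPath R s a : D) - (evPath R t a : D)‖ < 1 / n} ∈ 𝓝 t := by
        refine IsOpen.mem_nhds (isOpen_lt (hcont.sub continuous_const).norm continuous_const) ?_
        rw [Set.mem_setOf_eq, sub_self, norm_zero]
        exact hn'
      refine Filter.mem_of_superset h1 fun s hs => ?_
      have h2 := trace_eq_of_near τ hτ hn (evPath R s a) (evPath R t a) (hpow s) (hpow t) hs
      show τ (evPath R s a) = τ (evPath R 0 a)
      rw [h2]
      exact ht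
  have huniv := hclopen.eq_univ ⟨0, rfl⟩
  have h1 : (1 : unitInterval) ∈
      {t : unitInterval | τ (evPath R t a) = τ (evPath R 0 a)} := by
    rw [huniv]
    trivial
  exact Eq.symm h1

end Pool.Agent.LibCSF44
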