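import Pool.Agent.LibCSF44.NormalGen2
import Pool.Agent.LibCSF44.Abel2
import Pool.Agent.LibCSF44.Kazhdan
import Pool.Agent.LibCSF44.TraceT
set_option autoImplicit false
namespace Pool.Agent.LibCSF44
open Topology Filter
open Pool.Agent.LibCS15 (CStarStable)

theorem fin_gen {G : Type} [Group G] [Countable G] (hG : CStarStable G) :
    ∃ H : Subgroup G, H.FG ∧ H ⊔ commutator G = ⊤ ∧
      (∀ P : Subgroup G, P.FG → Finite (Abelianization P) →
        P ≤ Subgroup.normalClosure
          ((Subgroup.normalClosure (P : Set G) ⊓ H : Subgroup G) : Set G)) ∧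
      (∀ P : Subgroup G, PropertyT P →
        ∃ g : G, (H.map (MulAut.conj g).toMonoidHom).relIndex P ≠ 0) ∧
      (∀ (D : Type) [CStarAlgebra D] (τ : D →L[ℂ] ℂ), (∀ x y, τ (x * y) = τ (y * x)) →
        ∀ β μ : G →* unitary D, (∀ g ∈ H, β g = μ g) → ∀ a : G, IsOfFinOrder a →
          τ (β a) = τ (μ a)) := by
  classical
  obtain ⟨F₁, δ₁, hδ₁, h1⟩ := uniform_path hG ∅ 1 one_pos
  obtain ⟨F₂, δ₂, hδ₂, h2⟩ := uniform_path hG F₁ 1 one_pos
  obtain ⟨S, ε, hε, hS⟩ := gapT hG
  set F : Finset G := F₁ ∪ F₂ ∪ S with hF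
  set H := Subgroup.closure (F : Set G) with hH
  have hFH : (F : Set G) ⊆ H := Subgroup.subset_closure
  have hsub₁ : (F₁ : Set G) ⊆ H := fun x hx => hFH (by
    rw [hF, Finset.mem_coe, Finset.mem_union, Finset.mem_union]
    exact Or.inl (Or.inl hx))
  have hsub₂ : (F₂ : Set G) ⊆ H := fun x hx => hFH (by
    rw [hF, Finset.mem_coe, Finset.mem_union, Finset.mem_union]
    exact Or.inl (Or.inr hx))
  have hsubS : (S : Set G) ⊆ H := fun x hx => hFH (by
    rw [hF, Finset.mem_coe, Finset.mem_union, Finset.mem_union]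
    exact Or.inr hx)
  refine ⟨H, ⟨F, rfl⟩, ?_, ?_, ?_, ?_⟩
  · rw [eq_top_iff, ← closure_sup_commutator hδ₁ hδ₂ h1 h2]
    refine sup_le_sup ?_ le_rfl
    rw [Subgroup.closure_le]
    exact Set.union_subset hsub₁ hsub₂
  · intro P hP hA
    exact le_normalClosure_inf hδ₁ h1 H hsub₁ P hP hA
  · intro P hP
    apply conj_of_fixed
    obtain ⟨η, hη, hη'⟩ := hS (lp (fun _ : G ⧸ H => ℂ) 2) (permRep G (G ⧸ H))
      (lp.single 2 ((1 : G) : G ⧸ H) (1 : ℂ)) (by
        rw [lp.norm_single (by norm_num)]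
        simp) (by
        intro s hs
        rw [permRep_single]
        have h3 : s • ((1 : G) : G ⧸ H) = ((1 : G) : G ⧸ H) := by
          have h4 : ((s * 1 : G) : G ⧸ H) = ((1 : G) : G ⧸ H) := by
            rw [QuotientGroup.eq, mul_one, mul_one]
            exact H.inv_mem (hsubS hs)
          exact h4
        rw [h3, sub_self, norm_zero]
        exact hε) P hP
    exact ⟨η, hη, hη'⟩
  · intro D _ τ hτ β μ hβμ a ha
    rcases subsingleton_or_nontrivial D with hD | hD
    · rw [Subsingleton.elim (β a : D) (μ a : D)]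
    obtain ⟨R, hR, -⟩ := h1 D β μ (by
      intro g hg
      rw [hβμ g (hsub₁ hg), sub_self, norm_zero]
      exact hδ₁)
    have h5 := trace_path τ hτ R a ha
    rwa [evPath_apply, evPath_apply, (hR a).1, (hR a).2] at h5

end Pool.Agent.LibCSF44
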