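import Mathlib
set_option autoImplicit false
namespace Pool.Agent.LibCSF44

/-! Stallings' theorem by hand: if every real 2-cocycle of `G` is a coboundary, elements of `G` which are independent in
`H_1(G; ℝ)` freely generate a free group. -/

section words
variable {ι : Type}

/-- syllable decompositions -/
theorem syll_cons (S : FreeGroup ι → Prop)
    (hS : ∀ w, S w ↔ ∃ L : List (ι × ℤ), L.IsChain (fun p q => p.1 ≠ q.1) ∧ (∀ p ∈ L, p.2 ≠ 0) ∧
      w = (L.map (fun p => FreeGroup.of p.1 ^ p.2)).prod) (i : ι) (ε : ℤ) (hε : ε ≠ 0)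
    (w : FreeGroup ι) (hw : S w) : S (FreeGroup.of i ^ ε * w) := by
  rw [hS] at hw ⊢
  obtain ⟨L, hL, h0, rfl⟩ := hw
  rcases L with _ | ⟨⟨j, e⟩, L⟩
  · refine ⟨[(i, ε)], List.isChain_singleton _, ?_, by simp⟩
    intro p hp
    rw [List.mem_singleton] at hp
    subst hp
    exact hε
  · by_cases hij : j = i
    · subst hij
      by_cases he : ε + e = 0
      · refine ⟨L, hL.tail, fun p hp => h0 p (List.mem_cons_of_mem _ hp), ?_⟩
        rw [List.map_cons, List.prod_cons, ← mul_assoc, ← zpow_add, he, zpow_zero, one_mul]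
      · refine ⟨(j, ε + e) :: L, ?_, ?_, ?_⟩
        · rcases L with _ | ⟨q, L⟩
          · exact List.isChain_singleton _
          · rw [List.isChain_cons_cons] at hL ⊢
            exact ⟨hL.1, hL.2⟩
        · intro p hp
          rcases List.mem_cons.1 hp with h | h
          · subst h; exact he
          · exact h0 p (List.mem_cons_of_mem _ h)
        · rw [List.map_cons, List.prod_cons, List.map_cons, List.prod_cons, ← mul_assoc, ← zpow_add]
    · refine ⟨(i, ε) :: (j, e) :: L, ?_, ?_, by simp⟩
      · rw [List.isChain_cons_cons]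
        exact ⟨fun h => hij h.symm, hL⟩
      · intro p hp
        rcases List.mem_cons.1 hp with h | h
        · subst h; exact hε
        · exact h0 p h

theorem exists_syll (w : FreeGroup ι) :
    ∃ L : List (ι × ℤ), L.IsChain (fun p q => p.1 ≠ q.1) ∧ (∀ p ∈ L, p.2 ≠ 0) ∧
      w = (L.map (fun p => FreeGroup.of p.1 ^ p.2)).prod := by
  obtain ⟨S, hS⟩ : ∃ S : FreeGroup ι → Prop, ∀ w, S w ↔ ∃ L : List (ι × ℤ),
      L.IsChain (fun p q => p.1 ≠ q.1) ∧ (∀ p ∈ L, p.2 ≠ 0) ∧
      w = (L.map (fun p => FreeGroup.of p.1 ^ p.2)).prod := ⟨_, fun w => Iff.rfl⟩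
  rw [← hS]
  have h1 : S 1 := by
    rw [hS]
    exact ⟨[], List.isChain_nil, by simp, by simp⟩
  have key : ∀ L : List (ι × Bool), S (FreeGroup.mk L) := by
    intro L
    induction L with
    | nil => exact h1
    | cons p L ih =>
      obtain ⟨i, b⟩ := p
      have h2 : FreeGroup.mk ((i, b) :: L) = FreeGroup.mk [(i, b)] * FreeGroup.mk L := by
        rw [FreeGroup.mul_mk]; rfl
      rw [h2]
      cases b
      · have h3 : (FreeGroup.mk [(i, false)] : FreeGroup ι) = FreeGroup.of i ^ (-1 : ℤ) := by
          rw [zpow_neg_one]; rfl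
        rw [h3]
        exact syll_cons S hS i (-1) (by norm_num) _ ih
      · have h3 : (FreeGroup.mk [(i, true)] : FreeGroup ι) = FreeGroup.of i ^ (1 : ℤ) := by
          rw [zpow_one]; rfl
        rw [h3]
        exact syll_cons S hS i 1 (by norm_num) _ ih
  induction w using Quot.inductionOn with
  | h L => exact key L

end words

section unip
variable {G : Type} [Group G] {n : ℕ} {r : ℕ}

/-- vanishing below the `l`-th diagonal -/
def InI (l : ℕ) (M : Matrix (Fin n) (Fin n) ℝ) : Prop := ∀ a b : Fin n, (b : ℕ) < a + l → M a b = 0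

/-- upper unitriangular -/
def Uni (M : Matrix (Fin n) (Fin n) ℝ) : Prop := (∀ a, M a a = 1) ∧ ∀ a b : Fin n, b < a → M a b = 0

theorem mul_entry {l : ℕ} {D m : Matrix (Fin n) (Fin n) ℝ} (hD : InI l D) (hm : Uni m)
    (a b : Fin n) (hab : (b : ℕ) ≤ a + l) : (D * m) a b = D a b := by
  rw [Matrix.mul_apply, Finset.sum_eq_single b]
  · rw [hm.1 b, mul_one]
  · intro c _ hc
    by_cases h : c < b
    · rw [hD a c (by have : (c : ℕ) < b := h; omega), zero_mul]
    · rw [hm.2 c b (lt_of_le_of_ne (not_lt.1 h) (Ne.symm hc)), mul_zero]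
  · intro h
    exact absurd (Finset.mem_univ _) h

theorem mul_entry' {l : ℕ} {D m : Matrix (Fin n) (Fin n) ℝ} (hD : InI l D) (hm : Uni m)
    (a b : Fin n) (hab : (b : ℕ) ≤ a + l) : (m * D) a b = D a b := by
  rw [Matrix.mul_apply, Finset.sum_eq_single a]
  · rw [hm.1 a, one_mul]
  · intro c _ hc
    by_cases h : c < a
    · rw [hm.2 a c h, zero_mul]
    · have h1 : a < c := lt_of_le_of_ne (not_lt.1 h) (Ne.symm hc)
      rw [hD c b (by have : (a : ℕ) < c := h1; omega), mul_zero]
  · intro h
    exact absurd (Finset.mem_univ _) h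

theorem uni_mul {m m' : Matrix (Fin n) (Fin n) ℝ} (h : Uni m) (h' : Uni m') : Uni (m * m') := by
  have e : ∀ a b : Fin n, (b : ℕ) ≤ a → (m * m') a b = m a b := fun a b hab =>
    mul_entry (l := 0) (D := m) (fun a b hab => h.2 a b (by simpa using hab)) h' a b (by simpa using hab)
  constructor
  · intro a
    rw [e a a le_rfl, h.1]
  · intro a b hab
    rw [e a b (le_of_lt hab), h.2 a b hab]

/-- one step of the lifting -/
theorem lift_step (hH : ∀ w : G → G → ℝ, (∀ g h k, w g h + w (g * h) k = w h k + w g (h * k)) →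
      ∃ c : G → ℝ, ∀ g h, w g h = c g + c h - c (g * h))
    (x : Fin r → G) (β : Fin r → G → ℝ) (hβ : ∀ i g h, β i (g * h) = β i g + β i h)
    (hβx : ∀ i j, β i (x j) = if i = j then 1 else 0)
    (m : G → Matrix (Fin n) (Fin n) ℝ) (hm : ∀ g, Uni (m g)) (l : ℕ)
    (hml : ∀ g h, InI (l + 1) (m g * m h - m (g * h))) :
    ∃ m' : G → Matrix (Fin n) (Fin n) ℝ, (∀ g, Uni (m' g)) ∧ (∀ i, m' (x i) = m (x i)) ∧
      ∀ g h, InI (l + 2) (m' g * m' h - m' (g * h)) := by
  -- the cocycle property of the entries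
  have hcoc : ∀ a b : Fin n, (b : ℕ) = a + (l + 1) → ∀ g h k : G,
      (m g * m h - m (g * h)) a b + (m (g * h) * m k - m (g * h * k)) a b =
        (m h * m k - m (h * k)) a b + (m g * m (h * k) - m (g * (h * k))) a b := by
    intro a b hab g h k
    have e1 := mul_entry (hml g h) (hm k) a b hab.le
    have e2 := mul_entry' (hml h k) (hm g) a b hab.le
    rw [← e1, ← e2]
    have e3 : (m g * m h - m (g * h)) * m k + (m (g * h) * m k - m (g * h * k)) =
        m g * (m h * m k - m (h * k)) + (m g * m (h * k) - m (g * (h * k))) := by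
      rw [sub_mul, mul_sub, mul_assoc (m g), mul_assoc g]
      abel
    exact congrFun (congrFun e3 a) b
  have hc : ∀ a b : Fin n, ∃ c : G → ℝ, (∀ i, c (x i) = 0) ∧ ((b : ℕ) = a + (l + 1) → ∀ g h : G,
      (m g * m h - m (g * h)) a b + c g + c h - c (g * h) = 0) := by
    intro a b
    by_cases hab : (b : ℕ) = a + (l + 1)
    · obtain ⟨c, hc⟩ := hH (fun g h => (m g * m h - m (g * h)) a b) (hcoc a b hab)
      refine ⟨fun g => -(c g) + ∑ i, c (x i) * β i g, ?_, ?_⟩
      · intro i
        have e : ∑ j, c (x j) * β j (x i) = c (x i) := by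
          rw [Finset.sum_eq_single i]
          · rw [hβx, if_pos rfl, mul_one]
          · intro j _ hj
            rw [hβx, if_neg hj, mul_zero]
          · intro h; exact absurd (Finset.mem_univ _) h
        show -(c (x i)) + ∑ j, c (x j) * β j (x i) = 0
        rw [e, neg_add_cancel]
      · intro _ g h
        have e : ∑ i, c (x i) * β i (g * h) = ∑ i, c (x i) * β i g + ∑ i, c (x i) * β i h := by
          rw [← Finset.sum_add_distrib]
          exact Finset.sum_congr rfl fun i _ => by rw [hβ, mul_add]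
        have e2 : (m g * m h - m (g * h)) a b = c g + c h - c (g * h) := hc g h
        beta_reduce
        rw [e, e2]
        ring
    · exact ⟨fun _ => 0, fun _ => rfl, fun h => absurd h hab⟩
  choose c hcx hcc using hc
  let C : G → Matrix (Fin n) (Fin n) ℝ := fun g => Matrix.of fun a b =>
    if (b : ℕ) = a + (l + 1) then c a b g else 0
  have hC : ∀ g, InI (l + 1) (C g) := by
    intro g a b hab
    show (if (b : ℕ) = a + (l + 1) then c a b g else 0) = 0
    rw [if_neg (by omega)]
  have hU : ∀ g, Uni (m g + C g) := by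
    intro g
    constructor
    · intro a
      rw [Matrix.add_apply, (hm g).1, hC g a a (by omega), add_zero]
    · intro a b hab
      rw [Matrix.add_apply, (hm g).2 a b hab, hC g a b (by have : (b : ℕ) < a := hab; omega), add_zero]
  refine ⟨fun g => m g + C g, hU, ?_, ?_⟩
  · intro i
    have : C (x i) = 0 := by
      ext a b
      show (if (b : ℕ) = a + (l + 1) then c a b (x i) else 0) = 0
      rw [hcx, ite_self]
    show m (x i) + C (x i) = m (x i)
    rw [this, add_zero]
  · intro g h a b hab
    have e0 : ((m g + C g) * (m h + C h) - (m (g * h) + C (g * h))) =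
        (m g * m h - m (g * h)) + m g * C h + C g * (m h + C h) - C (g * h) := by
      noncomm_ring
    show ((m g + C g) * (m h + C h) - (m (g * h) + C (g * h))) a b = 0
    rw [e0, Matrix.sub_apply, Matrix.add_apply, Matrix.add_apply,
      mul_entry' (hC h) (hm g) a b (by omega), mul_entry (hC g) (hU h) a b (by omega)]
    by_cases hab' : (b : ℕ) = a + (l + 1)
    · have e1 : ∀ g, C g a b = c a b g := by
        intro g
        show (if (b : ℕ) = a + (l + 1) then c a b g else 0) = c a b g
        rw [if_pos hab']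
      rw [e1, e1, e1]
      linarith [hcc a b hab' g h]
    · rw [hml g h a b (by omega), hC h a b (by omega), hC g a b (by omega),
        hC (g * h) a b (by omega)]
      ring

theorem lift_all (hH : ∀ w : G → G → ℝ, (∀ g h k, w g h + w (g * h) k = w h k + w g (h * k)) →
      ∃ c : G → ℝ, ∀ g h, w g h = c g + c h - c (g * h))
    (x : Fin r → G) (β : Fin r → G → ℝ) (hβ : ∀ i g h, β i (g * h) = β i g + β i h)
    (hβx : ∀ i j, β i (x j) = if i = j then 1 else 0)
    (m : G → Matrix (Fin n) (Fin n) ℝ) (hm : ∀ g, Uni (m g)) (l : ℕ) :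
    ∃ m' : G → Matrix (Fin n) (Fin n) ℝ, (∀ g, Uni (m' g)) ∧ (∀ i, m' (x i) = m (x i)) ∧
      ∀ g h, InI (l + 1) (m' g * m' h - m' (g * h)) := by
  induction l with
  | zero =>
    refine ⟨m, hm, fun _ => rfl, fun g h a b hab => ?_⟩
    have h1 := uni_mul (hm g) (hm h)
    rw [Matrix.sub_apply]
    rcases lt_or_eq_of_le (show b ≤ a by
      have : (b : ℕ) ≤ a := by omega
      exact this) with h2 | h2
    · rw [h1.2 a b h2, (hm _).2 a b h2, sub_zero]
    · subst h2
      rw [h1.1, (hm _).1, sub_self]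
  | succ l ih =>
    obtain ⟨m₁, h1, h2, h3⟩ := ih
    obtain ⟨m₂, h4, h5, h6⟩ := lift_step hH x β hβ hβx m₁ h1 l h3
    exact ⟨m₂, h4, fun i => (h5 i).trans (h2 i), h6⟩

/-- the nilpotent matrix attached to the letter `i` of a word -/
def Xm (s : ℕ → Fin r) (n : ℕ) (i : Fin r) : Matrix (Fin n) (Fin n) ℝ :=
  Matrix.of fun a b => if (b : ℕ) = a + 1 ∧ s a = i then 1 else 0

theorem uni_one_add (s : ℕ → Fin r) (i : Fin r) : Uni (1 + Xm s n i) := by
  constructor
  · intro a
    rw [Matrix.add_apply, Matrix.one_apply_eq]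
    show 1 + (if (a : ℕ) = a + 1 ∧ s a = i then 1 else 0) = (1 : ℝ)
    rw [if_neg (by omega), add_zero]
  · intro a b hab
    rw [Matrix.add_apply, Matrix.one_apply_ne (ne_of_gt hab)]
    show 0 + (if (b : ℕ) = a + 1 ∧ s a = i then 1 else 0) = (0 : ℝ)
    rw [if_neg (by have : (b : ℕ) < a := hab; omega), add_zero]

theorem Xm_sq (s : ℕ → Fin r) (hs : ∀ a, a + 2 < n → s a ≠ s (a + 1)) (i : Fin r) :
    Xm s n i * Xm s n i = 0 := by
  ext a c
  rw [Matrix.mul_apply, Matrix.zero_apply]
  refine Finset.sum_eq_zero fun b _ => ?_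
  show (if (b : ℕ) = a + 1 ∧ s a = i then (1 : ℝ) else 0) *
    (if (c : ℕ) = b + 1 ∧ s b = i then 1 else 0) = 0
  by_cases h1 : (b : ℕ) = a + 1 ∧ s a = i
  · by_cases h2 : (c : ℕ) = b + 1 ∧ s b = i
    · exfalso
      refine hs a ?_ ?_
      · have := c.2; omega
      · rw [h1.2, ← h1.1, h2.2]
    · rw [if_neg h2, mul_zero]
  · rw [if_neg h1, zero_mul]

/-- the main argument -/
theorem free_of_H2 (hH : ∀ w : G → G → ℝ, (∀ g h k, w g h + w (g * h) k = w h k + w g (h * k)) →
      ∃ c : G → ℝ, ∀ g h, w g h = c g + c h - c (g * h))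
    (x : Fin r → G) (β : Fin r → G → ℝ) (hβ : ∀ i g h, β i (g * h) = β i g + β i h)
    (hβx : ∀ i j, β i (x j) = if i = j then 1 else 0) :
    Function.Injective (FreeGroup.lift x) := by
  rw [injective_iff_map_eq_one]
  intro w hw
  obtain ⟨L, hL, h0, rfl⟩ := exists_syll w
  rcases Nat.eq_zero_or_pos L.length with hk | hk
  · rw [List.length_eq_zero_iff] at hk
    subst hk
    simp
  exfalso
  have hr : Nonempty (Fin r) := by
    rcases L with _ | ⟨p, L⟩
    · simp at hk
    · exact ⟨p.1⟩
  let i₀ : Fin r := hr.some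
  let s : ℕ → Fin r := fun a => (L.getD a (i₀, 0)).1
  let e : ℕ → ℤ := fun a => (L.getD a (i₀, 0)).2
  set k := L.length with hkdef
  have hs : ∀ a, a + 2 < k + 1 → s a ≠ s (a + 1) := by
    intro a ha
    have h1 := List.isChain_iff_getElem.1 hL a (by omega)
    have e1 : s a = (L[a]'(by omega)).1 := by
      show (L.getD a (i₀, 0)).1 = _
      rw [List.getD_eq_getElem _ _ (by omega)]
    have e2 : s (a + 1) = (L[a + 1]'(by omega)).1 := by
      show (L.getD (a + 1) (i₀, 0)).1 = _
      rw [List.getD_eq_getElem _ _ (by omega)]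
    rw [e1, e2]
    exact h1
  -- the representation
  have hb : ∃ m : G → Matrix (Fin (k + 1)) (Fin (k + 1)) ℝ, (∀ g, Uni (m g)) ∧
      ∀ i, m (x i) = 1 + Xm s (k + 1) i := by
    refine ⟨fun g => 1 + ∑ i, β i g • Xm s (k + 1) i, ?_, ?_⟩
    · intro g
      constructor
      · intro a
        have h1 : (∑ i, β i g • Xm s (k + 1) i) a a = 0 := by
          rw [Matrix.sum_apply]
          refine Finset.sum_eq_zero fun i _ => ?_
          have h2 := (uni_one_add (n := k + 1) s i).1 a
          rw [Matrix.add_apply, Matrix.one_apply_eq] at h2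
          rw [Matrix.smul_apply, show Xm s (k + 1) i a a = 0 by linarith, smul_zero]
        beta_reduce
        rw [Matrix.add_apply, h1, Matrix.one_apply_eq, add_zero]
      · intro a b hab
        have h1 : (∑ i, β i g • Xm s (k + 1) i) a b = 0 := by
          rw [Matrix.sum_apply]
          refine Finset.sum_eq_zero fun i _ => ?_
          have h2 := (uni_one_add (n := k + 1) s i).2 a b hab
          rw [Matrix.add_apply, Matrix.one_apply_ne (ne_of_gt hab), zero_add] at h2
          rw [Matrix.smul_apply, h2, smul_zero]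
        beta_reduce
        rw [Matrix.add_apply, h1, Matrix.one_apply_ne (ne_of_gt hab), add_zero]
    · intro i
      show 1 + ∑ j, β j (x i) • Xm s (k + 1) j = _
      congr 1
      rw [Finset.sum_eq_single i]
      · rw [hβx, if_pos rfl, one_smul]
      · intro j _ hj
        rw [hβx, if_neg hj, zero_smul]
      · intro h; exact absurd (Finset.mem_univ _) h
  obtain ⟨m₀, hm₀, hm₀x⟩ := hb
  obtain ⟨m, hm, hmx, hml⟩ := lift_all hH x β hβ hβx m₀ hm₀ (k + 1)
  have hmul : ∀ g h, m (g * h) = m g * m h := by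
    intro g h
    ext a b
    have h1 := hml g h a b (by have := b.2; omega)
    rw [Matrix.sub_apply] at h1
    linarith
  have hone : m 1 = 1 := by
    have h1 := hmul 1 1
    rw [mul_one] at h1
    have hdet : (m 1).det = 1 := by
      rw [Matrix.det_of_isUpperTriangular (fun a b hab => (hm 1).2 a b hab)]
      exact Finset.prod_eq_one fun a _ => (hm 1).1 a
    have hu : IsUnit (m 1) := by
      rw [Matrix.isUnit_iff_isUnit_det, hdet]
      exact isUnit_one
    have h2 : m 1 * m 1 = m 1 * 1 := by rw [mul_one, ← h1]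
    exact hu.mul_left_cancel h2
  have hX : ∀ i, m (x i) = 1 + Xm s (k + 1) i := fun i => (hmx i).trans (hm₀x i)
  have hsq : ∀ i, Xm s (k + 1) i * Xm s (k + 1) i = 0 := fun i => Xm_sq s hs i
  have hXi : ∀ i, m (x i)⁻¹ = 1 - Xm s (k + 1) i := by
    intro i
    have h1 : m (x i) * m (x i)⁻¹ = 1 := by rw [← hmul, mul_inv_cancel, hone]
    have h2 : (1 - Xm s (k + 1) i) * m (x i) = 1 := by
      rw [hX]
      have : (1 - Xm s (k + 1) i) * (1 + Xm s (k + 1) i) = 1 - Xm s (k + 1) i * Xm s (k + 1) i := by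
        noncomm_ring
      rw [this, hsq, sub_zero]
    calc m (x i)⁻¹ = (1 - Xm s (k + 1) i) * m (x i) * m (x i)⁻¹ := by rw [h2, one_mul]
      _ = 1 - Xm s (k + 1) i := by rw [mul_assoc, h1, mul_one]
  have hpow : ∀ (i : Fin r) (t : ℤ), m (x i ^ t) = 1 + (t : ℝ) • Xm s (k + 1) i := by
    intro i t
    induction t with
    | zero => rw [zpow_zero, hone]; simp
    | succ t ih =>
      rw [zpow_add_one, hmul, ih, hX]
      have : (1 + ((t : ℤ) : ℝ) • Xm s (k + 1) i) * (1 + Xm s (k + 1) i) =
          1 + (((t : ℤ) : ℝ) + 1) • Xm s (k + 1) i +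
            ((t : ℤ) : ℝ) • (Xm s (k + 1) i * Xm s (k + 1) i) := by
        rw [mul_add, mul_one, add_mul, one_mul, smul_mul_assoc, add_smul, one_smul]
        abel
      rw [this, hsq, smul_zero, add_zero]
      push_cast
      rfl
    | pred t ih =>
      rw [zpow_sub_one, hmul, ih, hXi]
      have : (1 + ((-(t : ℤ) : ℤ) : ℝ) • Xm s (k + 1) i) * (1 - Xm s (k + 1) i) =
          1 + (((-(t : ℤ) : ℤ) : ℝ) - 1) • Xm s (k + 1) i -
            ((-(t : ℤ) : ℤ) : ℝ) • (Xm s (k + 1) i * Xm s (k + 1) i) := by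
        rw [mul_sub, mul_one, add_mul, one_mul, smul_mul_assoc, sub_smul, one_smul]
        abel
      rw [this, hsq, smul_zero, sub_zero]
      push_cast
      rfl
  -- the product
  have hprod : ∀ t, t ≤ k → (∀ b : Fin (k + 1), t < (b : ℕ) →
      m (((L.take t).map (fun p => x p.1 ^ p.2)).prod) 0 b = 0) ∧
      ∀ b : Fin (k + 1), (b : ℕ) = t →
      m (((L.take t).map (fun p => x p.1 ^ p.2)).prod) 0 b =
        ((L.take t).map (fun p => (p.2 : ℝ))).prod := by
    intro t
    induction t with
    | zero =>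
      intro _
      rw [List.take_zero, List.map_nil, List.prod_nil, hone]
      refine ⟨fun b hb => ?_, fun b hb => ?_⟩
      · exact Matrix.one_apply_ne (fun h => by rw [← h] at hb; simp at hb)
      · have : b = 0 := Fin.ext hb
        subst this
        simp
    | succ t ih =>
      intro ht
      obtain ⟨ih1, ih2⟩ := ih (by omega)
      have htl : t < L.length := by omega
      have e1 : L.take (t + 1) = L.take t ++ [L[t]] := by
        rw [List.take_add_one, List.getElem?_eq_getElem htl]
        rfl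
      rw [e1, List.map_append, List.prod_append, List.map_singleton, List.prod_singleton, hmul,
        hpow, List.map_append, List.prod_append, List.map_singleton, List.prod_singleton]
      set M := m (((L.take t).map (fun p => x p.1 ^ p.2)).prod) with hM
      have hst : s t = L[t].1 := by
        show (L.getD t (i₀, 0)).1 = _
        rw [List.getD_eq_getElem _ _ htl]
      have e2 : ∀ b : Fin (k + 1), (M * (1 + ((L[t].2 : ℤ) : ℝ) • Xm s (k + 1) L[t].1)) 0 b =
          M 0 b + ((L[t].2 : ℤ) : ℝ) * (M * Xm s (k + 1) L[t].1) 0 b := by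
        intro b
        rw [mul_add, mul_one, mul_smul_comm, Matrix.add_apply, Matrix.smul_apply, smul_eq_mul]
      refine ⟨fun b hb => ?_, fun b hb => ?_⟩
      · rw [e2, ih1 b (by omega), zero_add, Matrix.mul_apply]
        have : ∑ j, M 0 j * Xm s (k + 1) L[t].1 j b = 0 := by
          refine Finset.sum_eq_zero fun c _ => ?_
          by_cases hc : (b : ℕ) = c + 1 ∧ s c = L[t].1
          · rw [ih1 c (by omega), zero_mul]
          · show M 0 c * (if (b : ℕ) = c + 1 ∧ s c = L[t].1 then 1 else 0) = 0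
            rw [if_neg hc, mul_zero]
        rw [this, mul_zero]
      · rw [e2, ih1 b (by omega), zero_add, Matrix.mul_apply]
        have : ∑ j, M 0 j * Xm s (k + 1) L[t].1 j b =
            ((L.take t).map (fun p => (p.2 : ℝ))).prod := by
          have htk : t < k + 1 := by omega
          rw [Finset.sum_eq_single (⟨t, htk⟩ : Fin (k + 1))]
          · rw [ih2 ⟨t, htk⟩ rfl]
            show _ * (if (b : ℕ) = t + 1 ∧ s t = L[t].1 then 1 else 0) = _
            rw [if_pos ⟨hb, hst⟩, mul_one]
          · intro c _ hc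
            show M 0 c * (if (b : ℕ) = c + 1 ∧ s c = L[t].1 then 1 else 0) = 0
            rw [if_neg, mul_zero]
            rintro ⟨h1, -⟩
            exact hc (Fin.ext (by show (c : ℕ) = t; omega))
          · intro h; exact absurd (Finset.mem_univ _) h
        rw [this, mul_comm]
  have hfin := (hprod k le_rfl).2 (Fin.last k) rfl
  have htake : L.take k = L := List.take_of_length_le (by omega)
  rw [htake] at hfin
  have hw' : (L.map (fun p => x p.1 ^ p.2)).prod = 1 := by
    rw [map_list_prod, List.map_map] at hw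
    rw [← hw]
    congr 1
    refine List.map_congr_left fun p _ => ?_
    simp
  rw [hw', hone] at hfin
  have hne : (0 : Fin (k + 1)) ≠ Fin.last k := by
    intro h
    have := congrArg Fin.val h
    simp at this
    omega
  have h1 : ((1 : Matrix (Fin (k + 1)) (Fin (k + 1)) ℝ) 0 (Fin.last k)) = 0 :=
    Matrix.one_apply_ne hne
  have h2 : (L.map (fun p => (p.2 : ℝ))).prod ≠ 0 := by
    intro h
    rw [List.prod_eq_zero_iff, List.mem_map] at h
    obtain ⟨p, hp, hp0⟩ := h
    exact h0 p hp (by exact_mod_cast hp0)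
  exact h2 (hfin.symm.trans h1)

end unip

end Pool.Agent.LibCSF44
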