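import Pool.Agent.LibCSF44.FinGen
set_option autoImplicit false
namespace Pool.Agent.LibCSF44

/-- a group generated by finitely generated subgroups `K i` such that all but finitely many of them can be killed by an endomorphism fixing the others is
finitely generated, if the conclusions of `fin_gen` hold -/
theorem fg_of_retracts {G : Type} [Group G] (H : Subgroup G) (hH : H.FG)
    (hab : H ⊔ commutator G = ⊤)
    (hP : ∀ P : Subgroup G, P.FG → Finite (Abelianization P) →
        P ≤ Subgroup.normalClosure
          ((Subgroup.normalClosure (P : Set G) ⊓ H : Subgroup G) : Set G))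
    (ι : Type) (K : ι → Subgroup G) (hK : ∀ i, (K i).FG) (htop : ⨆ i, K i = ⊤)
    (hr : ∀ S : Finset ι, ∃ r : G →* G, (∀ i ∈ S, ∀ x ∈ K i, r x = x) ∧
      ∀ i, i ∉ S → ∀ x ∈ K i, r x = 1) : Group.FG G := by
  classical
  -- `H` is contained in the subgroup generated by finitely many of the `K i`
  have hHS : ∃ S : Finset ι, H ≤ ⨆ i ∈ S, K i := by
    obtain ⟨T, hT⟩ := hH
    have hmem : ∀ x : G, ∃ S : Finset ι, x ∈ ⨆ i ∈ S, K i := by
      intro x
      have hx : x ∈ ⨆ i, K i := by rw [htop]; trivial
      refine Subgroup.iSup_induction K (C := fun x => ∃ S : Finset ι, x ∈ ⨆ i ∈ S, K i) hx ?_ ?_ ?_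
      · intro i y hy
        exact ⟨{i}, by
          rw [Finset.iSup_singleton]
          exact hy⟩
      · exact ⟨∅, Subgroup.one_mem _⟩
      · rintro y z ⟨S, hS⟩ ⟨S', hS'⟩
        refine ⟨S ∪ S', Subgroup.mul_mem _ ?_ ?_⟩
        · exact (biSup_mono fun i hi => Finset.mem_union_left _ hi :
            ⨆ i ∈ S, K i ≤ ⨆ i ∈ S ∪ S', K i) hS
        · exact (biSup_mono fun i hi => Finset.mem_union_right _ hi :
            ⨆ i ∈ S', K i ≤ ⨆ i ∈ S ∪ S', K i) hS'
    choose Sx hSx using hmem
    refine ⟨T.biUnion Sx, ?_⟩
    rw [← hT, Subgroup.closure_le]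
    intro x hx
    exact (biSup_mono fun i hi => Finset.mem_biUnion.2 ⟨x, hx, hi⟩ :
      ⨆ i ∈ Sx x, K i ≤ ⨆ i ∈ T.biUnion Sx, K i) (hSx x)
  obtain ⟨S, hS⟩ := hHS
  -- the other ones are trivial
  have htriv : ∀ i, i ∉ S → K i = ⊥ := by
    intro i hi
    obtain ⟨p, hp1, hp2⟩ := hr {i}
    obtain ⟨r, hr1, hr2⟩ := hr S
    have hpH : ∀ x ∈ H, p x = 1 := by
      intro x hx
      have h1 : (⨆ j ∈ S, K j) ≤ p.ker := by
        refine iSup₂_le fun j hj y hy => ?_
        exact hp2 j (fun h => hi (by rwa [Finset.mem_singleton.1 h] at hj)) y hy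
      exact h1 (hS hx)
    have hrange : p.range = K i := by
      apply le_antisymm
      · rw [MonoidHom.range_eq_map, ← htop, Subgroup.map_iSup]
        refine iSup_le fun j => ?_
        rintro _ ⟨y, hy, rfl⟩
        by_cases hj : j = i
        · subst hj
          rw [hp1 j (Finset.mem_singleton_self j) y hy]
          exact hy
        · rw [hp2 j (fun h => hj (Finset.mem_singleton.1 h)) y hy]
          exact Subgroup.one_mem _
      · intro y hy
        exact ⟨y, hp1 i (Finset.mem_singleton_self i) y hy⟩
    have hperf : Finite (Abelianization (K i)) := by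
      have h1 : commutator (K i) = ⊤ := by
        let f : G →* K i := p.codRestrict (K i) (fun x => by rw [← hrange]; exact ⟨x, rfl⟩)
        have hf : Function.Surjective f := by
          intro y
          exact ⟨y, Subtype.ext (hp1 i (Finset.mem_singleton_self i) y y.2)⟩
        have h2 : (H ⊔ commutator G).map f = ⊤ := by
          rw [hab]
          exact Subgroup.map_top_of_surjective f hf
        rw [Subgroup.map_sup] at h2
        have h3 : H.map f = ⊥ := by
          rw [eq_bot_iff]
          rintro _ ⟨x, hx, rfl⟩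
          exact Subtype.ext (hpH x hx)
        rw [h3, bot_sup_eq] at h2
        rw [eq_top_iff, ← h2]
        exact Subgroup.map_le_iff_le_comap.2 (Subgroup.commutator_le.2 fun a _ b _ => by
          rw [Subgroup.mem_comap, map_commutatorElement]
          exact Subgroup.commutator_mem_commutator trivial trivial)
      have h4 : Subsingleton (Abelianization (K i)) := by
        show Subsingleton (K i ⧸ commutator (K i))
        rw [h1]
        exact QuotientGroup.subsingleton_quotient_top
      infer_instance
    have h1 := hP (K i) (hK i) hperf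
    have h2 : (Subgroup.normalClosure ((K i : Subgroup G) : Set G) ⊓ H : Subgroup G) = ⊥ := by
      rw [eq_bot_iff]
      rintro x ⟨hx1, hx2⟩
      have h3 : Subgroup.normalClosure ((K i : Subgroup G) : Set G) ≤ r.ker :=
        Subgroup.normalClosure_le_normal fun y hy => hr2 i hi y hy
      have h4 : r x = 1 := h3 hx1
      have h5 : (⨆ j ∈ S, K j) ≤ r.eqLocus (MonoidHom.id G) :=
        iSup₂_le fun j hj y hy => hr1 j hj y hy
      have h6 : r x = x := h5 (hS hx2)
      rw [Subgroup.mem_bot, ← h6, h4]
    rw [h2] at h1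
    rw [eq_bot_iff]
    refine h1.trans ?_
    rw [Subgroup.coe_bot]
    exact Subgroup.normalClosure_le_normal (by simp)
  have hfin : (⨆ i ∈ S, K i) = ⊤ := by
    rw [eq_top_iff, ← htop]
    refine iSup_le fun i => ?_
    by_cases hi : i ∈ S
    · exact le_biSup K hi
    · rw [htriv i hi]
      exact bot_le
  have hfg : ∀ S : Finset ι, (⨆ i ∈ S, K i).FG := by
    intro S
    induction S using Finset.induction_on with
    | empty => simp [Subgroup.FG.bot]
    | insert i S hi ih =>
      rw [Finset.iSup_insert]
      exact (hK i).sup ih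
  rw [Group.fg_def, ← hfin]
  exact hfg S

end Pool.Agent.LibCSF44
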