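import Pool.Agent.LibCSF44.FreeSub
set_option autoImplicit false
namespace Pool.Agent.LibCSF44

/-- elements separated by the homomorphisms to `ℝ` have a dual family -/
theorem dual_of_independent {G : Type} [Group G] {r : ℕ} (x : Fin r → G)
    (hx : ∀ t : Fin r → ℝ, (∀ b : G → ℝ, (∀ g h, b (g * h) = b g + b h) →
      ∑ i, t i * b (x i) = 0) → t = 0) :
    ∃ β : Fin r → G → ℝ, (∀ i g h, β i (g * h) = β i g + β i h) ∧
      ∀ i j, β i (x j) = if i = j then 1 else 0 := by
  classical
  let W : Submodule ℝ (Fin r → ℝ) :=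
    { carrier := {y | ∃ b : G → ℝ, (∀ g h, b (g * h) = b g + b h) ∧ ∀ i, y i = b (x i)}
      add_mem' := by
        rintro y z ⟨b, hb, hy⟩ ⟨c, hc, hz⟩
        refine ⟨fun g => b g + c g, fun g h => by beta_reduce; rw [hb, hc]; ring, fun i => ?_⟩
        rw [Pi.add_apply, hy, hz]
      zero_mem' := ⟨fun _ => 0, fun _ _ => by simp, fun _ => rfl⟩
      smul_mem' := by
        rintro a y ⟨b, hb, hy⟩
        refine ⟨fun g => a * b g, fun g h => by beta_reduce; rw [hb]; ring, fun i => ?_⟩
        rw [Pi.smul_apply, smul_eq_mul, hy] }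
  have hW : W = ⊤ := by
    by_contra hne
    obtain ⟨f, hf0, hf⟩ := Submodule.exists_le_ker_of_lt_top W (lt_top_iff_ne_top.2 hne)
    have hfy : ∀ y : Fin r → ℝ, f y = ∑ i, f (Pi.single i 1) * y i := by
      intro y
      conv_lhs => rw [pi_eq_sum_univ' y]
      rw [map_sum]
      refine Finset.sum_congr rfl fun i _ => ?_
      rw [map_smul, smul_eq_mul, mul_comm]
    have ht := hx (fun i => f (Pi.single i 1)) (fun b hb => by
      rw [← hfy (fun i => b (x i))]
      exact hf ⟨b, hb, fun i => rfl⟩)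
    apply hf0
    ext i
    have := congrFun ht i
    simpa using this
  have hex : ∀ i : Fin r, ∃ b : G → ℝ, (∀ g h, b (g * h) = b g + b h) ∧
      ∀ j, (if i = j then (1 : ℝ) else 0) = b (x j) := by
    intro i
    have : (fun j => if i = j then (1 : ℝ) else 0) ∈ W := by rw [hW]; trivial
    exact this
  choose β h1 h2 using hex
  exact ⟨β, h1, fun i j => (h2 i j).symm⟩

/-- **Stallings**: if `H²(G; ℝ) = 0` then elements with linearly independent images in `H₁(G; ℝ)` freely generate a free group -/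
theorem free_of_independent {G : Type} [Group G]
    (hH : ∀ w : G → G → ℝ, (∀ g h k, w g h + w (g * h) k = w h k + w g (h * k)) →
      ∃ c : G → ℝ, ∀ g h, w g h = c g + c h - c (g * h)) {r : ℕ} (x : Fin r → G)
    (hx : ∀ t : Fin r → ℝ, (∀ b : G → ℝ, (∀ g h, b (g * h) = b g + b h) →
      ∑ i, t i * b (x i) = 0) → t = 0) :
    Function.Injective (FreeGroup.lift x) := by
  obtain ⟨β, h1, h2⟩ := dual_of_independent x hx
  exact free_of_H2 hH x β h1 h2

end Pool.Agent.LibCSF44
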