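import Pool.Agent.LibCS15.Defs
set_option autoImplicit false
namespace Pool.Agent.LibCSF44
open Topology Filter
open scoped commutatorElement

/-! The trivial representation of a finitely generated group with finite abelianization is isolated, uniformly over all `C*`-algebras. -/

section
variable {D : Type} [CStarAlgebra D] {P : Type} [Group P]

theorem norm_unitary_le_one (u : unitary D) : ‖(u : D)‖ ≤ 1 := by
  rcases subsingleton_or_nontrivial D with h | h
  · rw [Subsingleton.elim (u : D) 0, norm_zero]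
    exact zero_le_one
  · exact (CStarRing.norm_coe_unitary u).le

theorem nu_mul (σ : P →* unitary D) (g h : P) :
    ‖(σ (g * h) : D) - 1‖ ≤ ‖(σ g : D) - 1‖ + ‖(σ h : D) - 1‖ := by
  have e1 : (σ (g * h) : D) - 1 = (σ g : D) * ((σ h : D) - 1) + ((σ g : D) - 1) := by
    rw [map_mul]
    show (σ g : D) * (σ h : D) - 1 = _
    noncomm_ring
  rw [e1]
  refine (norm_add_le _ _).trans ?_
  have e2 : ‖(σ g : D) * ((σ h : D) - 1)‖ ≤ ‖(σ h : D) - 1‖ :=
    (norm_mul_le _ _).trans (mul_le_of_le_one_left (norm_nonneg _) (norm_unitary_le_one _))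
  linarith

theorem nu_inv (σ : P →* unitary D) (g : P) : ‖(σ g⁻¹ : D) - 1‖ ≤ ‖(σ g : D) - 1‖ := by
  have h0 : (σ g⁻¹ : D) * (σ g : D) = 1 := by
    have : σ g⁻¹ * σ g = 1 := by rw [← map_mul, inv_mul_cancel, map_one]
    exact congrArg Subtype.val this
  have e1 : (σ g⁻¹ : D) - 1 = -((σ g⁻¹ : D) * ((σ g : D) - 1)) := by
    rw [mul_sub, h0, mul_one, neg_sub]
  rw [e1, norm_neg]
  exact (norm_mul_le _ _).trans (mul_le_of_le_one_left (norm_nonneg _) (norm_unitary_le_one _))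

theorem nu_comm (σ : P →* unitary D) (g h : P) :
    ‖(σ ⁅g, h⁆ : D) - 1‖ ≤ 2 * (‖(σ g : D) - 1‖ * ‖(σ h : D) - 1‖) := by
  have h0 : (σ (h * g) : D) * (σ (h * g)⁻¹ : D) = 1 := by
    have : σ (h * g) * σ (h * g)⁻¹ = 1 := by rw [← map_mul, mul_inv_cancel, map_one]
    exact congrArg Subtype.val this
  have e0 : ⁅g, h⁆ = (g * h) * (h * g)⁻¹ := by
    rw [commutatorElement_def]
    group
  have e1 : (σ ⁅g, h⁆ : D) - 1 =
      (((σ g : D) - 1) * ((σ h : D) - 1) - ((σ h : D) - 1) * ((σ g : D) - 1)) *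
        (σ (h * g)⁻¹ : D) := by
    have e2 : (σ ⁅g, h⁆ : D) = (σ g : D) * (σ h : D) * (σ (h * g)⁻¹ : D) := by
      rw [e0, map_mul, map_mul]
      rfl
    have e3 : (σ (h * g) : D) = (σ h : D) * (σ g : D) := by
      rw [map_mul]
      rfl
    have e4 : ((σ g : D) - 1) * ((σ h : D) - 1) - ((σ h : D) - 1) * ((σ g : D) - 1) =
        (σ g : D) * (σ h : D) - (σ h : D) * (σ g : D) := by
      noncomm_ring
    rw [e4, e2, sub_mul, ← e3, h0]
  rw [e1]
  refine (norm_mul_le _ _).trans ?_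
  refine (mul_le_of_le_one_right (norm_nonneg _) (norm_unitary_le_one _)).trans ?_
  refine (norm_sub_le _ _).trans ?_
  have e5 := norm_mul_le ((σ g : D) - 1) ((σ h : D) - 1)
  have e6 := norm_mul_le ((σ h : D) - 1) ((σ g : D) - 1)
  nlinarith

theorem nu_pow (σ : P →* unitary D) (g : P) (m : ℕ) :
    (m : ℝ) * ‖(σ g : D) - 1‖ ≤ ‖(σ (g ^ m) : D) - 1‖ + (m : ℝ) ^ 2 * ‖(σ g : D) - 1‖ ^ 2 := by
  set r : D := (σ g : D) with hr
  have hpow : ∀ k : ℕ, (σ (g ^ k) : D) = r ^ k := by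
    intro k
    rw [map_pow]
    rfl
  have hk : ∀ k : ℕ, ‖r ^ k - 1‖ ≤ (k : ℝ) * ‖r - 1‖ := by
    intro k
    induction k with
    | zero => simp
    | succ k ih =>
      have := nu_mul σ (g ^ k) g
      rw [← pow_succ, hpow, hpow] at this
      push_cast
      linarith
  rw [hpow]
  have e1 : ((m : ℝ) : ℂ) • (r - 1) = (r ^ m - 1) - (r - 1) * ∑ i ∈ Finset.range m, (r ^ i - 1) := by
    have e2 : (r - 1) * ∑ i ∈ Finset.range m, r ^ i = r ^ m - 1 := mul_geom_sum r m
    rw [Finset.sum_sub_distrib, mul_sub, e2, Finset.sum_const, Finset.card_range, nsmul_eq_mul,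
      mul_one]
    have e3 : (r - 1) * (m : D) = ((m : ℝ) : ℂ) • (r - 1) := by
      rw [Complex.ofReal_natCast, ← nsmul_eq_mul', Nat.cast_smul_eq_nsmul]
    rw [e3]
    abel
  have e4 : (m : ℝ) * ‖r - 1‖ = ‖((m : ℝ) : ℂ) • (r - 1)‖ := by
    rw [norm_smul]
    simp
  rw [e4, e1]
  refine (norm_sub_le _ _).trans (add_le_add le_rfl ?_)
  refine (norm_mul_le _ _).trans ?_
  have e5 : ‖∑ i ∈ Finset.range m, (r ^ i - 1)‖ ≤ (m : ℝ) * ((m : ℝ) * ‖r - 1‖) := by
    refine (norm_sum_le _ _).trans ?_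
    have : ∀ i ∈ Finset.range m, ‖r ^ i - 1‖ ≤ (m : ℝ) * ‖r - 1‖ := by
      intro i hi
      refine (hk i).trans (mul_le_mul_of_nonneg_right ?_ (norm_nonneg _))
      exact_mod_cast (Finset.mem_range.1 hi).le
    refine (Finset.sum_le_card_nsmul _ _ _ this).trans ?_
    rw [Finset.card_range, nsmul_eq_mul]
  have e6 := mul_le_mul_of_nonneg_left e5 (norm_nonneg (r - 1))
  nlinarith [norm_nonneg (r - 1)]

end

/-- linear bound for the words -/
theorem linear_bound {P : Type} [Group P] (S : Set P) (hS : Subgroup.closure S = ⊤) (g : P) :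
    ∃ L : ℝ, 0 ≤ L ∧ ∀ (D : Type) [CStarAlgebra D] (σ : P →* unitary D) (δ : ℝ), 0 ≤ δ →
      (∀ s ∈ S, ‖(σ s : D) - 1‖ ≤ δ) → ‖(σ g : D) - 1‖ ≤ L * δ := by
  have hg : g ∈ Subgroup.closure S := by rw [hS]; trivial
  induction hg using Subgroup.closure_induction with
  | mem x hx => exact ⟨1, zero_le_one, fun D _ σ δ _ h => by rw [one_mul]; exact h x hx⟩
  | one => exact ⟨0, le_rfl, fun D _ σ δ _ h => by simp⟩
  | mul x y _ _ ihx ihy =>
    obtain ⟨L, hL, h1⟩ := ihx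
    obtain ⟨M, hM, h2⟩ := ihy
    refine ⟨L + M, add_nonneg hL hM, fun D _ σ δ hδ h => ?_⟩
    have e1 := h1 D σ δ hδ h
    have e2 := h2 D σ δ hδ h
    have e3 := nu_mul σ x y
    linarith
  | inv x _ ihx =>
    obtain ⟨L, hL, h1⟩ := ihx
    exact ⟨L, hL, fun D _ σ δ hδ h => (nu_inv σ x).trans (h1 D σ δ hδ h)⟩

/-- quadratic bound for the elements of the commutator subgroup -/
theorem quadratic_bound {P : Type} [Group P] (S : Set P) (hS : Subgroup.closure S = ⊤) (g : P)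
    (hg : g ∈ commutator P) :
    ∃ L : ℝ, 0 ≤ L ∧ ∀ (D : Type) [CStarAlgebra D] (σ : P →* unitary D) (δ : ℝ), 0 ≤ δ →
      (∀ s ∈ S, ‖(σ s : D) - 1‖ ≤ δ) → ‖(σ g : D) - 1‖ ≤ L * δ ^ 2 := by
  rw [commutator_eq_closure] at hg
  induction hg using Subgroup.closure_induction with
  | mem x hx =>
    obtain ⟨a, b, rfl⟩ := mem_commutatorSet_iff.1 hx
    obtain ⟨L, hL, h1⟩ := linear_bound S hS a
    obtain ⟨M, hM, h2⟩ := linear_bound S hS b
    refine ⟨2 * (L * M), by positivity, fun D _ σ δ hδ h => ?_⟩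
    refine (nu_comm σ a b).trans ?_
    have e1 := h1 D σ δ hδ h
    have e2 := h2 D σ δ hδ h
    have e3 : ‖(σ a : D) - 1‖ * ‖(σ b : D) - 1‖ ≤ (L * δ) * (M * δ) :=
      mul_le_mul e1 e2 (norm_nonneg _) (by positivity)
    nlinarith
  | one => exact ⟨0, le_rfl, fun D _ σ δ _ h => by simp⟩
  | mul x y _ _ ihx ihy =>
    obtain ⟨L, hL, h1⟩ := ihx
    obtain ⟨M, hM, h2⟩ := ihy
    refine ⟨L + M, add_nonneg hL hM, fun D _ σ δ hδ h => ?_⟩
    have e1 := h1 D σ δ hδ h
    have e2 := h2 D σ δ hδ h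
    have e3 := nu_mul σ x y
    nlinarith
  | inv x _ ihx =>
    obtain ⟨L, hL, h1⟩ := ihx
    exact ⟨L, hL, fun D _ σ δ hδ h => (nu_inv σ x).trans (h1 D σ δ hδ h)⟩

/-- the trivial representation of a finitely generated group with finite abelianization is isolated -/
theorem isolated {P : Type} [Group P] (hP : Group.FG P) (hA : Finite (Abelianization P)) :
    ∃ (S : Finset P) (ε : ℝ), 0 < ε ∧ ∀ (D : Type) [CStarAlgebra D] (σ : P →* unitary D),
      (∀ s ∈ S, ‖(σ s : D) - 1‖ < ε) → σ = 1 := by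
  classical
  obtain ⟨S, hS⟩ := hP.out
  set m := Nat.card (Abelianization P) with hm
  have hm0 : 0 < m := Nat.card_pos
  have hmem : ∀ s : P, s ^ m ∈ commutator P := by
    intro s
    have h1 : (Abelianization.of s) ^ m = 1 := pow_card_eq_one'
    rw [← map_pow] at h1
    exact (QuotientGroup.eq_one_iff _).1 h1
  choose L hL hLb using fun s : P => quadratic_bound (S : Set P) hS (s ^ m) (hmem s)
  set K : ℝ := ∑ s ∈ S, L s + (m : ℝ) ^ 2 + 1 with hK
  have hsum : 0 ≤ ∑ s ∈ S, L s := Finset.sum_nonneg fun s _ => hL s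
  have hKpos : 0 < K := by positivity
  refine ⟨S, 1 / K, by positivity, fun D _ σ h => ?_⟩
  have hall : ∀ s ∈ S, (σ s : D) = 1 := by
    rcases S.eq_empty_or_nonempty with hem | hne
    · intro s hs
      rw [hem] at hs
      exact absurd hs (Finset.notMem_empty s)
    · obtain ⟨s₀, hs₀, hmax⟩ := S.exists_max_image (fun s => ‖(σ s : D) - 1‖) hne
      set δ := ‖(σ s₀ : D) - 1‖ with hδ
      have hδ0 : 0 ≤ δ := norm_nonneg _
      have e1 := hLb s₀ D σ δ hδ0 hmax
      have e2 := nu_pow σ s₀ m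
      rw [← hδ] at e2
      have e3 : L s₀ ≤ ∑ s ∈ S, L s := Finset.single_le_sum (fun s _ => hL s) hs₀
      have e4 : (1 : ℝ) ≤ m := by exact_mod_cast hm0
      have e5 : δ ≤ (m : ℝ) * δ := by nlinarith
      have e6 : δ ≤ K * δ ^ 2 := by
        have : L s₀ * δ ^ 2 ≤ (∑ s ∈ S, L s) * δ ^ 2 :=
          mul_le_mul_of_nonneg_right e3 (sq_nonneg _)
        rw [hK]
        nlinarith [sq_nonneg δ]
      have e7 : δ < 1 / K := h s₀ hs₀
      have e8 : K * δ < 1 := by
        rw [lt_div_iff₀ hKpos] at e7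
        linarith
      have e9 : δ = 0 := by
        by_contra hne'
        have hpos : 0 < δ := lt_of_le_of_ne hδ0 (Ne.symm hne')
        nlinarith
      intro s hs
      have e10 := hmax s hs
      rw [e9] at e10
      exact sub_eq_zero.1 (norm_le_zero_iff.1 e10)
  have hker : Subgroup.closure (S : Set P) ≤ σ.ker := by
    rw [Subgroup.closure_le]
    intro s hs
    exact Subtype.ext (hall s hs)
  rw [hS] at hker
  ext g
  have : g ∈ σ.ker := hker (Subgroup.mem_top g)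
  rw [MonoidHom.mem_ker.1 this]
  rfl

end Pool.Agent.LibCSF44
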