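import Mathlib
set_option autoImplicit false
namespace Pool.Agent.LibCSF44
open Topology Filter
open scoped Matrix.Norms.L2Operator

variable {E : Type} [NormedAddCommGroup E] [InnerProductSpace ℂ E]

theorem finiteDimensional_range {Q : E →L[ℂ] E} (hQQ : Q * Q = Q) (hc : IsCompactOperator Q) :
    FiniteDimensional ℂ (LinearMap.range (Q : E →ₗ[ℂ] E)) := by
  have hF : ∀ x : E, x ∈ LinearMap.range (Q : E →ₗ[ℂ] E) ↔ Q x = x := by
    intro x
    constructor
    · rintro ⟨y, rfl⟩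
      exact congrArg (fun A : E →L[ℂ] E => A y) hQQ
    · intro h
      exact ⟨x, h⟩
  have hcl : IsClosed ((LinearMap.range (Q : E →ₗ[ℂ] E) : Submodule ℂ E) : Set E) := by
    have e : ((LinearMap.range (Q : E →ₗ[ℂ] E) : Submodule ℂ E) : Set E) = {x | Q x = x} := by
      ext x; exact hF x
    rw [e]
    exact isClosed_eq Q.continuous continuous_id
  have hK : IsCompact (closure (Q '' Metric.closedBall 0 1)) :=
    IsCompactOperator.isCompact_closure_image_closedBall (f := Q.toLinearMap) hc 1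
  refine FiniteDimensional.of_isCompact_closedBall₀ ℂ (r := 1) one_pos ?_
  rw [Topology.IsEmbedding.subtypeVal.isCompact_iff]
  have e : (Subtype.val '' Metric.closedBall (0 : LinearMap.range (Q : E →ₗ[ℂ] E)) 1) =
      ((LinearMap.range (Q : E →ₗ[ℂ] E) : Submodule ℂ E) : Set E) ∩ Metric.closedBall 0 1 := by
    ext x
    constructor
    · rintro ⟨y, hy, rfl⟩
      refine ⟨y.2, ?_⟩
      rw [mem_closedBall_zero_iff] at hy ⊢
      exact hy
    · rintro ⟨hx, hx1⟩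
      refine ⟨⟨x, hx⟩, ?_, rfl⟩
      rw [mem_closedBall_zero_iff] at hx1 ⊢
      exact hx1
  rw [e]
  refine hK.of_isClosed_subset (hcl.inter Metric.isClosed_closedBall) ?_
  rintro x ⟨hx, hx1⟩
  exact subset_closure ⟨x, hx1, (hF x).1 hx⟩

theorem exists_sigma {d : ℕ} {G : Type} [Group G]
    (s : G → (EuclideanSpace ℂ (Fin d) →L[ℂ] EuclideanSpace ℂ (Fin d))) (h1 : s 1 = 1)
    (hm : ∀ g h, s (g * h) = s g * s h) (hs : ∀ g, star (s g) * s g = 1 ∧ s g * star (s g) = 1) :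
    ∃ σ : G →* unitary (Matrix (Fin d) (Fin d) ℂ), ∀ g,
      Matrix.toEuclideanCLM (n := Fin d) (𝕜 := ℂ)
        ((σ g : unitary (Matrix (Fin d) (Fin d) ℂ)) : Matrix (Fin d) (Fin d) ℂ) = s g := by
  obtain ⟨e, he⟩ : ∃ e : Matrix (Fin d) (Fin d) ℂ ≃⋆ₐ[ℂ] (EuclideanSpace ℂ (Fin d) →L[ℂ]
    EuclideanSpace ℂ (Fin d)), e = Matrix.toEuclideanCLM (n := Fin d) (𝕜 := ℂ) := ⟨_, rfl⟩
  have hstar : ∀ x, e (star x) = star (e x) := fun x => map_star e x
  have hinj : Function.Injective e := e.injective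
  obtain ⟨M, hM⟩ : ∃ M : G → Matrix (Fin d) (Fin d) ℂ, ∀ g, e (M g) = s g :=
    ⟨fun g => e.symm (s g), fun g => e.apply_symm_apply _⟩
  have hmem : ∀ g, M g ∈ unitary (Matrix (Fin d) (Fin d) ℂ) := by
    intro g
    rw [Unitary.mem_iff]
    constructor
    · apply hinj
      rw [map_mul, hstar, hM, (hs g).1, map_one]
    · apply hinj
      rw [map_mul, hstar, hM, (hs g).2, map_one]
  refine ⟨{ toFun := fun g => ⟨M g, hmem g⟩
            map_one' := Subtype.ext (hinj ?_)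
            map_mul' := fun g h => Subtype.ext (hinj ?_) }, fun g => ?_⟩
  · show e (M 1) = e 1
    rw [hM, h1, map_one]
  · show e (M (g * h)) = e (M g * M h)
    rw [hM, hm, map_mul, hM, hM]
  · rw [← he]
    exact hM g

variable [CompleteSpace E]

open ContinuousLinearMap in
/-- a unitary representation commuting with a projection of finite rank restricts to a representation by unitary matrices -/
theorem exists_matrix_rep {Q : E →L[ℂ] E} (hQs : star Q = Q) (hQQ : Q * Q = Q)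
    (hc : IsCompactOperator Q) {G : Type} [Group G] (u : G →* unitary (E →L[ℂ] E))
    (hu : ∀ g, ((u g : unitary (E →L[ℂ] E)) : E →L[ℂ] E) * Q = Q * (u g : unitary (E →L[ℂ] E))) :
    ∃ (d : ℕ) (σ : G →* unitary (Matrix (Fin d) (Fin d) ℂ)),
      (∀ g, ‖((σ g : unitary (Matrix (Fin d) (Fin d) ℂ)) : Matrix (Fin d) (Fin d) ℂ) - 1‖ ≤
        ‖((u g : unitary (E →L[ℂ] E)) : E →L[ℂ] E) - 1‖) ∧
      ∀ g h, σ g * σ h = σ h * σ g →
        (((u g * u h : unitary (E →L[ℂ] E)) : E →L[ℂ] E) - ((u h * u g : unitary (E →L[ℂ] E)) :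
          E →L[ℂ] E)) * Q = 0 := by
  have := finiteDimensional_range hQQ hc
  have hadj : adjoint Q = Q := hQs
  let F := LinearMap.range (Q : E →ₗ[ℂ] E)
  let b := stdOrthonormalBasis ℂ F
  let d := Module.finrank ℂ F
  let V := EuclideanSpace ℂ (Fin d)
  let Ji : V →ₗᵢ[ℂ] E := F.subtypeₗᵢ.comp b.repr.symm.toLinearIsometry
  let J : V →L[ℂ] E := Ji.toContinuousLinearMap
  have hJ1 : adjoint J ∘L J = 1 := by
    rw [← norm_map_iff_adjoint_comp_self]
    intro x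
    exact Ji.norm_map x
  have hQJ : Q ∘L J = J := by
    ext x
    have h1 : (b.repr.symm x : E) ∈ F := (b.repr.symm x).2
    obtain ⟨y, hy⟩ := h1
    have h2 : J x = Q y := hy.symm
    show Q (J x) = J x
    rw [h2]
    exact congrArg (fun A : E →L[ℂ] E => A y) hQQ
  have hJJ : J ∘L adjoint J = Q := by
    ext ξ
    have h1 : ∃ η, J η = Q ξ := by
      refine ⟨b.repr ⟨Q ξ, ⟨ξ, rfl⟩⟩, ?_⟩
      show ((b.repr.symm (b.repr ⟨Q ξ, ⟨ξ, rfl⟩⟩) : F) : E) = Q ξ
      rw [LinearIsometryEquiv.symm_apply_apply]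
    obtain ⟨η, hη⟩ := h1
    have h2 : adjoint J (ξ - Q ξ) = 0 := by
      refine ext_inner_left ℂ fun ζ => ?_
      rw [adjoint_inner_right, inner_zero_right]
      have h3 : J ζ = Q (J ζ) := (congrArg (fun A : V →L[ℂ] E => A ζ) hQJ).symm
      have h4 : inner ℂ (Q (J ζ)) (ξ - Q ξ) = inner ℂ (J ζ) (Q (ξ - Q ξ)) := by
        have h9 := adjoint_inner_right Q (J ζ) (ξ - Q ξ)
        rw [hadj] at h9
        exact h9.symm
      have h5 : Q (ξ - Q ξ) = 0 := by
        rw [map_sub]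
        have h6 : Q (Q ξ) = Q ξ := congrArg (fun A : E →L[ℂ] E => A ξ) hQQ
        rw [h6, sub_self]
      rw [h3, h4, h5, inner_zero_right]
    have h7 : adjoint J ξ = η := by
      have h8 : ξ = (ξ - Q ξ) + J η := by rw [hη, sub_add_cancel]
      rw [h8, map_add, h2, zero_add]
      exact congrArg (fun A : V →L[ℂ] V => A η) hJ1
    show J (adjoint J ξ) = Q ξ
    rw [h7, hη]
  have hJQ : adjoint J ∘L Q = adjoint J := by
    rw [← hJJ, ← comp_assoc, hJ1]
    rfl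
  -- the compressions
  let s : G → V →L[ℂ] V := fun g => adjoint J ∘L ((u g : unitary (E →L[ℂ] E)) : E →L[ℂ] E) ∘L J
  have hs1 : s 1 = 1 := by
    show adjoint J ∘L ((u 1 : unitary (E →L[ℂ] E)) : E →L[ℂ] E) ∘L J = 1
    rw [map_one]
    exact hJ1
  have hprod : ∀ A B : E →L[ℂ] E, A * Q = Q * A →
      (adjoint J ∘L A ∘L J) * (adjoint J ∘L B ∘L J) = adjoint J ∘L (A * B) ∘L J := by
    intro A B hA
    have e1 : (adjoint J ∘L A ∘L J) * (adjoint J ∘L B ∘L J) =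
        adjoint J ∘L (A * (J ∘L adjoint J)) ∘L (B ∘L J) := rfl
    rw [e1, hJJ, hA]
    have e2 : adjoint J ∘L (Q * A) ∘L (B ∘L J) = (adjoint J ∘L Q) ∘L A ∘L (B ∘L J) := rfl
    rw [e2, hJQ]
    rfl
  have hsm : ∀ g h, s (g * h) = s g * s h := by
    intro g h
    show adjoint J ∘L ((u (g * h) : unitary (E →L[ℂ] E)) : E →L[ℂ] E) ∘L J = _
    rw [map_mul]
    exact (hprod _ _ (hu g)).symm
  have hss : ∀ g, star (s g) = s g⁻¹ := by
    intro g
    show adjoint (adjoint J ∘L ((u g : unitary (E →L[ℂ] E)) : E →L[ℂ] E) ∘L J) =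
      adjoint J ∘L ((u g⁻¹ : unitary (E →L[ℂ] E)) : E →L[ℂ] E) ∘L J
    rw [map_inv, adjoint_comp, adjoint_comp, adjoint_adjoint]
    rfl
  have hsu : ∀ g, star (s g) * s g = 1 ∧ s g * star (s g) = 1 := by
    intro g
    rw [hss, ← hsm, ← hsm, inv_mul_cancel, mul_inv_cancel, hs1]
    exact ⟨rfl, rfl⟩
  obtain ⟨σ, hσ⟩ := exists_sigma s hs1 hsm hsu
  have hJn : ‖J‖ ≤ 1 := J.opNorm_le_bound zero_le_one fun x => by
    rw [one_mul]; exact (Ji.norm_map x).le
  have hJn' : ‖adjoint J‖ ≤ 1 := by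
    rw [LinearIsometryEquiv.norm_map]; exact hJn
  refine ⟨d, σ, fun g => ?_, fun g h hgh => ?_⟩
  · have h1 : ‖((σ g : unitary (Matrix (Fin d) (Fin d) ℂ)) : Matrix (Fin d) (Fin d) ℂ) - 1‖ =
        ‖s g - 1‖ := by
      rw [← hσ g, ← Matrix.l2_opNorm_toEuclideanCLM, map_sub, map_one]
    rw [h1]
    have h3 : s g - 1 = adjoint J ∘L (((u g : unitary (E →L[ℂ] E)) : E →L[ℂ] E) - 1) ∘L J := by
      rw [sub_comp, comp_sub]
      congr 1
      exact hJ1.symm
    rw [h3]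
    calc ‖adjoint J ∘L (((u g : unitary (E →L[ℂ] E)) : E →L[ℂ] E) - 1) ∘L J‖
        ≤ ‖adjoint J‖ * ‖(((u g : unitary (E →L[ℂ] E)) : E →L[ℂ] E) - 1) ∘L J‖ :=
          opNorm_comp_le _ _
      _ ≤ ‖adjoint J‖ * (‖((u g : unitary (E →L[ℂ] E)) : E →L[ℂ] E) - 1‖ * ‖J‖) :=
          mul_le_mul_of_nonneg_left (opNorm_comp_le _ _) (norm_nonneg _)
      _ ≤ 1 * (‖((u g : unitary (E →L[ℂ] E)) : E →L[ℂ] E) - 1‖ * 1) := by
          gcongr
      _ = ‖((u g : unitary (E →L[ℂ] E)) : E →L[ℂ] E) - 1‖ := by ring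
  · have h2 : s g * s h = s h * s g := by
      rw [← hσ g, ← hσ h, ← map_mul, ← map_mul]
      exact congrArg _ (congrArg Subtype.val hgh)
    have h3 : adjoint J ∘L (((u g : unitary (E →L[ℂ] E)) : E →L[ℂ] E) *
          ((u h : unitary (E →L[ℂ] E)) : E →L[ℂ] E)) ∘L J =
        adjoint J ∘L (((u h : unitary (E →L[ℂ] E)) : E →L[ℂ] E) *
          ((u g : unitary (E →L[ℂ] E)) : E →L[ℂ] E)) ∘L J := by
      rw [← hprod _ _ (hu g), ← hprod _ _ (hu h)]
      exact h2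
    have h4 : ∀ A : E →L[ℂ] E, J ∘L (adjoint J ∘L A ∘L J) ∘L adjoint J = Q * A * Q := by
      intro A
      have e1 : J ∘L (adjoint J ∘L A ∘L J) ∘L adjoint J =
        (J ∘L adjoint J) * A * (J ∘L adjoint J) := rfl
      rw [e1, hJJ]
    have h5 := congrArg (fun A : V →L[ℂ] V => J ∘L A ∘L adjoint J) h3
    simp only [h4] at h5
    have h6 : ∀ A B : E →L[ℂ] E, A * Q = Q * A → B * Q = Q * B → Q * (A * B) * Q = A * B * Q := by
      intro A B hA hB
      rw [← mul_assoc Q A B, ← hA, mul_assoc A Q B, ← hB, ← mul_assoc, mul_assoc (A * B) Q Q, hQQ]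
    rw [h6 _ _ (hu g) (hu h), h6 _ _ (hu h) (hu g)] at h5
    rw [sub_mul]
    exact sub_eq_zero.2 h5

end Pool.Agent.LibCSF44
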