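import Pool.Agent.LibCS15.Lifting
import Pool.Agent.LibCS15.Compact
set_option autoImplicit false
namespace Pool.Agent.LibCSF44
open Topology Filter
open Pool.Agent.LibCS15

variable {E : Type} [NormedAddCommGroup E] [InnerProductSpace ℂ E] [CompleteSpace E]

/-- bounded sequences of operators; the value at `0` will be the limit of the values at `N + 1` -/
abbrev Sq (E : Type) [NormedAddCommGroup E] [InnerProductSpace ℂ E] [CompleteSpace E] : Type :=
  BoundedContinuousFunction ℕ (E →L[ℂ] E)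

theorem isClosed_tendsto {X F : Type} [PseudoMetricSpace X] [PseudoMetricSpace F] (a : ℕ → X → F)
    (b : X → F) (C : ℝ) (ha : ∀ N f g, dist (a N f) (a N g) ≤ C * dist f g)
    (hb : ∀ f g, dist (b f) (b g) ≤ C * dist f g) :
    IsClosed {f | Tendsto (fun N => a N f) atTop (𝓝 (b f))} := by
  refine isClosed_of_closure_subset fun f hf => ?_
  rw [Set.mem_setOf_eq, Metric.tendsto_atTop]
  intro ε hε
  have hC : 0 < |C| + 1 := by positivity
  obtain ⟨g, hg, hfg⟩ := Metric.mem_closure_iff.1 hf (ε / (3 * (|C| + 1))) (by positivity)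
  obtain ⟨n, hn⟩ := (Metric.tendsto_atTop.1 hg) (ε / 3) (by positivity)
  have hcd : C * dist f g ≤ ε / 3 := by
    calc C * dist f g ≤ (|C| + 1) * dist f g :=
          mul_le_mul_of_nonneg_right (by linarith [le_abs_self C]) dist_nonneg
      _ ≤ (|C| + 1) * (ε / (3 * (|C| + 1))) := mul_le_mul_of_nonneg_left hfg.le hC.le
      _ = ε / 3 := by field_simp
  refine ⟨n, fun m hm => ?_⟩
  have h1 := ha m f g
  have h2 := hb f g
  have h3 := hn m hm
  calc dist (a m f) (b f) ≤ dist (a m f) (a m g) + dist (a m g) (b g) + dist (b g) (b f) :=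
        dist_triangle4 _ _ _ _
    _ < ε := by rw [dist_comm (b g) (b f)]; linarith

theorem strong_mul {T S : ℕ → E →L[ℂ] E} {T0 S0 : E →L[ℂ] E} {C : ℝ} (hC : ∀ N, ‖T N‖ ≤ C)
    (hT : ∀ ξ, Tendsto (fun N => T N ξ) atTop (𝓝 (T0 ξ)))
    (hS : ∀ ξ, Tendsto (fun N => S N ξ) atTop (𝓝 (S0 ξ))) (ξ : E) :
    Tendsto (fun N => (T N * S N) ξ) atTop (𝓝 ((T0 * S0) ξ)) := by
  have h1 : Tendsto (fun N => T N (S N ξ - S0 ξ)) atTop (𝓝 0) := by
    rw [tendsto_zero_iff_norm_tendsto_zero]
    have h2 : Tendsto (fun N => C * ‖S N ξ - S0 ξ‖) atTop (𝓝 0) := by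
      have h3 := ((hS ξ).sub_const (S0 ξ)).norm
      rw [sub_self, norm_zero] at h3
      have h4 := h3.const_mul C
      rwa [mul_zero] at h4
    refine squeeze_zero (fun N => norm_nonneg _) (fun N => ?_) h2
    exact ((T N).le_opNorm _).trans (mul_le_mul_of_nonneg_right (hC N) (norm_nonneg _))
  have h5 := h1.add (hT (S0 ξ))
  rw [zero_add] at h5
  refine h5.congr fun N => ?_
  show T N (S N ξ - S0 ξ) + T N (S0 ξ) = T N (S N ξ)
  rw [map_sub, sub_add_cancel]

/-- a bounded sequence tending strongly to zero, times a compact operator, tends to zero in norm -/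
theorem tendsto_mul_compact {T : ℕ → E →L[ℂ] E} {C : ℝ} (hC : ∀ N, ‖T N‖ ≤ C)
    (hT : ∀ ξ, Tendsto (fun N => T N ξ) atTop (𝓝 0)) {K : E →L[ℂ] E} (hK : IsCompactOperator K) :
    Tendsto (fun N => T N * K) atTop (𝓝 0) := by
  have hC0 : 0 ≤ C := (norm_nonneg _).trans (hC 0)
  have hKc : IsCompact (closure (K '' Metric.closedBall 0 1)) :=
    IsCompactOperator.isCompact_closure_image_closedBall (f := K.toLinearMap) hK 1
  have htb : TotallyBounded (K '' Metric.closedBall 0 1) :=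
    hKc.totallyBounded.subset subset_closure
  rw [Metric.tendsto_atTop]
  intro ε hε
  obtain ⟨t, htf, htc⟩ := Metric.totallyBounded_iff.1 htb (ε / (4 * (C + 1))) (by positivity)
  have hev : ∀ᶠ N in atTop, ∀ y ∈ t, ‖T N y‖ < ε / 4 := by
    rw [Filter.eventually_all_finite htf]
    intro y _
    have h1 := (hT y).norm
    rw [norm_zero] at h1
    exact h1.eventually (gt_mem_nhds (by positivity))
  obtain ⟨n, hn⟩ := eventually_atTop.1 hev
  refine ⟨n, fun m hm => ?_⟩
  rw [dist_zero_right]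
  refine lt_of_le_of_lt ?_ (half_lt_self hε)
  refine ContinuousLinearMap.opNorm_le_of_unit_norm (𝕜 := ℂ) (half_pos hε).le (fun x hx => ?_)
  have hKx : K x ∈ K '' Metric.closedBall 0 1 :=
    Set.mem_image_of_mem _ (by rw [mem_closedBall_zero_iff, hx])
  have h2 := htc hKx
  simp only [Set.mem_iUnion] at h2
  obtain ⟨y, hy, hd⟩ := h2
  rw [Metric.mem_ball, dist_eq_norm] at hd
  show ‖T m (K x)‖ ≤ ε / 2
  have h3 : T m (K x) = T m (K x - y) + T m y := by rw [map_sub, sub_add_cancel]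
  rw [h3]
  have h4 : ‖T m (K x - y)‖ ≤ ε / 4 := by
    calc ‖T m (K x - y)‖ ≤ ‖T m‖ * ‖K x - y‖ := (T m).le_opNorm _
      _ ≤ (C + 1) * (ε / (4 * (C + 1))) := by
          refine mul_le_mul (by linarith [hC m]) hd.le (norm_nonneg _) (by positivity)
      _ = ε / 4 := by field_simp
  have h5 := hn m hm y hy
  exact (norm_add_le _ _).trans (by linarith)

/-- the sequences commuting with the projections `P N` and converging `*`-strongly -/
noncomputable def strongAlg (P : ℕ → E →L[ℂ] E) : StarSubalgebra ℂ (Sq E) where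
  carrier := {f | (∀ N, f (N + 1) * P N = P N * f (N + 1) ∧
      star (f (N + 1)) * P N = P N * star (f (N + 1))) ∧
    ∀ ξ, Tendsto (fun N => f (N + 1) ξ) atTop (𝓝 (f 0 ξ)) ∧
      Tendsto (fun N => (star (f (N + 1))) ξ) atTop (𝓝 ((star (f 0)) ξ))}
  mul_mem' := by
    rintro f g ⟨hf1, hf2⟩ ⟨hg1, hg2⟩
    refine ⟨fun N => ⟨?_, ?_⟩, fun ξ => ⟨?_, ?_⟩⟩
    · show f (N + 1) * g (N + 1) * P N = P N * (f (N + 1) * g (N + 1))
      rw [mul_assoc, (hg1 N).1, ← mul_assoc, (hf1 N).1, mul_assoc]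
    · show star (f (N + 1) * g (N + 1)) * P N = P N * star (f (N + 1) * g (N + 1))
      rw [star_mul, mul_assoc, (hf1 N).2, ← mul_assoc, (hg1 N).2, mul_assoc]
    · exact strong_mul (C := ‖f‖) (fun N => f.norm_coe_le_norm _) (fun ξ => (hf2 ξ).1)
        (fun ξ => (hg2 ξ).1) ξ
    · have h := strong_mul (C := ‖g‖) (T := fun N => star (g (N + 1)))
        (fun N => (norm_star _).le.trans (g.norm_coe_le_norm _)) (fun ξ => (hg2 ξ).2)
        (fun ξ => (hf2 ξ).2) ξ
      rw [← star_mul] at h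
      refine h.congr fun N => ?_
      rw [← star_mul]
      rfl
  one_mem' := by
    refine ⟨fun N => ⟨?_, ?_⟩, fun ξ => ⟨?_, ?_⟩⟩
    · show (1 : E →L[ℂ] E) * P N = P N * 1
      rw [one_mul, mul_one]
    · show star (1 : E →L[ℂ] E) * P N = P N * star 1
      rw [star_one, one_mul, mul_one]
    · exact tendsto_const_nhds
    · exact tendsto_const_nhds
  add_mem' := by
    rintro f g ⟨hf1, hf2⟩ ⟨hg1, hg2⟩
    refine ⟨fun N => ⟨?_, ?_⟩, fun ξ => ⟨?_, ?_⟩⟩
    · show (f (N + 1) + g (N + 1)) * P N = P N * (f (N + 1) + g (N + 1))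
      rw [add_mul, mul_add, (hf1 N).1, (hg1 N).1]
    · show star (f (N + 1) + g (N + 1)) * P N = P N * star (f (N + 1) + g (N + 1))
      rw [star_add, add_mul, mul_add, (hf1 N).2, (hg1 N).2]
    · exact (hf2 ξ).1.add (hg2 ξ).1
    · have h := (hf2 ξ).2.add (hg2 ξ).2
      have e : (star (f 0)) ξ + (star (g 0)) ξ = (star ((f + g) 0)) ξ := by
        show _ = (star (f 0 + g 0)) ξ
        rw [star_add]; rfl
      rw [e] at h
      refine h.congr fun N => ?_
      show _ = (star (f (N + 1) + g (N + 1))) ξ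
      rw [star_add]; rfl
  zero_mem' := by
    refine ⟨fun N => ⟨?_, ?_⟩, fun ξ => ⟨?_, ?_⟩⟩
    · show (0 : E →L[ℂ] E) * P N = P N * 0
      rw [zero_mul, mul_zero]
    · show star (0 : E →L[ℂ] E) * P N = P N * star 0
      rw [star_zero, zero_mul, mul_zero]
    · exact tendsto_const_nhds
    · exact tendsto_const_nhds
  algebraMap_mem' := by
    intro c
    refine ⟨fun N => ⟨?_, ?_⟩, fun ξ => ⟨?_, ?_⟩⟩
    · show (c • (1 : E →L[ℂ] E)) * P N = P N * (c • (1 : E →L[ℂ] E))
      rw [smul_mul_assoc, mul_smul_comm, one_mul, mul_one]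
    · show star (c • (1 : E →L[ℂ] E)) * P N = P N * star (c • (1 : E →L[ℂ] E))
      rw [star_smul, star_one, smul_mul_assoc, mul_smul_comm, one_mul, mul_one]
    · exact tendsto_const_nhds
    · exact tendsto_const_nhds
  star_mem' := by
    rintro f ⟨hf1, hf2⟩
    refine ⟨fun N => ⟨(hf1 N).2, ?_⟩, fun ξ => ⟨(hf2 ξ).2, ?_⟩⟩
    · show star (star (f (N + 1))) * P N = P N * star (star (f (N + 1)))
      rw [star_star]; exact (hf1 N).1
    · have h := (hf2 ξ).1
      show Tendsto (fun N => (star (star (f (N + 1)))) ξ) atTop (𝓝 ((star (star (f 0))) ξ))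
      simp only [star_star]
      exact h

theorem mem_strongAlg {P : ℕ → E →L[ℂ] E} {f : Sq E} : f ∈ strongAlg P ↔
    (∀ N, f (N + 1) * P N = P N * f (N + 1) ∧ star (f (N + 1)) * P N = P N * star (f (N + 1))) ∧
    ∀ ξ, Tendsto (fun N => f (N + 1) ξ) atTop (𝓝 (f 0 ξ)) ∧
      Tendsto (fun N => (star (f (N + 1))) ξ) atTop (𝓝 ((star (f 0)) ξ)) := Iff.rfl

theorem isClosed_strongAlg (P : ℕ → E →L[ℂ] E) : IsClosed (strongAlg P : Set (Sq E)) := by
  have hev : ∀ m, Continuous (fun f : Sq E => f m) := fun m =>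
    (BoundedContinuousFunction.lipschitz_eval_const m).continuous
  have e : (strongAlg P : Set (Sq E)) =
      ((⋂ N, {f : Sq E | f (N + 1) * P N = P N * f (N + 1)}) ∩
        ⋂ N, {f : Sq E | star (f (N + 1)) * P N = P N * star (f (N + 1))}) ∩
      ((⋂ ξ, {f : Sq E | Tendsto (fun N => f (N + 1) ξ) atTop (𝓝 (f 0 ξ))}) ∩
        ⋂ ξ, {f : Sq E | Tendsto (fun N => (star (f (N + 1))) ξ) atTop (𝓝 ((star (f 0)) ξ))}) := by
    ext f
    rw [SetLike.mem_coe, mem_strongAlg]
    simp only [Set.mem_inter_iff, Set.mem_iInter, Set.mem_setOf_eq]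
    constructor
    · rintro ⟨h1, h2⟩
      exact ⟨⟨fun N => (h1 N).1, fun N => (h1 N).2⟩, fun ξ => (h2 ξ).1, fun ξ => (h2 ξ).2⟩
    · rintro ⟨⟨h1, h2⟩, h3, h4⟩
      exact ⟨fun N => ⟨h1 N, h2 N⟩, fun ξ => ⟨h3 ξ, h4 ξ⟩⟩
  have hd : ∀ (m : ℕ) (ξ : E) (f g : Sq E), dist (f m ξ) (g m ξ) ≤ ‖ξ‖ * dist f g := by
    intro m ξ f g
    rw [dist_eq_norm, dist_eq_norm]
    have h1 : f m ξ - g m ξ = ((f - g) m) ξ := rfl
    rw [h1, mul_comm]
    exact (((f - g) m).le_opNorm ξ).trans
      (mul_le_mul_of_nonneg_right ((f - g).norm_coe_le_norm m) (norm_nonneg _))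
  have hd' : ∀ (m : ℕ) (ξ : E) (f g : Sq E),
      dist ((star (f m)) ξ) ((star (g m)) ξ) ≤ ‖ξ‖ * dist f g := by
    intro m ξ f g
    rw [dist_eq_norm, dist_eq_norm]
    have h1 : (star (f m)) ξ - (star (g m)) ξ = (star ((f - g) m)) ξ := by
      show _ = (star (f m - g m)) ξ
      rw [star_sub]; rfl
    rw [h1, mul_comm]
    refine ((star ((f - g) m)).le_opNorm ξ).trans
      (mul_le_mul_of_nonneg_right ?_ (norm_nonneg _))
    rw [norm_star]
    exact (f - g).norm_coe_le_norm m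
  rw [e]
  refine IsClosed.inter (IsClosed.inter ?_ ?_) (IsClosed.inter ?_ ?_)
  · exact isClosed_iInter fun N => isClosed_eq ((hev _).mul continuous_const)
      (continuous_const.mul (hev _))
  · exact isClosed_iInter fun N => isClosed_eq ((continuous_star.comp (hev _)).mul continuous_const)
      (continuous_const.mul (continuous_star.comp (hev _)))
  · exact isClosed_iInter fun ξ => isClosed_tendsto (fun N f => f (N + 1) ξ) (fun f => f 0 ξ) ‖ξ‖
      (fun N f g => hd _ ξ f g) (fun f g => hd _ ξ f g)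
  · exact isClosed_iInter fun ξ => isClosed_tendsto (fun N f => (star (f (N + 1))) ξ)
      (fun f => (star (f 0)) ξ) ‖ξ‖ (fun N f g => hd' _ ξ f g) (fun f g => hd' _ ξ f g)

noncomputable instance instStrongAlg (P : ℕ → E →L[ℂ] E) : CStarAlgebra (strongAlg P) :=
  StarSubalgebra.cstarAlgebra (strongAlg P) (h_closed := isClosed_strongAlg P)

/-- the ideal of the sequences with compact limit, converging in norm -/
def strongIdeal (P : ℕ → E →L[ℂ] E) : Set (strongAlg P) :=
  {f | IsCompactOperator ((f : Sq E) 0 : E →L[ℂ] E) ∧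
    Tendsto (fun N => (f : Sq E) (N + 1) - (f : Sq E) 0) atTop (𝓝 0)}

theorem isClosedIdeal_strongIdeal (P : ℕ → E →L[ℂ] E) : IsClosedIdeal (strongIdeal P) := by
  have hI := isClosedIdeal_compact (E := E)
  have hev : ∀ m, Continuous (fun f : strongAlg P => (f : Sq E) m) := fun m =>
    (BoundedContinuousFunction.lipschitz_eval_const m).continuous.comp continuous_subtype_val
  have hleft : ∀ b x : strongAlg P, x ∈ strongIdeal P → b * x ∈ strongIdeal P := by
    intro b x hx
    refine ⟨hI.mul_mem_left _ _ hx.1, ?_⟩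
    have h1 : Tendsto (fun N => (b : Sq E) (N + 1) * ((x : Sq E) (N + 1) - (x : Sq E) 0)) atTop
        (𝓝 0) := by
      rw [tendsto_zero_iff_norm_tendsto_zero]
      have h2 : Tendsto (fun N => ‖(b : Sq E)‖ * ‖(x : Sq E) (N + 1) - (x : Sq E) 0‖) atTop
          (𝓝 0) := by
        have h3 := hx.2.norm
        rw [norm_zero] at h3
        have h4 := h3.const_mul ‖(b : Sq E)‖
        rwa [mul_zero] at h4
      refine squeeze_zero (fun N => norm_nonneg _) (fun N => ?_) h2
      exact (norm_mul_le _ _).trans (mul_le_mul_of_nonneg_right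
        ((b : Sq E).norm_coe_le_norm _) (norm_nonneg _))
    have h5 : Tendsto (fun N => ((b : Sq E) (N + 1) - (b : Sq E) 0) * (x : Sq E) 0) atTop
        (𝓝 0) := by
      refine tendsto_mul_compact (C := ‖(b : Sq E)‖ + ‖(b : Sq E)‖) (fun N => ?_) (fun ξ => ?_) hx.1
      · exact (norm_sub_le _ _).trans (add_le_add ((b : Sq E).norm_coe_le_norm _)
          ((b : Sq E).norm_coe_le_norm _))
      · have h6 := ((mem_strongAlg.1 b.2).2 ξ).1.sub_const ((b : Sq E) 0 ξ)
        rw [sub_self] at h6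
        exact h6
    have h7 := h1.add h5
    rw [add_zero] at h7
    refine h7.congr fun N => ?_
    show (b : Sq E) (N + 1) * ((x : Sq E) (N + 1) - (x : Sq E) 0) +
      ((b : Sq E) (N + 1) - (b : Sq E) 0) * (x : Sq E) 0 =
      (b : Sq E) (N + 1) * (x : Sq E) (N + 1) - (b : Sq E) 0 * (x : Sq E) 0
    noncomm_ring
  have hstar : ∀ x : strongAlg P, x ∈ strongIdeal P → star x ∈ strongIdeal P := by
    intro x hx
    refine ⟨hI.star_mem _ hx.1, ?_⟩
    have h1 := (continuous_star.tendsto (0 : E →L[ℂ] E)).comp hx.2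
    rw [star_zero] at h1
    refine h1.congr fun N => ?_
    show star ((x : Sq E) (N + 1) - (x : Sq E) 0) = star ((x : Sq E) (N + 1)) - star ((x : Sq E) 0)
    rw [star_sub]
  refine ⟨?_, ?_, ?_, ?_, hleft, ?_, hstar⟩
  · have e : strongIdeal P = {f : strongAlg P | (f : Sq E) 0 ∈ {T : E →L[ℂ] E | IsCompactOperator T}} ∩
        {f : strongAlg P | Tendsto (fun N => (f : Sq E) (N + 1) - (f : Sq E) 0) atTop (𝓝 0)} := rfl
    rw [e]
    refine IsClosed.inter (hI.isClosed.preimage (hev 0)) ?_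
    refine isClosed_tendsto (fun N (f : strongAlg P) => (f : Sq E) (N + 1) - (f : Sq E) 0)
      (fun _ => 0) 2 (fun N f g => ?_) (fun f g => by
        rw [dist_self]; exact mul_nonneg zero_le_two dist_nonneg)
    rw [dist_eq_norm]
    have h1 : (f : Sq E) (N + 1) - (f : Sq E) 0 - ((g : Sq E) (N + 1) - (g : Sq E) 0) =
        ((f : Sq E) - g) (N + 1) - ((f : Sq E) - g) 0 := by
      show _ = ((f : Sq E) (N + 1) - (g : Sq E) (N + 1)) - ((f : Sq E) 0 - (g : Sq E) 0)
      abel
    rw [h1]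
    have h2 : dist f g = ‖(f : Sq E) - g‖ := by
      rw [Subtype.dist_eq, dist_eq_norm]
    rw [h2, two_mul]
    exact (norm_sub_le _ _).trans (add_le_add (BoundedContinuousFunction.norm_coe_le_norm _ _)
      (BoundedContinuousFunction.norm_coe_le_norm _ _))
  · refine ⟨hI.zero_mem, ?_⟩
    show Tendsto (fun _ : ℕ => (0 : E →L[ℂ] E) - 0) atTop (𝓝 0)
    rw [sub_zero]
    exact tendsto_const_nhds
  · rintro x hx y hy
    refine ⟨hI.add_mem _ hx.1 _ hy.1, ?_⟩
    have h1 := hx.2.add hy.2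
    rw [add_zero] at h1
    refine h1.congr fun N => ?_
    show _ = (x : Sq E) (N + 1) + (y : Sq E) (N + 1) - ((x : Sq E) 0 + (y : Sq E) 0)
    abel
  · rintro c x hx
    refine ⟨hI.smul_mem c _ hx.1, ?_⟩
    have h1 := hx.2.const_smul c
    rw [smul_zero] at h1
    refine h1.congr fun N => ?_
    show c • ((x : Sq E) (N + 1) - (x : Sq E) 0) = c • (x : Sq E) (N + 1) - c • (x : Sq E) 0
    rw [smul_sub]
  · intro b x hx
    have h1 := hstar _ (hleft (star b) (star x) (hstar x hx))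
    rwa [star_mul, star_star, star_star] at h1

end Pool.Agent.LibCSF44
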