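import Mathlib
set_option autoImplicit false
namespace Pool.Agent.LibCSF44
open Topology Filter

section
variable {D : Type} [CStarAlgebra D]

theorem norm_le_one_of_star_mul {S : D} (hS : star S * S = 1) : ‖S‖ ≤ 1 := by
  have h1 : ‖S‖ * ‖S‖ = ‖(1 : D)‖ := by rw [← CStarRing.norm_star_mul_self, hS]
  have h2 : ‖(1 : D)‖ ≤ 1 := by
    rcases subsingleton_or_nontrivial D with hD | hD
    · rw [Subsingleton.elim (1 : D) 0]; simp
    · rw [CStarRing.norm_one]
  nlinarith [norm_nonneg S]

theorem norm_star_le_one {S : D} (hS : star S * S = 1) : ‖star S‖ ≤ 1 := by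
  rw [norm_star]; exact norm_le_one_of_star_mul hS

theorem norm_star_pow_le_one {S : D} (hS : star S * S = 1) (R : ℕ) : ‖star S ^ R‖ ≤ 1 := by
  rcases Nat.eq_zero_or_pos R with h | h
  · subst h
    rw [pow_zero]
    rcases subsingleton_or_nontrivial D with hD | hD
    · rw [Subsingleton.elim (1 : D) 0]; simp
    · rw [CStarRing.norm_one]
  · exact (norm_pow_le' _ h).trans (pow_le_one₀ (norm_nonneg _) (norm_star_le_one hS))

theorem norm_proj_le_one {p : D} (h1 : star p = p) (h2 : p * p = p) : ‖p‖ ≤ 1 := by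
  have h3 : ‖p‖ * ‖p‖ = ‖p‖ := by
    have := CStarRing.norm_star_mul_self (x := p)
    rw [h1, h2] at this
    exact this.symm
  nlinarith [norm_nonneg p]

/-- the projection onto the complement of the range of `S ^ R` -/
noncomputable def pr (S : D) (R : ℕ) : D := 1 - S ^ R * star S ^ R

theorem star_pr (S : D) (R : ℕ) : star (pr S R) = pr S R := by
  unfold pr
  rw [star_sub, star_one, star_mul, star_pow, star_pow, star_star]

theorem star_pow_mul_pow {S : D} (hS : star S * S = 1) (R : ℕ) : star S ^ R * S ^ R = 1 := by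
  induction R with
  | zero => simp
  | succ n ih =>
    rw [pow_succ, pow_succ', mul_assoc, ← mul_assoc (star S), hS, one_mul, ih]

theorem pr_mul_pr_add {S : D} (hS : star S * S = 1) (R k : ℕ) : pr S R * pr S (R + k) = pr S R := by
  unfold pr
  have h : S ^ R * star S ^ R * (S ^ (R + k) * star S ^ (R + k)) = S ^ (R + k) * star S ^ (R + k) := by
    calc S ^ R * star S ^ R * (S ^ (R + k) * star S ^ (R + k))
        = S ^ R * (star S ^ R * S ^ R) * (S ^ k * star S ^ (R + k)) := by
          rw [pow_add S R k]; simp only [mul_assoc]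
      _ = S ^ (R + k) * star S ^ (R + k) := by
          rw [star_pow_mul_pow hS, mul_one, pow_add S R k, mul_assoc]
  rw [sub_mul, one_mul, mul_sub, mul_one, h]
  abel

theorem pr_mul_pr {S : D} (hS : star S * S = 1) {R Q : ℕ} (h : R ≤ Q) : pr S R * pr S Q = pr S R := by
  obtain ⟨k, rfl⟩ := Nat.exists_eq_add_of_le h
  exact pr_mul_pr_add hS R k

theorem pr_mul_pr' {S : D} (hS : star S * S = 1) {R Q : ℕ} (h : R ≤ Q) : pr S Q * pr S R = pr S R := by
  have h1 := congrArg star (pr_mul_pr hS h)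
  rwa [star_mul, star_pr, star_pr] at h1

theorem norm_pr_le {S : D} (hS : star S * S = 1) (R : ℕ) : ‖pr S R‖ ≤ 1 :=
  norm_proj_le_one (star_pr S R) (pr_mul_pr hS le_rfl)

theorem pr_succ_mul {S : D} (hS : star S * S = 1) (R : ℕ) : pr S (R + 1) * S = S * pr S R := by
  unfold pr
  rw [sub_mul, one_mul, mul_sub, mul_one]
  congr 1
  calc S ^ (R + 1) * star S ^ (R + 1) * S = S ^ (R + 1) * star S ^ R * (star S * S) := by
        rw [pow_succ (star S)]; simp only [mul_assoc]
    _ = S * (S ^ R * star S ^ R) := by rw [hS, mul_one, pow_succ', mul_assoc]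

theorem mul_pr_mul_star (S : D) (R : ℕ) : S * pr S R * star S = pr S (R + 1) - pr S 1 := by
  unfold pr
  rw [mul_sub, mul_one, sub_mul, pow_one, pow_one, pow_succ' S R, pow_succ (star S) R]
  simp only [mul_assoc]
  abel

/-- the averages of the projections -/
noncomputable def om (S : D) (N : ℕ) : D :=
  ((1 : ℂ) / ((N : ℂ) + 1)) • ∑ j ∈ Finset.range (N + 1), pr S (N + 1 + j)

theorem star_om (S : D) (N : ℕ) : star (om S N) = om S N := by
  unfold om
  rw [star_smul, star_sum]
  have h1 : star ((1 : ℂ) / ((N : ℂ) + 1)) = 1 / ((N : ℂ) + 1) := by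
    simp
  rw [h1]
  simp only [star_pr]

theorem om_mul_pr {S : D} (hS : star S * S = 1) {N Q : ℕ} (h : 2 * N + 1 ≤ Q) :
    om S N * pr S Q = om S N := by
  unfold om
  rw [smul_mul_assoc, Finset.sum_mul]
  congr 1
  refine Finset.sum_congr rfl fun j hj => pr_mul_pr hS ?_
  have := Finset.mem_range.1 hj
  omega

theorem pr_mul_om {S : D} (hS : star S * S = 1) {N Q : ℕ} (h : 2 * N + 1 ≤ Q) :
    pr S Q * om S N = om S N := by
  have h1 := congrArg star (om_mul_pr hS h)
  rwa [star_mul, star_pr, star_om] at h1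

theorem one_mul_om {S : D} (hS : star S * S = 1) (N : ℕ) : pr S 1 * om S N = pr S 1 := by
  unfold om
  rw [mul_smul_comm, Finset.mul_sum]
  have h1 : ∀ j ∈ Finset.range (N + 1), pr S 1 * pr S (N + 1 + j) = pr S 1 := fun j _ =>
    pr_mul_pr hS (by omega)
  rw [Finset.sum_congr rfl h1, Finset.sum_const, Finset.card_range, ← Nat.cast_smul_eq_nsmul ℂ,
    smul_smul]
  have h2 : (1 : ℂ) / ((N : ℂ) + 1) * ((N + 1 : ℕ) : ℂ) = 1 := by
    push_cast
    have h3 : ((N : ℂ) + 1) ≠ 0 := by exact_mod_cast Nat.succ_ne_zero N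
    field_simp
  rw [h2, one_smul]

theorem om_mul_one {S : D} (hS : star S * S = 1) (N : ℕ) : om S N * pr S 1 = pr S 1 := by
  have h1 := congrArg star (one_mul_om hS N)
  rwa [star_mul, star_pr, star_om] at h1

private theorem norm_coef (N : ℕ) : ‖(1 : ℂ) / ((N : ℂ) + 1)‖ = 1 / ((N : ℝ) + 1) := by
  rw [norm_div, norm_one]
  congr 1
  have h : ((N : ℂ) + 1) = (((N : ℝ) + 1 : ℝ) : ℂ) := by push_cast; rfl
  rw [h, Complex.norm_real, Real.norm_eq_abs, abs_of_pos (by positivity)]

theorem norm_om_le {S : D} (hS : star S * S = 1) (N : ℕ) : ‖om S N‖ ≤ 1 := by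
  unfold om
  rw [norm_smul, norm_coef]
  have h1 : ‖∑ j ∈ Finset.range (N + 1), pr S (N + 1 + j)‖ ≤ (N : ℝ) + 1 := by
    refine (norm_sum_le _ _).trans ?_
    refine (Finset.sum_le_sum fun j _ => norm_pr_le hS _).trans ?_
    rw [Finset.sum_const, Finset.card_range, nsmul_eq_mul, mul_one]
    push_cast
    rfl
  have hN : (0 : ℝ) < (N : ℝ) + 1 := by positivity
  calc 1 / ((N : ℝ) + 1) * ‖∑ j ∈ Finset.range (N + 1), pr S (N + 1 + j)‖
      ≤ 1 / ((N : ℝ) + 1) * ((N : ℝ) + 1) := by gcongr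
    _ = 1 := by field_simp

/-- the error term -/
noncomputable def er (S : D) (N : ℕ) : D :=
  ((1 : ℂ) / ((N : ℂ) + 1)) • (pr S (2 * N + 2) - pr S (N + 1))

theorem norm_er_le {S : D} (hS : star S * S = 1) (N : ℕ) : ‖er S N‖ ≤ 2 / ((N : ℝ) + 1) := by
  unfold er
  rw [norm_smul, norm_coef]
  have h1 : ‖pr S (2 * N + 2) - pr S (N + 1)‖ ≤ 2 :=
    (norm_sub_le _ _).trans (by linarith [norm_pr_le hS (2 * N + 2), norm_pr_le hS (N + 1)])
  calc 1 / ((N : ℝ) + 1) * ‖pr S (2 * N + 2) - pr S (N + 1)‖ ≤ 1 / ((N : ℝ) + 1) * 2 := by gcongr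
    _ = 2 / ((N : ℝ) + 1) := by ring

theorem mul_om_mul_star (S : D) (N : ℕ) : S * om S N * star S = om S N + er S N - pr S 1 := by
  unfold om er
  rw [mul_smul_comm, smul_mul_assoc, Finset.mul_sum, Finset.sum_mul]
  have h1 : ∀ j ∈ Finset.range (N + 1), S * pr S (N + 1 + j) * star S =
      pr S (N + 1 + (j + 1)) - pr S 1 := fun j _ => by
    rw [mul_pr_mul_star]; rfl
  rw [Finset.sum_congr rfl h1, Finset.sum_sub_distrib, Finset.sum_const, Finset.card_range]
  have h2 : ∑ j ∈ Finset.range (N + 1), pr S (N + 1 + (j + 1)) =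
      ∑ j ∈ Finset.range (N + 1), pr S (N + 1 + j) + (pr S (2 * N + 2) - pr S (N + 1)) := by
    have h3 := Finset.sum_range_succ (fun j => pr S (N + 1 + j)) (N + 1)
    have h4 := Finset.sum_range_succ' (fun j => pr S (N + 1 + j)) (N + 1)
    rw [h3] at h4
    have h5 : N + 1 + (N + 1) = 2 * N + 2 := by ring
    rw [h5, add_zero] at h4
    rw [add_sub_assoc', h4, add_sub_cancel_right]
  rw [h2, smul_sub, smul_add, ← Nat.cast_smul_eq_nsmul ℂ, smul_smul]
  have h6 : (1 : ℂ) / ((N : ℂ) + 1) * ((N + 1 : ℕ) : ℂ) = 1 := by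
    push_cast
    have h3 : ((N : ℂ) + 1) ≠ 0 := by exact_mod_cast Nat.succ_ne_zero N
    field_simp
  rw [h6, one_smul]

theorem er_mul_one {S : D} (hS : star S * S = 1) (N : ℕ) : er S N * pr S 1 = 0 := by
  unfold er
  rw [smul_mul_assoc, sub_mul, pr_mul_pr' hS (by omega), pr_mul_pr' hS (by omega), sub_self,
    smul_zero]

theorem one_mul_er {S : D} (hS : star S * S = 1) (N : ℕ) : pr S 1 * er S N = 0 := by
  unfold er
  rw [mul_smul_comm, mul_sub, pr_mul_pr hS (by omega), pr_mul_pr hS (by omega), sub_self,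
    smul_zero]

/-- the truncated shifts -/
noncomputable def xs (S : D) (N : ℕ) : D := S * om S N

theorem norm_xs_le {S : D} (hS : star S * S = 1) (N : ℕ) : ‖xs S N‖ ≤ 1 := by
  unfold xs
  have h1 := norm_le_one_of_star_mul hS
  have h2 := norm_om_le hS N
  calc ‖S * om S N‖ ≤ ‖S‖ * ‖om S N‖ := norm_mul_le _ _
    _ ≤ 1 * 1 := by gcongr
    _ = 1 := by norm_num

theorem xs_mul_pr {S : D} (hS : star S * S = 1) (N : ℕ) :
    xs S N * pr S (2 * N + 2) = pr S (2 * N + 2) * xs S N := by
  unfold xs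
  rw [mul_assoc, om_mul_pr hS (by omega), ← mul_assoc, pr_succ_mul hS, mul_assoc,
    pr_mul_om hS le_rfl]

theorem star_xs_mul_pr {S : D} (hS : star S * S = 1) (N : ℕ) :
    star (xs S N) * pr S (2 * N + 2) = pr S (2 * N + 2) * star (xs S N) := by
  have h1 := congrArg star (xs_mul_pr hS N)
  rw [star_mul, star_mul, star_pr] at h1
  exact h1.symm

theorem comm_xs {S : D} (hS : star S * S = 1) (N : ℕ) :
    star (xs S N) * xs S N - xs S N * star (xs S N) =
      (star S * S - S * star S) - (om S N * er S N + er S N * om S N + er S N * er S N) := by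
  have h1 : star (xs S N) * xs S N = om S N * om S N := by
    unfold xs
    rw [star_mul, star_om]
    calc om S N * star S * (S * om S N) = om S N * (star S * S) * om S N := by
          simp only [mul_assoc]
      _ = om S N * om S N := by rw [hS, mul_one]
  have h2 : xs S N * star (xs S N) = (om S N + er S N - pr S 1) * (om S N + er S N - pr S 1) := by
    rw [← mul_om_mul_star]
    unfold xs
    rw [star_mul, star_om]
    calc S * om S N * (om S N * star S) = S * om S N * (star S * S) * om S N * star S := by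
          rw [hS, mul_one]; simp only [mul_assoc]
      _ = S * om S N * star S * (S * om S N * star S) := by simp only [mul_assoc]
  have h3 : star S * S - S * star S = pr S 1 := by
    unfold pr; rw [hS, pow_one, pow_one]
  have h4 := om_mul_one hS N
  have h5 := one_mul_om hS N
  have h6 := er_mul_one hS N
  have h7 := one_mul_er hS N
  have h8 : pr S 1 * pr S 1 = pr S 1 := pr_mul_pr hS le_rfl
  rw [h1, h2, h3]
  have h9 : (om S N + er S N - pr S 1) * (om S N + er S N - pr S 1) =
      om S N * om S N + om S N * er S N - om S N * pr S 1 + er S N * om S N + er S N * er S N -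
        er S N * pr S 1 - pr S 1 * om S N - pr S 1 * er S N + pr S 1 * pr S 1 := by
    noncomm_ring
  rw [h9, h4, h5, h6, h7, h8]
  abel

theorem norm_comm_xs_le {S : D} (hS : star S * S = 1) (N : ℕ) :
    ‖(star (xs S N) * xs S N - xs S N * star (xs S N)) - (star S * S - S * star S)‖ ≤
      8 / ((N : ℝ) + 1) := by
  rw [comm_xs hS]
  have h1 := norm_om_le hS N
  have h2 := norm_er_le hS N
  have hN : (1 : ℝ) ≤ (N : ℝ) + 1 := by linarith [(Nat.cast_nonneg N : (0 : ℝ) ≤ N)]
  have h3 : 2 / ((N : ℝ) + 1) ≤ 2 := by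
    rw [div_le_iff₀ (by linarith)]; linarith
  have h4 : ‖er S N‖ ≤ 2 := h2.trans h3
  have e : (star S * S - S * star S) - (om S N * er S N + er S N * om S N + er S N * er S N) -
      (star S * S - S * star S) = -(om S N * er S N + er S N * om S N + er S N * er S N) := by abel
  rw [e, norm_neg]
  calc ‖om S N * er S N + er S N * om S N + er S N * er S N‖
      ≤ ‖om S N‖ * ‖er S N‖ + ‖er S N‖ * ‖om S N‖ + ‖er S N‖ * ‖er S N‖ :=
        (norm_add_le _ _).trans (add_le_add ((norm_add_le _ _).trans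
          (add_le_add (norm_mul_le _ _) (norm_mul_le _ _))) (norm_mul_le _ _))
    _ ≤ 1 * (2 / ((N : ℝ) + 1)) + (2 / ((N : ℝ) + 1)) * 1 + 2 * (2 / ((N : ℝ) + 1)) := by
        gcongr
    _ = 8 / ((N : ℝ) + 1) := by ring

end

end Pool.Agent.LibCSF44
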