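import Pool.Agent.LibCS15.ShiftFrame
import Pool.Agent.LibCSF44.Strong
import Pool.Agent.LibCSF44.Trunc
set_option autoImplicit false
namespace Pool.Agent.LibCSF44
open Topology Filter

open Pool.Agent.LibCS15

/-- the standard basis vectors -/
private noncomputable def ev (k : ℕ) : E2 := lp.single 2 k (1 : ℂ)

private theorem inner_ev (k : ℕ) (f : E2) : inner ℂ (ev k) f = (f : ℕ → ℂ) k := by
  unfold ev
  rw [lp.inner_single_left]
  simp

private theorem ev_apply (k j : ℕ) : (ev k : ℕ → ℂ) j = if j = k then 1 else 0 := by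
  unfold ev
  rw [lp.single_apply, Pi.single_apply]

private theorem orth {φ : ℕ → ℕ} (hφ : Function.Injective φ) :
    Orthonormal ℂ (fun k => ev (φ k)) := by
  rw [orthonormal_iff_ite]
  intro i j
  rw [inner_ev, ev_apply]
  by_cases h : i = j
  · subst h; simp
  · rw [if_neg h, if_neg (fun h' => h (hφ h'))]

/-- the isometry `e_k ↦ e_{φ k}` -/
private noncomputable def Viso {φ : ℕ → ℕ} (hφ : Function.Injective φ) : E2 →ₗᵢ[ℂ] E2 :=
  (orth hφ).orthogonalFamily.linearIsometry

private theorem Viso_ev {φ : ℕ → ℕ} (hφ : Function.Injective φ) (k : ℕ) :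
    Viso hφ (ev k) = ev (φ k) := by
  unfold Viso
  conv_lhs => rw [ev]
  rw [OrthogonalFamily.linearIsometry_apply_single]
  simp [LinearIsometry.toSpanSingleton]

private noncomputable def V {φ : ℕ → ℕ} (hφ : Function.Injective φ) : E2 →L[ℂ] E2 :=
  (Viso hφ).toContinuousLinearMap

private theorem V_ev {φ : ℕ → ℕ} (hφ : Function.Injective φ) (k : ℕ) :
    V hφ (ev k) = ev (φ k) := Viso_ev hφ k

private theorem ext_ev {A B : E2 →L[ℂ] E2} (h : ∀ k, A (ev k) = B (ev k)) : A = B := by
  ext1 f
  have hf : HasSum (fun i => lp.single 2 i ((f : ℕ → ℂ) i)) f :=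
    lp.hasSum_single (by norm_num) f
  have hs : ∀ i, lp.single 2 i ((f : ℕ → ℂ) i) = ((f : ℕ → ℂ) i) • ev i := by
    intro i
    unfold ev
    rw [← lp.single_smul]
    simp
  have hA := hf.mapL A
  have hB := hf.mapL B
  have : (fun i => A (lp.single 2 i ((f : ℕ → ℂ) i))) =
      fun i => B (lp.single 2 i ((f : ℕ → ℂ) i)) := by
    funext i
    rw [hs i, map_smul, map_smul, h i]
  rw [this] at hA
  exact hA.unique hB

private theorem star_V_ev {φ : ℕ → ℕ} (hφ : Function.Injective φ) (k j : ℕ) :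
    ((star (V hφ)) (ev k) : ℕ → ℂ) j = if φ j = k then 1 else 0 := by
  rw [← inner_ev, ContinuousLinearMap.star_eq_adjoint, ContinuousLinearMap.adjoint_inner_right,
    V_ev, inner_ev, ev_apply]

private theorem star_V_mul_V {φ : ℕ → ℕ} (hφ : Function.Injective φ) :
    star (V hφ) * V hφ = 1 := by
  refine ext_ev fun k => ?_
  show star (V hφ) (V hφ (ev k)) = ev k
  rw [V_ev]
  ext j
  rw [star_V_ev, ev_apply]
  simp only [hφ.eq_iff]

private theorem star_V_mul_V_ne {φ ψ : ℕ → ℕ} (hφ : Function.Injective φ)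
    (hψ : Function.Injective ψ) (h : ∀ i j, φ i ≠ ψ j) :
    star (V hφ) * V hψ = 0 := by
  refine ext_ev fun k => ?_
  show star (V hφ) (V hψ (ev k)) = 0
  rw [V_ev]
  ext j
  rw [star_V_ev, if_neg (h j k)]
  rfl

/-- a frame in `B(ℓ²)` for every nonempty finite type (`ℕ ≃ n × ℕ`), together with the unilateral shift `S`: for instance
`OrthogonalFamily.linearIsometry`, or `LinearIsometryEquiv.piLpCongrLeft`-like reindexing along `ℕ ≃ n × ℕ`; any isometry `S` whose
range has codimension one will do (`1 - S * star S` is a projection of rank one) -/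
theorem exists_shift_frame (n : Type) [Fintype n] [Nonempty n] :
    ∃ (ι : n → (E2 →L[ℂ] E2)) (S : E2 →L[ℂ] E2), IsFrame ι ∧ star S * S = 1 ∧ S * star S ≠ 1 ∧
      IsCompactOperator (1 - S * star S : E2 →L[ℂ] E2) ∧
      ∀ ξ, Tendsto (fun R : ℕ => ((star S) ^ R) ξ) atTop (𝓝 0) := by
  classical
  obtain ⟨e⟩ : Nonempty (n × ℕ ≃ ℕ) := nonempty_equiv_of_countable
  have hinj : ∀ a : n, Function.Injective (fun k => e (a, k)) := by
    intro a i j h
    have := e.injective h
    exact (Prod.mk.inj this).2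
  have hdis : ∀ a b : n, a ≠ b → ∀ i j, e (a, i) ≠ e (b, j) := by
    intro a b hab i j h
    exact hab (Prod.mk.inj (e.injective h)).1
  have hsucc : Function.Injective Nat.succ := Nat.succ_injective
  have hS0 : star (V hsucc) (ev 0) = 0 := by
    ext j
    rw [star_V_ev, if_neg (Nat.succ_ne_zero j)]
    rfl
  have hSs : ∀ k, star (V hsucc) (ev (k + 1)) = ev k := by
    intro k
    ext j
    rw [star_V_ev, ev_apply]
    simp
  refine ⟨fun a => V (hinj a), V hsucc, ⟨fun a => star_V_mul_V _, fun a b hab =>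
    star_V_mul_V_ne _ _ (hdis a b hab), ?_⟩, star_V_mul_V _, ?_, ?_, ?_⟩
  · refine ext_ev fun k => ?_
    obtain ⟨⟨a0, l⟩, rfl⟩ := e.surjective k
    have h1 : ∀ a : n, (V (hinj a) * star (V (hinj a))) (ev (e (a0, l))) =
        if a = a0 then ev (e (a0, l)) else 0 := by
      intro a
      show V (hinj a) (star (V (hinj a)) (ev (e (a0, l)))) = _
      have h2 : ev (e (a0, l)) = V (hinj a0) (ev l) := (V_ev (hinj a0) l).symm
      by_cases h : a = a0
      · subst h
        rw [if_pos rfl, h2]
        have h3 : star (V (hinj a)) (V (hinj a) (ev l)) = ev l := by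
          have := congrArg (fun A : E2 →L[ℂ] E2 => A (ev l)) (star_V_mul_V (hinj a))
          exact this
        rw [h3]
      · rw [if_neg h, h2]
        have h3 : star (V (hinj a)) (V (hinj a0) (ev l)) = 0 := by
          have := congrArg (fun A : E2 →L[ℂ] E2 => A (ev l))
            (star_V_mul_V_ne (hinj a) (hinj a0) (hdis a a0 h))
          exact this
        rw [h3, map_zero]
    rw [sum_apply, Finset.sum_congr rfl (fun a _ => h1 a),
      Finset.sum_ite_eq' Finset.univ a0, if_pos (Finset.mem_univ _)]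
    rfl
  · intro h
    have h1 := congrArg (fun A : E2 →L[ℂ] E2 => A (ev 0)) h
    have h2 : V hsucc (star (V hsucc) (ev 0)) = ev 0 := h1
    rw [hS0, map_zero] at h2
    have h3 := congrArg (fun f : E2 => (f : ℕ → ℂ) 0) h2
    simp only [ev_apply] at h3
    simp at h3
  · have hrank : (1 - V hsucc * star (V hsucc) : E2 →L[ℂ] E2) =
        (ContinuousLinearMap.toSpanSingleton ℂ (ev 0)).comp (innerSL ℂ (ev 0)) := by
      refine ext_ev fun k => ?_
      show ev k - V hsucc (star (V hsucc) (ev k)) = (inner ℂ (ev 0) (ev k)) • ev 0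
      rw [inner_ev, ev_apply]
      rcases k with _ | k
      · rw [hS0, map_zero, if_pos rfl, one_smul, sub_zero]
      · rw [hSs, V_ev, if_neg (by omega), zero_smul, sub_self]
    rw [hrank]
    exact (isCompactOperator_of_locallyCompactSpace_dom (innerSL ℂ (ev 0))).clm_comp
      (ContinuousLinearMap.toSpanSingleton ℂ (ev 0))
  · have hz : ∀ k, ((star (V hsucc)) ^ (k + 1)) (ev k) = 0 := by
      intro k
      induction k with
      | zero => rw [zero_add, pow_one]; exact hS0
      | succ k ih =>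
        rw [pow_succ]
        show ((star (V hsucc)) ^ (k + 1)) ((star (V hsucc)) (ev (k + 1))) = 0
        rw [hSs, ih]
    have hnorm : ∀ R : ℕ, ‖(star (V hsucc)) ^ R‖ ≤ 1 := fun R =>
      norm_star_pow_le_one (D := E2 →L[ℂ] E2) (star_V_mul_V hsucc) R
    have hcl : IsClosed {ξ : E2 | Tendsto (fun R : ℕ => ((star (V hsucc)) ^ R) ξ) atTop (𝓝 0)} := by
      refine isClosed_tendsto (fun R ξ => ((star (V hsucc)) ^ R) ξ) (fun _ => 0) 1
        (fun R f g => ?_) (fun f g => by rw [dist_self]; positivity)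
      rw [dist_eq_norm, dist_eq_norm, ← map_sub]
      exact ((star (V hsucc) ^ R).le_opNorm _).trans
        (mul_le_mul_of_nonneg_right (hnorm R) (norm_nonneg _))
    have hevk : ∀ (k : ℕ) (c : ℂ),
        Tendsto (fun R : ℕ => ((star (V hsucc)) ^ R) (c • ev k)) atTop (𝓝 0) := by
      intro k c
      refine tendsto_const_nhds.congr' ?_
      filter_upwards [eventually_ge_atTop (k + 1)] with R hR
      obtain ⟨l, rfl⟩ := Nat.exists_eq_add_of_le hR
      rw [add_comm, pow_add]
      show 0 = ((star (V hsucc)) ^ l) (((star (V hsucc)) ^ (k + 1)) (c • ev k))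
      rw [map_smul, hz, smul_zero, map_zero]
    intro ξ
    have hf : HasSum (fun i => lp.single 2 i ((ξ : ℕ → ℂ) i)) ξ :=
      lp.hasSum_single (by norm_num) ξ
    have hs : ∀ i, lp.single 2 i ((ξ : ℕ → ℂ) i) = ((ξ : ℕ → ℂ) i) • ev i := by
      intro i
      unfold ev
      rw [← lp.single_smul]
      simp
    simp only [hs] at hf
    refine hcl.mem_of_tendsto hf (Filter.Eventually.of_forall fun s => ?_)
    show Tendsto (fun R : ℕ => ((star (V hsucc)) ^ R) (∑ i ∈ s, ((ξ : ℕ → ℂ) i) • ev i)) atTop (𝓝 0)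
    simp only [map_sum]
    have h1 := tendsto_finsetSum s (fun i _ => hevk i ((ξ : ℕ → ℂ) i))
    rwa [Finset.sum_const_zero] at h1

end Pool.Agent.LibCSF44
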