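import Pool.Agent.LibCSF44.Emb
import Pool.Agent.LibCSF44.ShiftFrame
import Pool.Agent.LibCSF44.Family
import Pool.Agent.LibCSF44.Core
import Pool.Agent.LibCSF44.MatRep
set_option autoImplicit false
namespace Pool.Agent.LibCSF44
open Topology Filter
open Pool.Agent.LibCS15
open scoped Matrix.Norms.L2Operator

/-- the lifting lemma for induced almost representations with values in the algebra of strongly convergent sequences -/
theorem lifting_indA {G : Type} [Group G] [Countable G] (hG : CStarStable G) (H : Subgroup G)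
    [Fintype (G ⧸ H)] {E : Type} [NormedAddCommGroup E] [InnerProductSpace ℂ E] [CompleteSpace E]
    {ι : G ⧸ H → (E →L[ℂ] E)} (hι : IsFrame ι) (P : ℕ → E →L[ℂ] E) (v : ℕ → H → strongAlg P)
    (hb : ∀ m h, ‖v m h‖ ≤ 1) (h1 : ∀ m, v m 1 = 1) (hstar : ∀ m h, v m h⁻¹ = star (v m h))
    (hmul : ∀ m g h, v m (g * h) - v m g * v m h ∈ strongIdeal P)
    (hmul' : ∀ g h, Tendsto (fun m => v m (g * h) - v m g * v m h) atTop (𝓝 0)) :
    ∃ (m₀ : ℕ) (π : ℕ → G →* unitary (strongAlg (bP ι P))),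
      (∀ m, m₀ ≤ m → ∀ g, ((π m g : unitary (strongAlg (bP ι P))) : strongAlg (bP ι P)) -
        indA H hι P (v m) g ∈ strongIdeal (bP ι P)) ∧
      (∀ g, Tendsto (fun m => ((π m g : unitary (strongAlg (bP ι P))) : strongAlg (bP ι P)) -
        indA H hι P (v m) g) atTop (𝓝 0)) := by
  have hK := isClosedIdeal_strongIdeal (E := E) (bP ι P)
  have hone : ∀ m, indA H hι P (v m) 1 = 1 := fun m => indA_one H hι P (h1 m)
  have hst : ∀ m g, indA H hι P (v m) g⁻¹ = star (indA H hι P (v m) g) := fun m g =>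
    indA_star H hι P (hstar m) g
  obtain ⟨m₀, π, hπ, hπ', -⟩ := lifting hG hK (fun m g => indA H hι P (v m) g)
    (fun g => ⟨∑ _a : G ⧸ H, (1 : ℝ), fun m => norm_indA_le H hι P (hb m) g⟩)
    (fun m => by
      show indA H hι P (v m) 1 - 1 ∈ strongIdeal (bP ι P)
      rw [hone, sub_self]; exact hK.zero_mem)
    (by
      simp only [hone, sub_self]
      exact tendsto_const_nhds)
    (fun m g h => by
      show indA H hι P (v m) (g * h) - indA H hι P (v m) g * indA H hι P (v m) h ∈
        strongIdeal (bP ι P)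
      rw [indA_defect H hι]
      exact hK.sum_mem _ _ fun a _ => emb_ideal hι _ _ (hmul m _ _))
    (fun g h => by
      simp only [indA_defect H hι]
      have e1 : (0 : strongAlg (bP ι P)) = ∑ a : G ⧸ H, emb hι P a (g • h • a) 0 := by
        symm
        refine Finset.sum_eq_zero fun a _ => ?_
        apply Subtype.ext
        show cst (ι (g • h • a)) * 0 * star (cst (ι a)) = 0
        rw [mul_zero, zero_mul]
      rw [e1]
      refine tendsto_finsetSum _ fun a _ => ?_
      exact ((continuous_emb hι P a (g • h • a)).tendsto 0).comp (hmul' _ _))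
    (fun m g => by
      show indA H hι P (v m) g⁻¹ - star (indA H hι P (v m) g) ∈ strongIdeal (bP ι P)
      rw [hst, sub_self]; exact hK.zero_mem)
    (fun g => by
      simp only [hst, sub_self]
      exact tendsto_const_nhds)
  exact ⟨m₀, π, hπ, hπ'⟩

/-- the image of a unitary representation under a `*`-homomorphism -/
noncomputable def mapRep {A B : Type} [CStarAlgebra A] [CStarAlgebra B] (φ : A →⋆ₐ[ℂ] B)
    {G : Type} [Group G] (π : G →* unitary A) : G →* unitary B where
  toFun g := ⟨φ (π g : A), by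
    rw [Unitary.mem_iff, ← map_star, ← map_mul, ← map_mul, (Unitary.mem_iff.1 (π g).2).1,
      (Unitary.mem_iff.1 (π g).2).2, map_one]
    exact ⟨rfl, rfl⟩⟩
  map_one' := Subtype.ext (by
    show φ ((π 1 : unitary A) : A) = 1
    rw [map_one]
    exact map_one φ)
  map_mul' g h := Subtype.ext (by
    show φ ((π (g * h) : unitary A) : A) = φ (π g : A) * φ (π h : A)
    rw [map_mul]
    exact map_mul φ _ _)

theorem mapRep_coe {A B : Type} [CStarAlgebra A] [CStarAlgebra B] (φ : A →⋆ₐ[ℂ] B)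
    {G : Type} [Group G] (π : G →* unitary A) (g : G) :
    ((mapRep φ π g : unitary B) : B) = φ (π g : A) := rfl

section
variable {E : Type} [NormedAddCommGroup E] [InnerProductSpace ℂ E] [CompleteSpace E]
  {P : ℕ → E →L[ℂ] E}

/-- evaluation -/
noncomputable def evA (P : ℕ → E →L[ℂ] E) (m : ℕ) : strongAlg P →⋆ₐ[ℂ] (E →L[ℂ] E) :=
  (evalAt (D := E →L[ℂ] E) m).comp (strongAlg P).subtype

theorem evA_apply (m : ℕ) (f : strongAlg P) : evA P m f = (f : Sq E) m := rfl

theorem norm_coe_strongAlg (f : strongAlg P) : ‖f‖ = ‖(f : Sq E)‖ := rfl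

theorem norm_evA_le (m : ℕ) (f : strongAlg P) : ‖evA P m f‖ ≤ ‖f‖ := by
  rw [evA_apply, norm_coe_strongAlg]
  exact BoundedContinuousFunction.norm_coe_le_norm _ _

theorem continuous_evA (m : ℕ) : Continuous (evA P m) :=
  (continuous_evalAt (D := E →L[ℂ] E) m).comp continuous_subtype_val

/-- evaluation of the representation at an index -/
noncomputable def evRep {G : Type} [Group G] (π : G →* unitary (strongAlg P)) (m : ℕ) :
    G →* unitary (E →L[ℂ] E) := mapRep (evA P m) π

theorem evRep_coe {G : Type} [Group G] (π : G →* unitary (strongAlg P)) (m : ℕ) (g : G) :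
    ((evRep π m g : unitary (E →L[ℂ] E)) : E →L[ℂ] E) =
      evA P m ((π g : unitary (strongAlg P)) : strongAlg P) := rfl

theorem norm_evRep_sub_one_le {G : Type} [Group G] (π : G →* unitary (strongAlg P)) (m : ℕ)
    (g : G) : ‖((evRep π m g : unitary (E →L[ℂ] E)) : E →L[ℂ] E) - 1‖ ≤
      ‖((π g : unitary (strongAlg P)) : strongAlg P) - 1‖ := by
  have h := norm_evA_le m (((π g : unitary (strongAlg P)) : strongAlg P) - 1)
  rw [map_sub, map_one, ← evRep_coe] at h
  exact h

theorem evRep_comm_coe {G : Type} [Group G] (π : G →* unitary (strongAlg P)) (m : ℕ) (x y : G) :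
    ((evRep π m x * evRep π m y : unitary (E →L[ℂ] E)) : E →L[ℂ] E) -
      ((evRep π m y * evRep π m x : unitary (E →L[ℂ] E)) : E →L[ℂ] E) =
    evA P m (((π x : unitary (strongAlg P)) : strongAlg P) *
      ((π y : unitary (strongAlg P)) : strongAlg P) -
      ((π y : unitary (strongAlg P)) : strongAlg P) *
      ((π x : unitary (strongAlg P)) : strongAlg P)) := by
  rw [map_sub, map_mul, map_mul, ← evRep_coe, ← evRep_coe]
  rfl

end

/-- if the finite dimensional components commute, the limit component commutes -/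
theorem evRep_commute {G : Type} [Group G] {E : Type} [NormedAddCommGroup E]
    [InnerProductSpace ℂ E] [CompleteSpace E] {P : ℕ → E →L[ℂ] E}
    (hP1 : ∀ N, star (P N) = P N) (hP2 : ∀ N, P N * P N = P N)
    (hPc : ∀ N, IsCompactOperator (P N))
    (hPs : ∀ ξ, Tendsto (fun N => P N ξ) atTop (𝓝 ξ))
    (π : G →* unitary (strongAlg P)) (x y : G) (c : ℝ)
    (hx : ‖((π x : unitary (strongAlg P)) : strongAlg P) - 1‖ < c)
    (hy : ‖((π y : unitary (strongAlg P)) : strongAlg P) - 1‖ < c)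
    (hN : ∀ (d : ℕ) (σ : G →* unitary (Matrix (Fin d) (Fin d) ℂ)),
      ‖((σ x : unitary (Matrix (Fin d) (Fin d) ℂ)) : Matrix (Fin d) (Fin d) ℂ) - 1‖ < c →
      ‖((σ y : unitary (Matrix (Fin d) (Fin d) ℂ)) : Matrix (Fin d) (Fin d) ℂ) - 1‖ < c →
      σ x * σ y = σ y * σ x) :
    evRep π 0 x * evRep π 0 y = evRep π 0 y * evRep π 0 x := by
  have hz : ∀ N, (((evRep π (N + 1) x * evRep π (N + 1) y : unitary (E →L[ℂ] E)) : E →L[ℂ] E) -
      ((evRep π (N + 1) y * evRep π (N + 1) x : unitary (E →L[ℂ] E)) : E →L[ℂ] E)) * P N = 0 := by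
    intro N
    obtain ⟨d, σ, hσ, hcomm⟩ := exists_matrix_rep (hP1 N) (hP2 N) (hPc N) (evRep π (N + 1))
      (fun g => ((mem_strongAlg.1 ((π g : unitary (strongAlg P)) : strongAlg P).2).1 N).1)
    refine hcomm x y (hN d σ ?_ ?_)
    · exact (hσ x).trans_lt ((norm_evRep_sub_one_le π (N + 1) x).trans_lt hx)
    · exact (hσ y).trans_lt ((norm_evRep_sub_one_le π (N + 1) y).trans_lt hy)
  obtain ⟨w, hwdef⟩ : ∃ w : strongAlg P, w = ((π x : unitary (strongAlg P)) : strongAlg P) *
      ((π y : unitary (strongAlg P)) : strongAlg P) -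
    ((π y : unitary (strongAlg P)) : strongAlg P) *
      ((π x : unitary (strongAlg P)) : strongAlg P) := ⟨_, rfl⟩
  have hw : ∀ m, ((evRep π m x * evRep π m y : unitary (E →L[ℂ] E)) : E →L[ℂ] E) -
      ((evRep π m y * evRep π m x : unitary (E →L[ℂ] E)) : E →L[ℂ] E) = (w : Sq E) m := by
    intro m
    rw [evRep_comm_coe, ← hwdef, evA_apply]
  simp only [hw] at hz
  have hw0 : (w : Sq E) 0 = 0 := by
    ext ξ
    have h1 := strong_mul (T := fun N => (w : Sq E) (N + 1)) (S := P) (T0 := (w : Sq E) 0)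
      (S0 := 1) (C := ‖(w : Sq E)‖) (fun N => (w : Sq E).norm_coe_le_norm _)
      (fun ξ => ((mem_strongAlg.1 w.2).2 ξ).1) (fun ξ => hPs ξ) ξ
    simp only [hz] at h1
    rw [mul_one] at h1
    exact tendsto_nhds_unique h1 tendsto_const_nhds
  apply Subtype.ext
  rw [← hw] at hw0
  exact sub_eq_zero.1 hw0

/-- `main_contra` under a hypothesis on finite dimensional representations only -/
theorem main_contraF {G : Type} [Group G] [Countable G] (hG : CStarStable G) (H : Subgroup G)
    [H.Normal] [H.FiniteIndex] (x y : H)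
    (hN : ∀ (d : ℕ) (σ : G →* unitary (Matrix (Fin d) (Fin d) ℂ)),
      ‖((σ x : unitary (Matrix (Fin d) (Fin d) ℂ)) : Matrix (Fin d) (Fin d) ℂ) - 1‖ < 1 / 4 →
      ‖((σ y : unitary (Matrix (Fin d) (Fin d) ℂ)) : Matrix (Fin d) (Fin d) ℂ) - 1‖ < 1 / 4 →
      σ x * σ y = σ y * σ x) (b₁ b₂ : H → ℝ)
    (hb₁ : ∀ g h, b₁ (g * h) = b₁ g + b₁ h) (hb₂ : ∀ g h, b₂ (g * h) = b₂ g + b₂ h)
    (h1 : b₁ x = 1) (h2 : b₂ x = 0) (h3 : b₁ y = 0) (h4 : b₂ y = 1) : False := by
  classical
  letI : Fintype (G ⧸ H) := Fintype.ofFinite _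
  obtain ⟨ι, S, hι, hS, hS', hcS, hpS⟩ := exists_shift_frame (G ⧸ H)
  obtain ⟨s₁, s₂, hsx, hsy, hgen⟩ := generic_small (fun a : G ⧸ H => b₁ (cnj H a x))
    (fun a => b₂ (cnj H a x)) (fun a => b₁ (cnj H a y)) (fun a => b₂ (cnj H a y))
  let P : ℕ → E2 →L[ℂ] E2 := fun N => pr S (2 * N + 2)
  obtain ⟨v, hvu, hv1, hvs, hvm, hvl, hvS⟩ := toeplitz_family_gen
    (isClosedIdeal_strongIdeal P) (shA_comm_mem hS hpS hcS) b₁ b₂ hb₁ hb₂ s₁ s₂
  obtain ⟨m₀, π, hπK, hπl⟩ := lifting_indA hG H hι P v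
    (fun m h => norm_le_one_of_star_mul (D := strongAlg P) (hvu m h).1)
    (fun m => hv1 m 1 (add_one hb₁) (add_one hb₂)) hvs hvm (by
      intro g h
      have e1 := hvl (g * h)
      have e2 := (hvl g).mul (hvl h)
      have e3 := e1.sub e2
      have e4 : Complex.exp (Complex.I * ((b₁ (g * h) * s₁ + b₂ (g * h) * s₂ : ℝ) : ℂ)) •
          (1 : strongAlg P) -
          (Complex.exp (Complex.I * ((b₁ g * s₁ + b₂ g * s₂ : ℝ) : ℂ)) • (1 : strongAlg P)) *
          (Complex.exp (Complex.I * ((b₁ h * s₁ + b₂ h * s₂ : ℝ) : ℂ)) • (1 : strongAlg P)) = 0 := by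
        rw [smul_mul_smul_comm, one_mul, ← Complex.exp_add, hb₁, hb₂]
        rw [← sub_smul]
        have : Complex.I * (((b₁ g + b₁ h) * s₁ + (b₂ g + b₂ h) * s₂ : ℝ) : ℂ) =
          Complex.I * ((b₁ g * s₁ + b₂ g * s₂ : ℝ) : ℂ) + Complex.I * ((b₁ h * s₁ + b₂ h * s₂ : ℝ) : ℂ) := by
          push_cast; ring
        rw [this, sub_self, zero_smul]
      rw [e4] at e3
      exact e3)
  -- the projections
  have hPcomp : ∀ R, IsCompactOperator (pr S R : E2 →L[ℂ] E2) := by
    have hI := isClosedIdeal_compact (E := E2)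
    have hp1 : IsCompactOperator (pr S 1 : E2 →L[ℂ] E2) := by
      have e : pr S 1 = (1 - S * star S : E2 →L[ℂ] E2) := by unfold pr; rw [pow_one, pow_one]
      rw [e]; exact hcS
    intro R
    induction R with
    | zero =>
      have e : pr S 0 = (0 : E2 →L[ℂ] E2) := by unfold pr; rw [pow_zero, pow_zero, mul_one, sub_self]
      rw [e]; exact hI.zero_mem
    | succ R ih =>
      have e : pr S (R + 1) = S * pr S R * star S + pr S 1 := by
        rw [mul_pr_mul_star, sub_add_cancel]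
      rw [e]
      exact hI.add_mem _ (hI.mul_mem_right _ _ (hI.mul_mem_left _ _ ih)) _ hp1
  have hQ1 : ∀ N, star (bP ι P N) = bP ι P N := by
    intro N
    unfold bP
    rw [star_blk hι]
    congr 1
    funext a
    exact star_pr S _
  have hQ2 : ∀ N, bP ι P N * bP ι P N = bP ι P N := by
    intro N
    unfold bP
    rw [blk_mul hι]
    congr 1
    funext a
    exact pr_mul_pr (D := E2 →L[ℂ] E2) hS le_rfl
  have hQc : ∀ N, IsCompactOperator (bP ι P N) := by
    have hI := isClosedIdeal_compact (E := E2)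
    intro N
    exact hI.sum_mem _ _ fun a _ => hI.mul_mem_right _ _ (hI.mul_mem_left _ _ (hPcomp _))
  have hQs : ∀ ξ, Tendsto (fun N => bP ι P N ξ) atTop (𝓝 ξ) := by
    intro ξ
    have e1 : ∀ N, bP ι P N ξ = ∑ a, ι a (P N ((star (ι a)) ξ)) := by
      intro N
      unfold bP blk
      rw [ContinuousLinearMap.sum_apply]
      rfl
    have e2 : ξ = ∑ a, ι a ((star (ι a)) ξ) := by
      have h := congrArg (fun T : E2 →L[ℂ] E2 => T ξ) hι.sum
      simp only [ContinuousLinearMap.sum_apply] at h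
      exact h.symm
    simp only [e1]
    conv => enter [3, 1]; rw [e2]
    exact tendsto_finsetSum _ fun a _ =>
      ((ι a).continuous.tendsto _).comp (tendsto_pr (E := E2) hS hpS _)
  -- closeness to `1`
  have hcoe : ∀ m (h : H), ((indA H hι P (v m) (h : G) : strongAlg (bP ι P)) : Sq E2) =
      blk (fun a => cst (ι a)) (fun a => ((v m (cnj H a h) : strongAlg P) : Sq E2)) := by
    intro m h
    rw [coe_indA]
    exact ind_normal H _ (fun h => ((v m h : strongAlg P) : Sq E2)) h
  have hnear : ∀ z : H, (∑ a : G ⧸ H, |b₁ (cnj H a z) * s₁ + b₂ (cnj H a z) * s₂| < 1 / 8) →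
      ∀ᶠ m in atTop, ‖((π m (z : G) : unitary (strongAlg (bP ι P))) : strongAlg (bP ι P)) - 1‖ <
        1 / 4 := by
    intro z hz
    have e0 : Tendsto (fun m =>
        ((((π m (z : G) : unitary (strongAlg (bP ι P))) : strongAlg (bP ι P)) -
          indA H hι P (v m) (z : G) : strongAlg (bP ι P)) : Sq E2)) atTop (𝓝 0) :=
      (continuous_subtype_val.tendsto _).comp (hπl (z : G))
    have e1 : Tendsto (fun m => blk (fun a => cst (ι a))
        (fun a => ((v m (cnj H a z) : strongAlg P) : Sq E2))) atTop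
        (𝓝 (blk (fun a => cst (ι a)) (fun a => Complex.exp (Complex.I *
          ((b₁ (cnj H a z) * s₁ + b₂ (cnj H a z) * s₂ : ℝ) : ℂ)) • (1 : Sq E2)))) := by
      refine tendsto_blk _ fun a => ?_
      exact (continuous_subtype_val.tendsto _).comp (hvl (cnj H a z))
    have e2 := e0.add e1
    rw [zero_add] at e2
    have e3 := (e2.sub_const (1 : Sq E2)).norm
    have e4 := norm_blk_exp_sub_one (isFrame_cst hι)
      (fun a => b₁ (cnj H a z) * s₁ + b₂ (cnj H a z) * s₂)
    filter_upwards [e3.eventually (gt_mem_nhds (lt_of_le_of_lt e4 hz))] with m hm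
    rw [← hcoe m z] at hm
    have e5 : ∀ p q : strongAlg (bP ι P), ((p - q : strongAlg (bP ι P)) : Sq E2) + (q : Sq E2) - 1 =
        ((p - 1 : strongAlg (bP ι P)) : Sq E2) := by
      intro p q
      show (p : Sq E2) - (q : Sq E2) + (q : Sq E2) - 1 = (p : Sq E2) - 1
      rw [sub_add_cancel]
    rw [e5, ← norm_coe_strongAlg] at hm
    linarith
  refine contra_core H x y b₁ b₂ hb₁ hb₂ h1 h2 h3 h4 ι S hι hS hS' s₁ s₂
    (fun a => (hgen a).symm) (fun m h => ((v m h : strongAlg P) : Sq E2) 0) ?_ ?_ m₀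
    (fun m => evRep (π m) 0) ?_ ?_
  · intro h
    have h5 := ((continuous_evA (P := P) 0).tendsto _).comp (hvl h)
    rw [map_smul, map_one] at h5
    exact h5
  · intro x' y' hx1 hx2 hy1 hy2
    have h5 := ((continuous_evA (P := P) 0).tendsto _).comp (hvS x' y' hx1 hx2 hy1 hy2)
    exact h5
  · intro m hm g
    have h := (hπK m hm g).1
    rw [← indA_apply H hι P (v m) g 0]
    exact h
  · filter_upwards [hnear x hsx, hnear y hsy] with m hmx hmy
    exact evRep_commute hQ1 hQ2 hQc hQs (π m) x y (1 / 4) hmx hmy hN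

end Pool.Agent.LibCSF44
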