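import Mathlib
set_option autoImplicit false
namespace Pool.Agent.LibCSF44
open Topology Filter

/-! Permutation representations on `ℓ²(X)`. -/

private theorem pr_pos : 0 < (2 : ENNReal).toReal := by norm_num

private theorem pr_mem {X : Type} (e : X ≃ X) (f : lp (fun _ : X => ℂ) 2) :
    Memℓp (fun x => f (e x)) (2 : ENNReal) := by
  rw [memℓp_gen_iff pr_pos]
  have h1 := (memℓp_gen_iff pr_pos).1 (lp.memℓp f)
  exact (e.summable_iff (f := fun x => ‖f x‖ ^ (2 : ENNReal).toReal)).2 h1

private noncomputable def prMap {X : Type} (e : X ≃ X) :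
    lp (fun _ : X => ℂ) 2 →ₗ[ℂ] lp (fun _ : X => ℂ) 2 where
  toFun f := ⟨fun x => f (e x), pr_mem e f⟩
  map_add' f g := by
    ext x
    rfl
  map_smul' a f := by
    ext x
    rfl

private theorem pr_norm {X : Type} (e : X ≃ X) (f : lp (fun _ : X => ℂ) 2) :
    ‖prMap e f‖ = ‖f‖ := by
  rw [lp.norm_eq_tsum_rpow pr_pos, lp.norm_eq_tsum_rpow pr_pos]
  congr 1
  rw [← e.tsum_eq (fun x => ‖f x‖ ^ (2 : ENNReal).toReal)]
  rfl

/-- the isometry `f ↦ f ∘ e` of `ℓ²(X)` -/
noncomputable def prIso {X : Type} (e : X ≃ X) :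
    lp (fun _ : X => ℂ) 2 ≃ₗᵢ[ℂ] lp (fun _ : X => ℂ) 2 :=
  LinearIsometryEquiv.mk
    (LinearEquiv.ofLinear (prMap e) (prMap e.symm)
      (by
        ext f x
        change f (e.symm (e x)) = f x
        rw [e.symm_apply_apply])
      (by
        ext f x
        change f (e (e.symm x)) = f x
        rw [e.apply_symm_apply]))
    (pr_norm e)

theorem prIso_apply {X : Type} (e : X ≃ X) (f : lp (fun _ : X => ℂ) 2) (x : X) :
    prIso e f x = f (e x) := rfl

/-- the permutation representation of `G` on `ℓ²(X)` -/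
noncomputable def permRep (G : Type) [Group G] (X : Type) [MulAction G X] :
    G →* unitary (lp (fun _ : X => ℂ) 2 →L[ℂ] lp (fun _ : X => ℂ) 2) where
  toFun g := Unitary.linearIsometryEquiv.symm (prIso (MulAction.toPerm g⁻¹))
  map_one' := by
    apply Subtype.ext
    ext f x
    change f ((1 : G)⁻¹ • x) = f x
    rw [inv_one, one_smul]
  map_mul' g h := by
    apply Subtype.ext
    ext f x
    change f ((g * h)⁻¹ • x) = f (h⁻¹ • g⁻¹ • x)
    rw [mul_inv_rev, mul_smul]

theorem permRep_apply (G : Type) [Group G] (X : Type) [MulAction G X] (g : G)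
    (f : lp (fun _ : X => ℂ) 2) (x : X) :
    ((permRep G X g : lp (fun _ : X => ℂ) 2 →L[ℂ] lp (fun _ : X => ℂ) 2) f) x = f (g⁻¹ • x) := rfl

theorem permRep_single (G : Type) [Group G] (X : Type) [MulAction G X] [DecidableEq X] (g : G)
    (x : X) : (permRep G X g : lp (fun _ : X => ℂ) 2 →L[ℂ] lp (fun _ : X => ℂ) 2)
      (lp.single 2 x (1 : ℂ)) = lp.single 2 (g • x) (1 : ℂ) := by
  ext y
  rw [permRep_apply, lp.single_apply, lp.single_apply]
  by_cases h : y = g • x
  · subst h
    rw [inv_smul_smul]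
    simp
  · have h' : g⁻¹ • y ≠ x := fun h1 => h (by rw [← h1, smul_inv_smul])
    rw [Pi.single_eq_of_ne h, Pi.single_eq_of_ne h']

/-- an element acting trivially in the regular representation is trivial -/
theorem eq_one_of_permRep {G : Type} [Group G] {g : G} (h : permRep G G g = 1) : g = 1 := by
  classical
  have h1 := permRep_single G G g 1
  rw [h] at h1
  have h2 : (lp.single 2 (1 : G) (1 : ℂ) : lp (fun _ : G => ℂ) 2) =
      lp.single 2 (g • (1 : G)) (1 : ℂ) := h1
  have h3 := congrArg (fun f : lp (fun _ : G => ℂ) 2 => f 1) h2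
  simp only [lp.single_apply, Pi.single_eq_same] at h3
  by_contra hne
  have h4 : (1 : G) ≠ g • (1 : G) := by
    rw [smul_eq_mul, mul_one]
    exact Ne.symm hne
  rw [Pi.single_eq_of_ne h4] at h3
  exact one_ne_zero h3

end Pool.Agent.LibCSF44
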