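import Pool.Agent.LibCSF44.PathG
import Pool.Agent.LibCSF44.Isolated
import Pool.Agent.LibCSF44.PermRep
set_option autoImplicit false
namespace Pool.Agent.LibCSF44
open Topology Filter

/-- representations close on `F` are joined by a path of representations which is `ε₀`-short on `F₀` -/
def Homot (G : Type) [Group G] (F : Finset G) (δ : ℝ) (F₀ : Finset G) (ε₀ : ℝ) : Prop :=
  ∀ (D : Type) [CStarAlgebra D] [Nontrivial D]
    (β μ : G →* unitary D), (∀ g ∈ F, ‖(β g : D) - (μ g : D)‖ < δ) →
    ∃ R : G →* unitary C(unitInterval, D),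
      (∀ g, (R g : C(unitInterval, D)) 0 = (β g : D) ∧
        (R g : C(unitInterval, D)) 1 = (μ g : D)) ∧
      ∀ g ∈ F₀, ∀ t, ‖(R g : C(unitInterval, D)) t - (β g : D)‖ < ε₀

/-- evaluation of a path of representations -/
noncomputable def evPath {G D : Type} [Group G] [CStarAlgebra D]
    (R : G →* unitary C(unitInterval, D)) (t : unitInterval) : G →* unitary D where
  toFun g := ⟨(R g : C(unitInterval, D)) t, by
    have h1 := Unitary.coe_star_mul_self (R g)
    have h2 := Unitary.coe_mul_star_self (R g)
    rw [Unitary.mem_iff]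
    exact ⟨DFunLike.congr_fun h1 t, DFunLike.congr_fun h2 t⟩⟩
  map_one' := by
    apply Subtype.ext
    simp
  map_mul' g h := by
    apply Subtype.ext
    simp

theorem evPath_apply {G D : Type} [Group G] [CStarAlgebra D]
    (R : G →* unitary C(unitInterval, D)) (t : unitInterval) (g : G) :
    (evPath R t g : D) = (R g : C(unitInterval, D)) t := rfl

theorem continuous_evPath {G D : Type} [Group G] [CStarAlgebra D]
    (R : G →* unitary C(unitInterval, D)) (g : G) : Continuous fun t => (evPath R t g : D) :=
  (R g : C(unitInterval, D)).continuous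

/-- a path of representations which starts at the trivial one is trivial on the finitely generated subgroups with finite abelianization -/
theorem trivial_on {G D : Type} [Group G] [CStarAlgebra D] (R : G →* unitary C(unitInterval, D))
    (P : Subgroup G) (hP : P.FG) (hA : Finite (Abelianization P))
    (h0 : ∀ g ∈ P, (evPath R 0 g : D) = 1) (t : unitInterval) : ∀ g ∈ P, (evPath R t g : D) = 1 := by
  obtain ⟨S, ε, hε, hS⟩ := isolated ((Group.fg_iff_subgroup_fg P).2 hP) hA
  have hset : {t : unitInterval | ∀ g ∈ P, (evPath R t g : D) = 1} =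
      {t : unitInterval | ∀ s ∈ S, ‖(evPath R t (s : G) : D) - 1‖ < ε} := by
    ext t
    constructor
    · intro ht s _
      rw [ht s s.2, sub_self, norm_zero]
      exact hε
    · intro ht g hg
      have h1 := hS D ((evPath R t).comp P.subtype) (fun s hs => ht s hs)
      have h2 := DFunLike.congr_fun h1 ⟨g, hg⟩
      exact congrArg Subtype.val h2
  have hclopen : IsClopen {t : unitInterval | ∀ g ∈ P, (evPath R t g : D) = 1} := by
    constructor
    · have e1 : {t : unitInterval | ∀ g ∈ P, (evPath R t g : D) = 1} =
          ⋂ g ∈ P, {t : unitInterval | (evPath R t g : D) = 1} := by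
        ext t
        simp
      rw [e1]
      exact isClosed_biInter fun g _ => isClosed_eq (continuous_evPath R g) continuous_const
    · rw [hset]
      have e1 : {t : unitInterval | ∀ s ∈ S, ‖(evPath R t (s : G) : D) - 1‖ < ε} =
          ⋂ s ∈ S, {t : unitInterval | ‖(evPath R t (s : G) : D) - 1‖ < ε} := by
        ext t
        simp
      rw [e1]
      exact isOpen_biInter_finset fun s _ =>
        isOpen_lt ((continuous_evPath R _).sub continuous_const).norm continuous_const
  have huniv := hclopen.eq_univ ⟨0, h0⟩
  have ht : t ∈ {t : unitInterval | ∀ g ∈ P, (evPath R t g : D) = 1} := by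
    rw [huniv]
    trivial
  exact ht

/-- the normal closure of `F` contains all the finitely generated subgroups with finite abelianization -/
theorem le_normalClosure {G : Type} [Group G] {F : Finset G} {δ : ℝ} (hδ : 0 < δ) {F₀ : Finset G}
    {ε₀ : ℝ} (hF : Homot G F δ F₀ ε₀) (P : Subgroup G) (hP : P.FG)
    (hA : Finite (Abelianization P)) : P ≤ Subgroup.normalClosure (F : Set G) := by
  set N := Subgroup.normalClosure (F : Set G) with hN
  let Q := G ⧸ N
  let E := lp (fun _ : Q => ℂ) 2
  have hnt : Nontrivial E := by
    classical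
    refine ⟨lp.single 2 (1 : Q) (1 : ℂ), 0, fun h => ?_⟩
    have h3 := congrArg (fun f : lp (fun _ : Q => ℂ) 2 => f 1) h
    simp only [lp.single_apply, Pi.single_eq_same] at h3
    exact one_ne_zero h3
  obtain ⟨R, hR, -⟩ := hF (E →L[ℂ] E) 1 ((permRep Q Q).comp (QuotientGroup.mk' N)) (by
    intro g hg
    have h1 : (QuotientGroup.mk' N) g = 1 :=
      (QuotientGroup.eq_one_iff g).2 (Subgroup.subset_normalClosure hg)
    rw [MonoidHom.comp_apply, h1, map_one, MonoidHom.one_apply, sub_self, norm_zero]
    exact hδ)
  intro g hg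
  have h1 := trivial_on R P hP hA (fun g _ => by rw [evPath_apply, (hR g).1]; rfl) 1 g hg
  rw [evPath_apply, (hR g).2] at h1
  have h2 : permRep Q Q ((QuotientGroup.mk' N) g) = 1 := Subtype.ext h1
  exact (QuotientGroup.eq_one_iff g).1 (eq_one_of_permRep h2)

end Pool.Agent.LibCSF44
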