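import Pool.Agent.LibCSF44.NormalGen
set_option autoImplicit false
namespace Pool.Agent.LibCSF44
open Topology Filter

/-- the two normal subgroups of the amalgam -/
def nn {G : Type} (M M₀ : G) : Bool → G := fun b => cond b M M₀

/-- A finitely generated subgroup `P` with finite abelianization is contained in the normal closure of the intersection of `⟨F⟩` with the normal
closure of `P` -/
theorem le_normalClosure_inf {G : Type} [Group G] {F : Finset G} {δ : ℝ} (hδ : 0 < δ)
    {F₀ : Finset G} {ε₀ : ℝ} (hF : Homot G F δ F₀ ε₀) (H : Subgroup G) (hFH : (F : Set G) ⊆ H)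
    (P : Subgroup G) (hP : P.FG) (hA : Finite (Abelianization P)) :
    P ≤ Subgroup.normalClosure
      ((Subgroup.normalClosure (P : Set G) ⊓ H : Subgroup G) : Set G) := by
  classical
  set M := Subgroup.normalClosure (P : Set G) with hM
  set M₀ := Subgroup.normalClosure ((M ⊓ H : Subgroup G) : Set G) with hM₀
  have hle : M₀ ≤ M := by
    refine Subgroup.normalClosure_le_normal ?_
    exact (inf_le_left : M ⊓ H ≤ M)
  have hmem : ∀ x ∈ H, (x ∈ M ↔ x ∈ M₀) := fun x hx =>
    ⟨fun h => Subgroup.subset_normalClosure (show x ∈ M ⊓ H from ⟨h, hx⟩), fun h => hle h⟩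
  let N : Bool → Subgroup G := nn M M₀
  have hN : ∀ b, (N b).Normal := by
    intro b
    cases b
    · exact (inferInstance : M₀.Normal)
    · exact (inferInstance : M.Normal)
  have hNm : ∀ b, ∀ x ∈ H, (x ∈ M ↔ x ∈ N b) := by
    intro b x hx
    cases b
    · exact hmem x hx
    · exact Iff.rfl
  let K : Subgroup H := M.subgroupOf H
  let φ : ∀ b, (H ⧸ K) →* (G ⧸ N b) := fun b => QuotientGroup.map K (N b) H.subtype (by
    intro x hx
    exact (hNm b x x.2).1 hx)
  have hφ : ∀ b, Function.Injective (φ b) := by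
    intro b
    rw [injective_iff_map_eq_one]
    intro x hx
    induction x using QuotientGroup.induction_on with
    | H z =>
      have h1 : ((z : G) : G ⧸ N b) = 1 := hx
      rw [QuotientGroup.eq_one_iff] at h1
      exact (QuotientGroup.eq_one_iff _).2 ((hNm b z z.2).2 h1)
  let Γ := Monoid.PushoutI φ
  have hinj : ∀ b, Function.Injective (Monoid.PushoutI.of (φ := φ) b) := fun b =>
    Monoid.PushoutI.of_injective hφ b
  let j : ∀ b, G →* Γ := fun b => (Monoid.PushoutI.of (φ := φ) b).comp (QuotientGroup.mk' (N b))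
  have hj : ∀ b, ∀ x : H, j b x = Monoid.PushoutI.base φ (x : H ⧸ K) := by
    intro b x
    rw [← Monoid.PushoutI.of_apply_eq_base φ b]
    rfl
  have hker : ∀ b x, j b x = 1 → x ∈ N b := by
    intro b x hx
    have h1 : (QuotientGroup.mk' (N b)) x = 1 := by
      apply hinj b
      rw [map_one]
      exact hx
    exact (QuotientGroup.eq_one_iff x).1 h1
  let E := lp (fun _ : Γ => ℂ) 2
  have hnt : Nontrivial E := by
    refine ⟨lp.single 2 (1 : Γ) (1 : ℂ), 0, fun h => ?_⟩
    have h3 := congrArg (fun f : lp (fun _ : Γ => ℂ) 2 => f 1) h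
    simp only [lp.single_apply, Pi.single_eq_same] at h3
    exact one_ne_zero h3
  obtain ⟨R, hR, -⟩ := hF (E →L[ℂ] E) ((permRep Γ Γ).comp (j true))
    ((permRep Γ Γ).comp (j false)) (by
    intro g hg
    have h1 : j true g = j false g :=
      (hj true ⟨g, hFH hg⟩).trans (hj false ⟨g, hFH hg⟩).symm
    have h2 : ((permRep Γ Γ).comp (j true)) g = ((permRep Γ Γ).comp (j false)) g :=
      congrArg (permRep Γ Γ) h1
    rw [h2, sub_self, norm_zero]
    exact hδ)
  intro g hg
  have h1 := trivial_on R P hP hA (fun g hg => by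
    rw [evPath_apply, (hR g).1]
    have h2 : j true g = 1 := by
      have h3 : (QuotientGroup.mk' (N true)) g = 1 :=
        (QuotientGroup.eq_one_iff g).2 (Subgroup.subset_normalClosure hg)
      show Monoid.PushoutI.of (φ := φ) true ((QuotientGroup.mk' (N true)) g) = 1
      rw [h3, map_one]
    rw [MonoidHom.comp_apply, h2, map_one]
    rfl) 1 g hg
  rw [evPath_apply, (hR g).2] at h1
  have h2 : permRep Γ Γ (j false g) = 1 := Subtype.ext h1
  exact hker false g (eq_one_of_permRep h2)

end Pool.Agent.LibCSF44
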