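import Pool.Agent.LibCS44.LiftVar
set_option autoImplicit false
namespace Pool.Agent.LibCSF44
open Topology Filter
open Pool.Agent.LibCS15 (IsClosedIdeal CStarStable)
open Pool.Agent.LibCS44 (lifting_var)

private theorem pathG_ideal {D : Type} [CStarAlgebra D] :
    IsClosedIdeal {f : C(unitInterval, D) | f 0 = 0 ∧ f 1 = 0} := by
  constructor
  · have e1 : {f : C(unitInterval, D) | f 0 = 0 ∧ f 1 = 0} =
        (fun f : C(unitInterval, D) => f 0) ⁻¹' {0} ∩
          (fun f : C(unitInterval, D) => f 1) ⁻¹' {0} := rfl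
    rw [e1]
    exact (isClosed_singleton.preimage (continuous_eval_const (F := C(unitInterval, D)) 0)).inter
      (isClosed_singleton.preimage (continuous_eval_const (F := C(unitInterval, D)) 1))
  · exact ⟨rfl, rfl⟩
  · rintro x ⟨hx1, hx2⟩ y ⟨hy1, hy2⟩
    exact ⟨by show x 0 + y 0 = 0; rw [hx1, hy1, add_zero],
      by show x 1 + y 1 = 0; rw [hx2, hy2, add_zero]⟩
  · rintro a x ⟨hx1, hx2⟩
    exact ⟨by show a • x 0 = 0; rw [hx1, smul_zero], by show a • x 1 = 0; rw [hx2, smul_zero]⟩
  · rintro b x ⟨hx1, hx2⟩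
    exact ⟨by show b 0 * x 0 = 0; rw [hx1, mul_zero], by show b 1 * x 1 = 0; rw [hx2, mul_zero]⟩
  · rintro b x ⟨hx1, hx2⟩
    exact ⟨by show x 0 * b 0 = 0; rw [hx1, zero_mul], by show x 1 * b 1 = 0; rw [hx2, zero_mul]⟩
  · rintro x ⟨hx1, hx2⟩
    exact ⟨by show star (x 0) = 0; rw [hx1, star_zero],
      by show star (x 1) = 0; rw [hx2, star_zero]⟩

/-- Asymptotically equal representations of a `C*`-stable group are joined by short paths of representations. -/
theorem path_gen {G : Type} [Group G] [Countable G] (hG : CStarStable G) (D : ℕ → Type)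
    [∀ m, CStarAlgebra (D m)] [∀ m, Nontrivial (D m)] (β μ : ∀ m, G →* unitary (D m))
    (h : ∀ g, Tendsto (fun m => ‖(β m g : D m) - (μ m g : D m)‖) atTop (𝓝 0)) :
    ∃ (m₀ : ℕ) (R : ∀ m, G →* unitary C(unitInterval, D m)),
      (∀ m, m₀ ≤ m → ∀ g, (R m g : C(unitInterval, D m)) 0 = (β m g : D m) ∧
        (R m g : C(unitInterval, D m)) 1 = (μ m g : D m)) ∧
      ∀ g, Tendsto (fun m => ‖(R m g : C(unitInterval, D m)) -
        ContinuousMap.const _ (β m g : D m)‖) atTop (𝓝 0) := by
  classical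
  let v : ∀ m, G → C(unitInterval, D m) := fun m g =>
    ⟨fun s => (β m g : D m) + (s : ℝ) • ((μ m g : D m) - (β m g : D m)),
      continuous_const.add (continuous_subtype_val.smul continuous_const)⟩
  have hv : ∀ m g (s : unitInterval), v m g s = (β m g : D m) +
      (s : ℝ) • ((μ m g : D m) - (β m g : D m)) := fun _ _ _ => rfl
  have hnβ : ∀ m g, ‖(β m g : D m)‖ = 1 := fun m g => CStarRing.norm_coe_unitary _
  have hnμ : ∀ m g, ‖(μ m g : D m)‖ = 1 := fun m g => CStarRing.norm_coe_unitary _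
  have hs0 : ∀ s : unitInterval, ‖(s : ℝ)‖ ≤ 1 := fun s => by
    rw [Real.norm_eq_abs, abs_of_nonneg s.2.1]
    exact s.2.2
  have hv0 : ∀ m g, v m g 0 = (β m g : D m) := by
    intro m g
    rw [hv]
    simp
  have hv1 : ∀ m g, v m g 1 = (μ m g : D m) := by
    intro m g
    rw [hv]
    simp
  have hone : ∀ m, v m 1 = 1 := by
    intro m
    ext1 s
    rw [hv, map_one, map_one]
    simp
  have hstar : ∀ m g, v m g⁻¹ = star (v m g) := by
    intro m g
    ext1 s
    show v m g⁻¹ s = star (v m g s)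
    rw [hv, hv, map_inv, map_inv, ← Unitary.star_eq_inv, ← Unitary.star_eq_inv, Unitary.coe_star,
      Unitary.coe_star, star_add, star_smul, star_sub, star_trivial (s : ℝ)]
  have hvc : ∀ m g, ‖v m g - ContinuousMap.const _ (β m g : D m)‖ ≤
      ‖(β m g : D m) - (μ m g : D m)‖ := by
    intro m g
    rw [ContinuousMap.norm_le _ (norm_nonneg _)]
    intro s
    show ‖v m g s - (β m g : D m)‖ ≤ _
    rw [hv, add_sub_cancel_left, norm_smul, norm_sub_rev (β m g : D m)]
    exact mul_le_of_le_one_left (norm_nonneg _) (hs0 s)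
  have hbd : ∀ m g h, ‖v m (g * h) - v m g * v m h‖ ≤
      ‖(β m (g * h) : D m) - (μ m (g * h) : D m)‖ + ‖(β m h : D m) - (μ m h : D m)‖ +
      ‖(β m g : D m) - (μ m g : D m)‖ +
      ‖(β m g : D m) - (μ m g : D m)‖ * ‖(β m h : D m) - (μ m h : D m)‖ := by
    intro m g h
    rw [ContinuousMap.norm_le _ (by positivity)]
    intro s
    show ‖v m (g * h) s - v m g s * v m h s‖ ≤ _
    rw [hv, hv, hv, map_mul (β m)]
    have hab : ((β m g * β m h : unitary (D m)) : D m) = (β m g : D m) * (β m h : D m) := rfl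
    rw [hab]
    have ha := hnβ m g
    have hb := hnβ m h
    have hs := hs0 s
    generalize (β m g : D m) = a at *
    generalize (β m h : D m) = b at *
    generalize (μ m g : D m) = c at *
    generalize (μ m h : D m) = d at *
    generalize (μ m (g * h) : D m) = e at *
    generalize (s : ℝ) = t at *
    have key : a * b + t • (e - a * b) - (a + t • (c - a)) * (b + t • (d - b)) =
        t • (e - a * b) - t • (a * (d - b)) - t • ((c - a) * b) -
          t • (t • ((c - a) * (d - b))) := by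
      simp only [add_mul, mul_add, smul_mul_assoc, mul_smul_comm, smul_add]
      abel
    rw [key]
    have hsm : ∀ X : D m, ‖t • X‖ ≤ ‖X‖ := fun X => by
      rw [norm_smul]
      exact mul_le_of_le_one_left (norm_nonneg _) hs
    have n1 : ‖t • (e - a * b)‖ ≤ ‖a * b - e‖ := by
      rw [norm_sub_rev (a * b) e]
      exact hsm _
    have n2 : ‖t • (a * (d - b))‖ ≤ ‖b - d‖ := by
      refine (hsm _).trans ((norm_mul_le _ _).trans ?_)
      rw [ha, one_mul, norm_sub_rev]
    have n3 : ‖t • ((c - a) * b)‖ ≤ ‖a - c‖ := by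
      refine (hsm _).trans ((norm_mul_le _ _).trans ?_)
      rw [hb, mul_one, norm_sub_rev]
    have n4 : ‖t • (t • ((c - a) * (d - b)))‖ ≤ ‖a - c‖ * ‖b - d‖ := by
      refine (hsm _).trans ((hsm _).trans ((norm_mul_le _ _).trans ?_))
      rw [norm_sub_rev c a, norm_sub_rev d b]
    calc ‖t • (e - a * b) - t • (a * (d - b)) - t • ((c - a) * b) -
          t • (t • ((c - a) * (d - b)))‖
        ≤ ‖t • (e - a * b)‖ + ‖t • (a * (d - b))‖ + ‖t • ((c - a) * b)‖ +
          ‖t • (t • ((c - a) * (d - b)))‖ := by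
          refine (norm_sub_le _ _).trans (add_le_add ?_ le_rfl)
          refine (norm_sub_le _ _).trans (add_le_add ?_ le_rfl)
          exact norm_sub_le _ _
      _ ≤ _ := add_le_add (add_le_add (add_le_add n1 n2) n3) n4
  obtain ⟨m₀, R, hR, hR'⟩ := lifting_var hG (fun m => C(unitInterval, D m))
    (fun m => {f | f 0 = 0 ∧ f 1 = 0}) (fun m => pathG_ideal) v
    (fun g => ⟨3, fun m => by
      rw [ContinuousMap.norm_le _ (by norm_num)]
      intro s
      rw [hv]
      refine (norm_add_le _ _).trans ?_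
      have h1 : ‖(s : ℝ) • ((μ m g : D m) - (β m g : D m))‖ ≤ 2 := by
        rw [norm_smul]
        refine (mul_le_of_le_one_left (norm_nonneg _) (hs0 s)).trans ?_
        refine (norm_sub_le _ _).trans ?_
        rw [hnβ, hnμ]
        norm_num
      rw [hnβ]
      linarith⟩)
    (fun m => by rw [hone, sub_self]; exact ⟨rfl, rfl⟩)
    (by
      simp only [hone, sub_self, norm_zero]
      exact tendsto_const_nhds)
    (fun m g h => ⟨by
        show v m (g * h) 0 - v m g 0 * v m h 0 = 0
        rw [hv0, hv0, hv0, map_mul, sub_eq_zero]; rfl, by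
        show v m (g * h) 1 - v m g 1 * v m h 1 = 0
        rw [hv1, hv1, hv1, map_mul, sub_eq_zero]; rfl⟩)
    (fun g h' => by
      have t1 := (((h (g * h')).add (h h')).add (h g)).add ((h g).mul (h h'))
      simp only [add_zero, mul_zero] at t1
      exact squeeze_zero (fun m => norm_nonneg _) (fun m => hbd m g h') t1)
    (fun m g => by rw [hstar, sub_self]; exact ⟨rfl, rfl⟩)
    (fun g => by
      simp only [hstar, sub_self, norm_zero]
      exact tendsto_const_nhds)
  refine ⟨m₀, R, fun m hm g => ?_, fun g => ?_⟩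
  · have h2 := hR m hm g
    have h3 : (R m g : C(unitInterval, D m)) 0 - v m g 0 = 0 := h2.1
    have h4 : (R m g : C(unitInterval, D m)) 1 - v m g 1 = 0 := h2.2
    rw [hv0] at h3
    rw [hv1] at h4
    exact ⟨sub_eq_zero.1 h3, sub_eq_zero.1 h4⟩
  · have t1 := (hR' g).add (h g)
    rw [add_zero] at t1
    refine squeeze_zero (fun m => norm_nonneg _) (fun m => ?_) t1
    have e1 : (R m g : C(unitInterval, D m)) - ContinuousMap.const _ (β m g : D m) =
        ((R m g : C(unitInterval, D m)) - v m g) +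
          (v m g - ContinuousMap.const _ (β m g : D m)) := by abel
    rw [e1]
    exact (norm_add_le _ _).trans (add_le_add le_rfl (hvc m g))

/-- **Uniform homotopy**: representations of a `C*`-stable group which are close on a suitable finite set are joined by a short path of
representations, uniformly over all `C*`-algebras -/
theorem uniform_path {G : Type} [Group G] [Countable G] (hG : CStarStable G) (F₀ : Finset G)
    (ε₀ : ℝ) (hε₀ : 0 < ε₀) :
    ∃ (F : Finset G) (δ : ℝ), 0 < δ ∧ ∀ (D : Type) [CStarAlgebra D] [Nontrivial D]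
      (β μ : G →* unitary D), (∀ g ∈ F, ‖(β g : D) - (μ g : D)‖ < δ) →
      ∃ R : G →* unitary C(unitInterval, D),
        (∀ g, (R g : C(unitInterval, D)) 0 = (β g : D) ∧
          (R g : C(unitInterval, D)) 1 = (μ g : D)) ∧
        ∀ g ∈ F₀, ∀ t, ‖(R g : C(unitInterval, D)) t - (β g : D)‖ < ε₀ := by
  classical
  by_contra hcon
  push Not at hcon
  obtain ⟨f, hf⟩ := exists_surjective_nat G
  have h1 : ∀ m : ℕ, ∃ (D : Type) (_ : CStarAlgebra D) (_ : Nontrivial D) (β μ : G →* unitary D),
      (∀ g ∈ (Finset.range (m + 1)).image f, ‖(β g : D) - (μ g : D)‖ < 1 / ((m : ℝ) + 1)) ∧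
      ∀ R : G →* unitary C(unitInterval, D),
        (∀ g, (R g : C(unitInterval, D)) 0 = (β g : D) ∧
          (R g : C(unitInterval, D)) 1 = (μ g : D)) →
        ∃ g ∈ F₀, ∃ t, ε₀ ≤ ‖(R g : C(unitInterval, D)) t - (β g : D)‖ := by
    intro m
    obtain ⟨D, i1, i2, β, μ, h2, h3⟩ := hcon ((Finset.range (m + 1)).image f) (1 / ((m : ℝ) + 1))
      (by positivity)
    exact ⟨D, i1, i2, β, μ, h2, h3⟩
  choose D i1 i2 β μ h2 h3 using h1
  have h4 : ∀ g, Tendsto (fun m => ‖(β m g : D m) - (μ m g : D m)‖) atTop (𝓝 0) := by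
    intro g
    obtain ⟨k, rfl⟩ := hf g
    refine squeeze_zero' (Eventually.of_forall fun m => norm_nonneg _) ?_
      tendsto_one_div_add_atTop_nhds_zero_nat
    filter_upwards [eventually_ge_atTop k] with m hm
    exact (h2 m (f k) (Finset.mem_image_of_mem _ (Finset.mem_range.2 (by omega)))).le
  obtain ⟨m₀, R, hR, hR'⟩ := path_gen hG D β μ h4
  have h5 : ∀ᶠ m in atTop, ∀ g ∈ F₀, ‖(R m g : C(unitInterval, D m)) -
      ContinuousMap.const _ (β m g : D m)‖ < ε₀ := by
    rw [Filter.eventually_all_finset]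
    intro g _
    exact (hR' g).eventually (gt_mem_nhds hε₀)
  obtain ⟨m, hm, hm'⟩ := (h5.and (eventually_ge_atTop m₀)).exists
  obtain ⟨g, hg, t, ht⟩ := h3 m (R m) (hR m hm')
  have h6 := hm g hg
  have h7 := ContinuousMap.norm_coe_le_norm ((R m g : C(unitInterval, D m)) -
      ContinuousMap.const _ (β m g : D m)) t
  have h8 : ((R m g : C(unitInterval, D m)) - ContinuousMap.const unitInterval (β m g : D m) :
      C(unitInterval, D m)) t = (R m g : C(unitInterval, D m)) t - (β m g : D m) := rfl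
  rw [h8] at h7
  linarith

end Pool.Agent.LibCSF44
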