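import Pool.Agent.LibCSF44.Strong
import Pool.Agent.LibCSF44.Trunc
set_option autoImplicit false
namespace Pool.Agent.LibCSF44
open Topology Filter
open Pool.Agent.LibCS15

variable {E : Type} [NormedAddCommGroup E] [InnerProductSpace ℂ E] [CompleteSpace E]

theorem norm_pr_sub_le {S : E →L[ℂ] E} (hS : star S * S = 1) {R Q : ℕ} (h : R ≤ Q) (ξ : E) :
    ‖pr S Q ξ - ξ‖ ≤ ‖((star S) ^ R) ξ‖ := by
  obtain ⟨k, rfl⟩ := Nat.exists_eq_add_of_le h
  have h1 : pr S (R + k) ξ - ξ = -((S ^ (R + k)) (((star S) ^ k) (((star S) ^ R) ξ))) := by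
    have h2 : (star S) ^ (R + k) = (star S) ^ k * (star S) ^ R := by rw [← pow_add, add_comm]
    have h3 : pr S (R + k) ξ = ξ - (S ^ (R + k)) (((star S) ^ (R + k)) ξ) := rfl
    rw [h3, h2]
    show ξ - (S ^ (R + k)) (((star S) ^ k) (((star S) ^ R) ξ)) - ξ = _
    abel
  rw [h1, norm_neg]
  have h4 : ‖S ^ (R + k)‖ ≤ 1 := by
    have h5 := norm_star_pow_le_one (D := E →L[ℂ] E) hS (R + k)
    rw [← star_pow] at h5
    exact (norm_star (S ^ (R + k))).symm.le.trans h5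
  have h6 := norm_star_pow_le_one (D := E →L[ℂ] E) hS k
  calc ‖(S ^ (R + k)) (((star S) ^ k) (((star S) ^ R) ξ))‖
      ≤ ‖S ^ (R + k)‖ * ‖((star S) ^ k) (((star S) ^ R) ξ)‖ := (S ^ (R + k)).le_opNorm _
    _ ≤ 1 * ‖((star S) ^ k) (((star S) ^ R) ξ)‖ :=
        mul_le_mul_of_nonneg_right h4 (norm_nonneg _)
    _ ≤ 1 * (‖(star S) ^ k‖ * ‖((star S) ^ R) ξ‖) :=
        mul_le_mul_of_nonneg_left (((star S) ^ k).le_opNorm _) zero_le_one
    _ ≤ 1 * (1 * ‖((star S) ^ R) ξ‖) :=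
        mul_le_mul_of_nonneg_left (mul_le_mul_of_nonneg_right h6 (norm_nonneg _)) zero_le_one
    _ = ‖((star S) ^ R) ξ‖ := by ring

theorem norm_om_sub_le {S : E →L[ℂ] E} (hS : star S * S = 1) (N : ℕ) (ξ : E) :
    ‖om S N ξ - ξ‖ ≤ ‖((star S) ^ (N + 1)) ξ‖ := by
  have hN : (0 : ℝ) < (N : ℝ) + 1 := by positivity
  have hN' : ((N : ℂ) + 1) ≠ 0 := by exact_mod_cast Nat.succ_ne_zero N
  have h1 : om S N ξ - ξ = ((1 : ℂ) / ((N : ℂ) + 1)) •
      ∑ j ∈ Finset.range (N + 1), (pr S (N + 1 + j) ξ - ξ) := by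
    have h2 : om S N ξ = ((1 : ℂ) / ((N : ℂ) + 1)) •
        ∑ j ∈ Finset.range (N + 1), pr S (N + 1 + j) ξ := by
      unfold om
      rw [ContinuousLinearMap.smul_apply, ContinuousLinearMap.sum_apply]
    rw [h2, Finset.sum_sub_distrib, Finset.sum_const, Finset.card_range, smul_sub,
      ← Nat.cast_smul_eq_nsmul ℂ, smul_smul]
    have h6 : (1 : ℂ) / ((N : ℂ) + 1) * ((N + 1 : ℕ) : ℂ) = 1 := by
      push_cast
      field_simp
    rw [h6, one_smul]
  rw [h1, norm_smul]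
  have h3 : ‖(1 : ℂ) / ((N : ℂ) + 1)‖ = 1 / ((N : ℝ) + 1) := by
    rw [norm_div, norm_one]
    congr 1
    have h : ((N : ℂ) + 1) = (((N : ℝ) + 1 : ℝ) : ℂ) := by push_cast; rfl
    rw [h, Complex.norm_real, Real.norm_eq_abs, abs_of_pos (by positivity)]
  rw [h3]
  have h4 : ‖∑ j ∈ Finset.range (N + 1), (pr S (N + 1 + j) ξ - ξ)‖ ≤
      ((N : ℝ) + 1) * ‖((star S) ^ (N + 1)) ξ‖ := by
    refine (norm_sum_le _ _).trans ?_
    refine (Finset.sum_le_sum fun j _ => norm_pr_sub_le hS (by omega : N + 1 ≤ N + 1 + j) ξ).trans ?_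
    rw [Finset.sum_const, Finset.card_range, nsmul_eq_mul]
    push_cast
    rfl
  calc 1 / ((N : ℝ) + 1) * ‖∑ j ∈ Finset.range (N + 1), (pr S (N + 1 + j) ξ - ξ)‖
      ≤ 1 / ((N : ℝ) + 1) * (((N : ℝ) + 1) * ‖((star S) ^ (N + 1)) ξ‖) := by gcongr
    _ = ‖((star S) ^ (N + 1)) ξ‖ := by field_simp

theorem tendsto_om {S : E →L[ℂ] E} (hS : star S * S = 1)
    (hp : ∀ ξ, Tendsto (fun R : ℕ => ((star S) ^ R) ξ) atTop (𝓝 0)) (ξ : E) :
    Tendsto (fun N => om S N ξ) atTop (𝓝 ξ) := by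
  rw [tendsto_iff_norm_sub_tendsto_zero]
  have h1 := ((hp ξ).comp (tendsto_add_atTop_nat 1)).norm
  rw [norm_zero] at h1
  exact squeeze_zero (fun N => norm_nonneg _) (fun N => norm_om_sub_le hS N ξ) h1

/-- the projections tend strongly to `1` -/
theorem tendsto_pr {S : E →L[ℂ] E} (hS : star S * S = 1)
    (hp : ∀ ξ, Tendsto (fun R : ℕ => ((star S) ^ R) ξ) atTop (𝓝 0)) (ξ : E) :
    Tendsto (fun N => pr S (2 * N + 2) ξ) atTop (𝓝 ξ) := by
  rw [tendsto_iff_norm_sub_tendsto_zero]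
  have h1 := (hp ξ).norm
  rw [norm_zero] at h1
  exact squeeze_zero (fun N => norm_nonneg _) (fun N => norm_pr_sub_le hS (by omega) ξ) h1

/-- the sequence `S, xs S 0, xs S 1, ...` -/
noncomputable def sh (S : E →L[ℂ] E) (hS : star S * S = 1) : Sq E :=
  BoundedContinuousFunction.ofNormedAddCommGroupDiscrete
    (fun m => match m with
      | 0 => S
      | N + 1 => xs S N) 1 (by
    rintro (_ | N)
    · exact norm_le_one_of_star_mul (D := E →L[ℂ] E) hS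
    · exact norm_xs_le (D := E →L[ℂ] E) hS N)

theorem sh_zero (S : E →L[ℂ] E) (hS : star S * S = 1) : sh S hS 0 = S := rfl
theorem sh_succ (S : E →L[ℂ] E) (hS : star S * S = 1) (N : ℕ) : sh S hS (N + 1) = xs S N := rfl

theorem sh_mem {S : E →L[ℂ] E} (hS : star S * S = 1)
    (hp : ∀ ξ, Tendsto (fun R : ℕ => ((star S) ^ R) ξ) atTop (𝓝 0)) :
    sh S hS ∈ strongAlg (fun N => pr S (2 * N + 2)) := by
  rw [mem_strongAlg]
  refine ⟨fun N => ⟨xs_mul_pr (D := E →L[ℂ] E) hS N, star_xs_mul_pr (D := E →L[ℂ] E) hS N⟩,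
    fun ξ => ⟨?_, ?_⟩⟩
  · have h1 := (S.continuous.tendsto ξ).comp (tendsto_om hS hp ξ)
    exact h1
  · have h1 := tendsto_om hS hp ((star S) ξ)
    refine h1.congr fun N => ?_
    have h2 : star (xs S N) = om S N * star S := by
      unfold xs
      rw [star_mul, star_om]
    show _ = (star (xs S N)) ξ
    rw [h2]
    rfl

/-- the truncated shift as an element of the algebra -/
noncomputable def shA {S : E →L[ℂ] E} (hS : star S * S = 1)
    (hp : ∀ ξ, Tendsto (fun R : ℕ => ((star S) ^ R) ξ) atTop (𝓝 0)) :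
    strongAlg (fun N => pr S (2 * N + 2)) := ⟨sh S hS, sh_mem hS hp⟩

theorem shA_comm_mem {S : E →L[ℂ] E} (hS : star S * S = 1)
    (hp : ∀ ξ, Tendsto (fun R : ℕ => ((star S) ^ R) ξ) atTop (𝓝 0))
    (hc : IsCompactOperator (1 - S * star S : E →L[ℂ] E)) :
    star (shA hS hp) * shA hS hp - shA hS hp * star (shA hS hp) ∈
      strongIdeal (fun N => pr S (2 * N + 2)) := by
  refine ⟨?_, ?_⟩
  · show IsCompactOperator (star S * S - S * star S : E →L[ℂ] E)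
    rw [hS]
    exact hc
  · rw [tendsto_zero_iff_norm_tendsto_zero]
    have h1 : Tendsto (fun N : ℕ => 8 / ((N : ℝ) + 1)) atTop (𝓝 0) := by
      have h2 := (tendsto_one_div_add_atTop_nhds_zero_nat (𝕜 := ℝ)).const_mul 8
      rw [mul_zero] at h2
      refine h2.congr fun N => ?_
      ring
    refine squeeze_zero (fun N => norm_nonneg _) (fun N => ?_) h1
    exact norm_comm_xs_le (D := E →L[ℂ] E) hS N

end Pool.Agent.LibCSF44
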