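import Pool.Agent.LibCSF44.Indep
set_option autoImplicit false
namespace Pool.Agent.LibCSF44

/-- if `H²(G; ℝ) = 0` then every assignment of real unitriangular matrices to elements which are independent in `H₁(G; ℝ)` extends to a homomorphism -/
theorem unipotent_extension {G : Type} [Group G]
    (hH : ∀ w : G → G → ℝ, (∀ g h k, w g h + w (g * h) k = w h k + w g (h * k)) →
      ∃ c : G → ℝ, ∀ g h, w g h = c g + c h - c (g * h)) {r : ℕ} (x : Fin r → G)
    (hx : ∀ t : Fin r → ℝ, (∀ b : G → ℝ, (∀ g h, b (g * h) = b g + b h) →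
      ∑ i, t i * b (x i) = 0) → t = 0)
    (n : ℕ) (u : Fin r → Matrix (Fin n) (Fin n) ℝ)
    (hu : ∀ i, (∀ a, u i a a = 1) ∧ ∀ a b, b < a → u i a b = 0) :
    ∃ f : G →* Matrix (Fin n) (Fin n) ℝ,
      (∀ g, (∀ a, f g a a = 1) ∧ ∀ a b, b < a → f g a b = 0) ∧ ∀ i, f (x i) = u i := by
  classical
  obtain ⟨β, hβ, hβx⟩ := dual_of_independent x hx
  have hinj : Function.Injective x := by
    intro i j hij
    by_contra hne
    have h1 := hβx i j
    rw [← hij, hβx i i, if_pos rfl, if_neg hne] at h1
    exact one_ne_zero h1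
  let m : G → Matrix (Fin n) (Fin n) ℝ := fun g => if h : ∃ i, x i = g then u h.choose else 1
  have hmx : ∀ i, m (x i) = u i := by
    intro i
    have h : ∃ j, x j = x i := ⟨i, rfl⟩
    show (if h : ∃ j, x j = x i then u h.choose else 1) = u i
    rw [dif_pos h, hinj h.choose_spec]
  have hm : ∀ g, Uni (m g) := by
    intro g
    show Uni (if h : ∃ i, x i = g then u h.choose else 1)
    split_ifs with h
    · exact hu _
    · exact ⟨fun a => Matrix.one_apply_eq a, fun a b hab => Matrix.one_apply_ne (ne_of_gt hab)⟩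
  obtain ⟨f, hf, hfx, hfm⟩ := lift_all hH x β hβ hβx m hm n
  have hmul : ∀ g h, f (g * h) = f g * f h := by
    intro g h
    have h1 : f g * f h - f (g * h) = 0 := by
      ext a b
      exact hfm g h a b (by have := b.2; omega)
    exact (sub_eq_zero.1 h1).symm
  have hone : f 1 = 1 := by
    have h1 : f 1 * f 1 = f 1 := by rw [← hmul, mul_one]
    have h2 : (f 1).det = 1 := by
      have h3 : (f 1).BlockTriangular id := fun a b hab => (hf 1).2 a b hab
      rw [Matrix.det_of_upperTriangular h3]
      exact Finset.prod_eq_one fun a _ => (hf 1).1 a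
    have h4 : IsUnit (f 1) := by
      rw [Matrix.isUnit_iff_isUnit_det, h2]
      exact isUnit_one
    have h5 : f 1 * f 1 = f 1 * 1 := by rw [h1, mul_one]
    exact h4.mul_left_cancel h5
  exact ⟨{ toFun := f, map_one' := hone, map_mul' := hmul }, hf, fun i => (hfx i).trans (hmx i)⟩

end Pool.Agent.LibCSF44
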